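import Pool.Agent.Lib.MP_557161_ag.DL.Defs

/-!
Chains of isotropic flags on which a quadratic form vanishes, in the Pluecker-Segre embedding.
-/

namespace Pool.Agent.Lib.MP_557161_ag.DL.D2

open MvPolynomial Matrix

variable {L : Type} [Field L] {ι : Type} [Fintype ι]

/-- The affine cone over the chains of `G`-isotropic flags on which the quadratic form
`v ↦ v ⬝ᵥ B *ᵥ v` vanishes, in the Pluecker-Segre embedding. -/
def qcone (G B : Matrix ι ι L) (q : ℕ) {n l : ℕ} (w : Fin l → Fin n) : Set (Idx ι n l → L) :=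
  {x | ∃ (c : L) (b : Fin (l + 1) → ∀ i : Fin (n + 1), Fin i → ι → L),
    IsChain G q w (fun j i => Submodule.span L (Set.range (b j i))) ∧
    (∀ j i, ∀ v ∈ Submodule.span L (Set.range (b j i)), v ⬝ᵥ B *ᵥ v = 0) ∧ x = c • plk b}

/-- The homogeneous ideal over `k` of the Deligne-Lusztig variety. -/
noncomputable def qideal (k : Type) [Field k] (G B : Matrix ι ι k) (q : ℕ) {n l : ℕ}
    (w : Fin l → Fin n) : Ideal (MvPolynomial (Idx ι n l) k) :=
  vanishingIdeal k (qcone (G.map (algebraMap k (AlgebraicClosure k)))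
    (B.map (algebraMap k (AlgebraicClosure k))) q w)

end Pool.Agent.Lib.MP_557161_ag.DL.D2
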