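import Pool.Agent.Lib.MP_557161_ag.D2.PS

/-!
The variety of singular Lagrangian subspaces that meet their Frobenius image in codimension at
most one, and the trivialising torsors, in any characteristic.
-/

namespace Pool.Agent.Lib.MP_557161_ag.DL.D2

open Module Submodule Matrix HPs HP

section Lin

variable {L : Type} [Field L] {ι : Type} [Fintype ι] {G B : Matrix ι ι L}

lemma exists_sbQ (hG : QF G B) :
    ∃ (n : ℕ) (e f : Fin n → ι → L), SB G e f ∧ ∀ i k, bf G (e i) (e k) = 0 := by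
  obtain ⟨E, h1, h2⟩ := wellFounded_gt.has_min {E | Iso G E} ⟨⊥, show Iso G ⊥ from bot_le⟩
  have h3 : Lag G E := le_antisymm (fun x hx => by
    have a2 : Iso G (E ⊔ span L {x}) := PenA.iso_sup_line hG.e h1 hx (hG.self x)
    exact (eq_of_le_of_not_lt le_sup_left (h2 _ a2)).ge (mem_sup_right (mem_span_singleton_self x))) h1
  obtain ⟨n, f, s, hf⟩ := exists_nb' E
  have h4 := (hG.e.lag_iff.1 h3).2
  have h5 := hf.finrank
  rw [← hf.span] at h3
  obtain ⟨e, he⟩ := exists_dual hG.e h3 (Λ := ⊤) (by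
    rw [top_inf_eq, hf.span, finrank_top, Module.finrank_fintype_fun_eq_card]; omega)
  have h6 : SB G e f := ⟨fun i => (he i).2, h3⟩
  refine ⟨n, _, f, h6.row fun p => if p.1 < p.2 then bf G (e p.1) (e p.2) else 0, fun i k => ?_⟩
  rw [h6.bf_row hG.alt]
  rcases lt_trichotomy i k with h | rfl | h
  · simp [h, h.not_gt]
  · simp [hG.self]
  · simp only [h, h.not_gt, if_true, if_false, sub_zero]
    rw [bf_alt hG.alt (e k), add_neg_cancel]

variable {m b : ℕ} {G₂ : Matrix (Fin m) (Fin m) L} {Λ : Submodule L (ι ⊕ Fin m → L)}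

/-- The quadratic form on a subquotient. -/
lemma exists_B2 (hQ : QF G B) (hG : EForm (dsum G G₂)) (h : GoodL G G₂ b Λ)
    (hA : Sg B (trf Λ ⊥)) (P : L → Prop) (h0 : P 0) (h1 : ∀ i j, P (G₂ i j))
    (h2 : ∀ j v, Sum.elim v (Pi.single j 1) ∈ Λ → P (bf B v v)) :
    ∃ B₂, QF (dsum G G₂) (dsum B B₂) ∧ Sg (dsum B B₂) Λ ∧ ∀ i j, P (B₂ i j) := by
  choose v hv using fun j : Fin m => h.exists_lift hG (Pi.single j 1)
  have e1 : ∀ i j, G₂ i j = bf G (v i) (v j) := fun i j => by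
    rw [Trf.bf_eq h.1 (hv i) (hv j)]
    simp [bf]
  have ha : (dsum G G₂)ᵀ = -dsum G G₂ := by
    ext (i | i) (j | j)
    · exact congrFun (congrFun hQ.alt i) j
    · exact neg_zero.symm
    · exact neg_zero.symm
    · show -G₂ j i = - -G₂ i j
      rw [e1, e1, bf_alt hQ.alt (v j)]
  have hs : ∀ x, bf (dsum G G₂) x x = 0 := fun x => by
    obtain ⟨u, hu⟩ := h.exists_lift hG (x ∘ Sum.inr)
    rw [bf_dsum, ← Trf.bf_eq h.1 hu hu, hQ.self, hQ.self, sub_zero]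
  rcases hQ.pol with rfl | e
  · have e0 : dsum (0 : Matrix ι ι L) (0 : Matrix (Fin m) (Fin m) L) = 0 := by
      ext (i | i) (j | j) <;> simp [dsum]
    exact ⟨0, ⟨ha, hs, hG.inj, Or.inl e0⟩, e0.symm ▸ sg_zero, fun _ _ => h0⟩
  let B₂ : Matrix (Fin m) (Fin m) L := Matrix.of fun i j =>
    if i < j then G₂ i j else if i = j then bf B (v i) (v i) else 0
  have e2 : ∀ i j, G₂ i j = B₂ i j + B₂ j i := fun i j => by
    rcases lt_trichotomy i j with h | rfl | h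
    · simp [B₂, h, h.not_gt, h.ne']
    · simp only [B₂, of_apply, lt_irrefl, if_false, if_true]
      rw [e1, e, bf_pol]
    · simp only [B₂, of_apply, h, h.not_gt, h.ne', if_true, if_false, zero_add]
      rw [e1, e1, e, bf_pol, bf_pol, add_comm]
  have hq : QF (dsum G G₂) (dsum B B₂) := by
    refine ⟨ha, hs, hG.inj, Or.inr ?_⟩
    ext (i | i) (j | j)
    · exact congrFun (congrFun e i) j
    · exact (add_zero _).symm
    · exact (add_zero _).symm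
    · show -G₂ i j = -B₂ i j + -B₂ j i
      rw [e2, neg_add]
  refine ⟨B₂, hq, ?_, fun i j => ?_⟩
  · let S : Set (ι ⊕ Fin m → L) := {x | (∃ a ∈ trf Λ ⊥, x = Sum.elim a 0) ∨
      ∃ j, x = Sum.elim (v j) (Pi.single j 1)}
    have a1 : span L S ≤ Λ := span_le.2 (by
      rintro _ (⟨a, ha, rfl⟩ | ⟨j, rfl⟩)
      · obtain ⟨z, hz, e⟩ := mem_trf.1 ha
        rwa [(mem_bot L).1 hz] at e
      · exact hv j)
    have a2 : Λ ≤ span L S := fun x hx => by
      have b1 : ∑ j, x (Sum.inr j) • Sum.elim (v j) (Pi.single j (1 : L)) ∈ span L S :=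
        sum_mem fun j _ => smul_mem _ _ (subset_span (Or.inr ⟨j, rfl⟩))
      have b2 : x - ∑ j, x (Sum.inr j) • Sum.elim (v j) (Pi.single j (1 : L)) =
          Sum.elim (x ∘ Sum.inl - ∑ j, x (Sum.inr j) • v j) 0 := by
        funext i
        cases i with
        | inl i => simp [Finset.sum_apply]
        | inr i => simp [Finset.sum_apply, Pi.single_apply]
      have b3 := sub_mem hx (a1 b1)
      rw [b2] at b3
      rw [← sub_add_cancel x (∑ j, x (Sum.inr j) • Sum.elim (v j) (Pi.single j (1 : L))), b2]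
      exact add_mem (subset_span (Or.inl ⟨_, mem_trf.2 ⟨0, zero_mem _, b3⟩, rfl⟩)) b1
    refine (hq.span (Iso.mono h.1.ge a1) ?_).mono a2
    rintro _ (⟨a, ha, rfl⟩ | ⟨j, rfl⟩)
    · rw [bf_dsum]
      simpa using hA a ha
    · rw [bf_dsum]
      simp [bf, B₂]
  · simp only [B₂, of_apply]
    split_ifs
    · exact h1 i j
    · exact h2 i _ (hv i)
    · exact h0

/-- The quadratic form on the subquotient is rational. -/
lemma q_fixed (hQ : QF G B) (hG : EForm (dsum G G₂)) {φ : L →+* L} (hφ : G.map φ = G)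
    (hφ₂ : G₂.map φ = G₂) (hB : B.map φ = B) {τ : Bool} {ℓ : Submodule L (ι → L)}
    (h : IsT G G₂ φ τ b ℓ Λ) (hA : Sg B (trf Λ ⊥)) (j : Fin m) (v : ι → L)
    (hv : Sum.elim v (Pi.single j 1) ∈ Λ) : φ (bf B v v) = bf B v v := by
  obtain ⟨x, -, hx⟩ := exists_gen_line h.line
  obtain ⟨w, hw, hw'⟩ : ∃ w ∈ smap φ (Asp φ ℓ b), τ = true ∨ bf G x w = 1 := by
    obtain ⟨w, hw, hw'⟩ := Term.exists_w h.pos hx
    rcases hw' with e | e
    · exact ⟨w, hw, Or.inl e⟩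
    · exact ⟨_ • w, smul_mem _ _ hw, Or.inr (by rw [bf_smul_right, inv_mul_cancel₀ e])⟩
  have e0 : mapV φ (Sum.elim v (Pi.single j (1 : L))) = Sum.elim (mapV φ v) (Pi.single j 1) := by
    funext i
    cases i with
    | inl i => rfl
    | inr i => simp [mapV, Pi.single_apply]
  have h1 : Sum.elim (mapV φ v) (Pi.single j (1 : L)) ∈ smap φ Λ := e0 ▸ mapV_mem φ hv
  have h2 := h.adapt (Term.adj hG hφ hφ₂ h hx hw hw' h1)
  set c := bf G x (Sum.elim (mapV φ v) (Pi.single j (1 : L)) ∘ Sum.inl) with hc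
  have h3 : mapV φ v - c • w - v ∈ trf Λ ⊥ := mem_trf.2 ⟨0, zero_mem _, by
    convert sub_mem h2 hv using 1
    funext i
    cases i <;> simp⟩
  have hc' := Term.ch_frob hG hφ hφ₂ h
  have h4 : Sum.elim w (0 : Fin m → L) ∈ smap φ Λ := by
    obtain ⟨z, hz, e⟩ := mem_trf.1 (hc'.top.le hw)
    rwa [(mem_bot L).1 hz] at e
  have h5 : bf G (mapV φ v) w = 0 := by
    rw [Trf.bf_eq hc'.good.1 h1 h4, bf_zero_right]
  have h6 : bf B w w = 0 := by
    have := (sg_smap φ).2 hA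
    rw [hB, ← h.asp] at this
    exact this w hw
  obtain ⟨z, hz, h7⟩ := mem_trf.1 h3
  rw [(mem_bot L).1 hz] at h7
  have h8 : bf G v (mapV φ v - c • w - v) = 0 := by rw [Trf.bf_eq h.good.1 hv h7, bf_zero_right]
  have h9 := hQ.add h8
  rw [add_sub_cancel, hA _ h3, add_zero] at h9
  have h10 := hQ.add (x := mapV φ v) (y := (-c) • w) (by rw [bf_smul_right, h5, mul_zero])
  rw [q_smul, h6, mul_zero, add_zero, neg_smul, ← sub_eq_add_neg, h9] at h10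
  rw [← bf_mapV, hB, h10]

end Lin

variable {k₀ : Type} [Field k₀] [Fintype k₀] {K : Type} [Field K] [Algebra k₀ K] [Base K]
  {ι ι₂ : Type} [Fintype ι] [Fintype ι₂]

section Alt

variable {n : ℕ}

theorem ck_pqQ (c : Fin n × Fin n → k₀) : CK (PQ K c) := by
  let η : Matrix (Fin n) (Fin n) k₀ := Matrix.of fun i j => c (i, j)
  have hη : ∀ (L : Fld K) (x : Fin n → L), x ≠ 0 →
      ((PP K η ⊤ 1).mem (L := L) (span L {x}) ↔ mapV (rat k₀ L) c ⬝ᵥ vv x = 0) := fun L x hx => by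
    have h1 : bf (gm η L) x x = mapV (rat k₀ L) c ⬝ᵥ vv x := by
      simp only [bf, gm, η, dotProduct, mulVec, map_apply, of_apply,
        Finset.mul_sum, Fintype.sum_prod_type, mapV, vv]
      simp only [mul_left_comm]
    rw [mem_pp_span hx, h1]
    refine ⟨fun h => h.2 one_ne_zero, fun h => ⟨⟨by simp [ext], fun i hi => ?_⟩, fun _ => h⟩⟩
    obtain rfl : i = 0 := by omega
    rw [Function.iterate_zero_apply, gm_pol, bf_pol, h1, h, add_zero]
  refine CK.image (W := PP K η ⊤ 1) ⟨fun ℓ => HPs.sq ℓ, fun {L} ℓ h => ?_, fun κ ℓ h => ?_,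
    fun O ℓ _ h _ => ?_⟩ (fun O _ _ h _ => pp_red O h) (fun L _ ℓ h => ?_) (ck_pp η ⊤ 1)
  · obtain ⟨x, hx, rfl⟩ := exists_gen_line h.1.1
    rw [sq_span]
    exact ⟨finrank_span_singleton (vv_ne hx), q_span.2 ⟨fun i j => mul_comm _ _,
      fun i j k l => by simp only [vv]; ring, (hη L x hx).1 h⟩⟩
  · obtain ⟨x, hx, rfl⟩ := exists_gen_line h.1.1
    show HPs.sq (smap κ.toRingHom _) = smap κ.toRingHom _
    rw [smap_single, sq_span, sq_span, smap_single]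
    exact congrArg (span _ {·}) (funext fun p => (map_mul κ _ _).symm)
  · obtain ⟨x, hx, rfl⟩ := exists_gen_line h.1.1
    obtain ⟨s, h1, h2⟩ := exists_scale O hx
    have h3 : rdV O ((x s)⁻¹ • x) ≠ 0 := fun h => by simpa [rdV, h1] using congrFun h s
    have h4 : rdV O (vv ((x s)⁻¹ • x)) = vv (rdV O ((x s)⁻¹ • x)) :=
      funext fun p => O.rd_mul (h2 _) (h2 _)
    show HPs.sq (sred O _) = sred O _
    rw [← span_singleton_smul_eq (inv_ne_zero h1).isUnit x, sred_single h2 h3, sq_span, sq_span,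
      sred_single (x := vv _) (fun p => mul_mem (h2 _) (h2 _)) (h4 ▸ vv_ne h3), h4]
  · obtain ⟨w, hw, rfl⟩ := exists_gen_line h.1
    obtain ⟨h1, h2, h3⟩ := q_span.1 h.2
    obtain ⟨x, rfl⟩ := exists_vv hw h1 h2
    have hx : x ≠ 0 := fun h => hw (funext fun p => by simp [vv, h])
    exact ⟨span L {x}, (hη L x hx).2 h3, sq_span x⟩

omit [Fintype k₀] [Base K] in
lemma mem_extQ {L : Fld K} {w : Fin n × Fin n → L} : w ∈ ext L (SyM n k₀) ↔ Sy w := by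
  refine ⟨fun h => (show ext L (SyM n k₀) ≤ SyM n L from
    smap_le.2 fun x hx i j => congrArg (rat k₀ L) (hx i j)) h, fun h => ?_⟩
  have : w = ∑ p : Fin n × Fin n, (if p.1 ≤ p.2 then w p else 0) • mapV (rat k₀ L)
      (fun q : Fin n × Fin n => if q = p ∨ q.swap = p then 1 else 0) := by
    funext q
    simp only [Finset.sum_apply, Pi.smul_apply, mapV, apply_ite (rat k₀ L), map_one, map_zero,
      smul_eq_mul, mul_ite, mul_one, mul_zero]
    rcases le_total q.1 q.2 with hq | hq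
    · rw [Finset.sum_eq_single q (fun p _ hp => ?_) (by simp)]
      · simp [hq]
      · split_ifs with a1 a2
        · rcases a1 with rfl | rfl
          · exact absurd rfl hp
          · exact absurd (Prod.ext (le_antisymm a2 hq) (le_antisymm hq a2)) hp
        · rfl
        · rfl
    · rw [Finset.sum_eq_single q.swap (fun p _ hp => ?_) (by simp)]
      · simp only [or_true, if_true, Prod.fst_swap, Prod.snd_swap, hq]
        exact h _ _
      · split_ifs with a1 a2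
        · rcases a1 with rfl | rfl
          · exact absurd (Prod.ext (le_antisymm a2 hq) (le_antisymm hq a2)) hp
          · exact absurd rfl hp
        · rfl
        · rfl
  rw [this]
  exact sum_mem fun p _ => smul_mem _ _ (mapV_mem _ fun i j => if_congr or_comm rfl rfl)

omit [Base K] in
lemma lp_iffQ {L : Fld K} {y : Fin n × Fin n → L} :
    (LP (SyM n k₀) (PQ K (0 : Fin n × Fin n → k₀))).mem (L := L) (some y) ↔
      Sy y ∧ Rk (lang k₀ y) := by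
  refine ⟨fun ⟨x, e, h1, h2⟩ => ?_, fun h => ⟨y, rfl, mem_extQ.2 h.1, ?_⟩⟩
  · obtain rfl := Option.some.inj e
    exact ⟨mem_extQ.1 h1, h2.elim (fun h _ _ _ _ => by rw [h]; rfl) fun h => (q_span.1 h.2).2.1⟩
  · refine or_iff_not_imp_left.2 fun h0 => ⟨finrank_span_singleton h0, q_span.2 ⟨fun i j => ?_, h.2, ?_⟩⟩
    · simp only [lang, mapV, Pi.sub_apply, h.1 i j]
    · rw [mapV_zero, zero_dotProduct]

theorem ck_lpQ : CK (LP (SyM n k₀) (PQ K (0 : Fin n × Fin n → k₀))) := by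
  refine ck_lp _ _ (fun L ℓ h => ⟨h.1, fun w hw => mem_extQ.2 (h.2 w hw).1⟩)
    (fun M O ℓ _ h => pq_red O h) (ck_pqQ 0) fun U h1 h2 => ?_
  obtain ⟨c, h8⟩ := exists_hyp h1 h2
  have h9 : ∀ (L : Fld K) (w : Fin n × Fin n → L),
      w ∈ ext L U ↔ Sy w ∧ mapV (rat k₀ L) c ⬝ᵥ w = 0 := fun L w => by
    rw [h8, ext, smap_inf, mem_inf, smap_perp, smap_single, mem_perp_span, bf,
      Matrix.map_one _ (map_zero _) (map_one _), one_mulVec]
    exact and_congr_left' mem_extQ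
  refine (ck_pqQ c).congr fun L (ℓ : Submodule L _) =>
    ⟨fun h => ⟨⟨h.1, fun w hw => ⟨(h.2 w hw).1, (h.2 w hw).2.1, ?_⟩⟩,
    show ℓ ≤ ext L U from fun w hw => (h9 L w).2 ⟨(h.2 w hw).1, (h.2 w hw).2.2⟩⟩,
    fun h => ⟨h.1.1, fun w hw => ⟨(h.1.2 w hw).1, (h.1.2 w hw).2.1,
      ((h9 L w).1 ((show ℓ ≤ ext L U from h.2) hw)).2⟩⟩⟩
  rw [mapV_zero, zero_dotProduct]

variable {G : Matrix ι ι k₀} {e f : Fin n → ι → k₀}

omit [Base K] in
lemma hp_iffQ (hG : EForm G) (ha : Gᵀ = -G) (h : SB G e f) (he : ∀ i k, bf G (e i) (e k) = 0)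
    {L : Fld K} {y : Fin n × Fin n → L} : (HP K G).mem (L := L) (Gr e f y) ↔
      (LP (SyM n k₀) (PQ K (0 : Fin n × Fin n → k₀))).mem (L := L) (some y) := by
  have h1 : smap (frH k₀ L) (Gr e f y) = Gr e f (mapV (frH k₀ L) y) := by
    have : ∀ v : ι → k₀, mapV (frH k₀ L) (mapV (rat k₀ L) v) = mapV (rat k₀ L) v :=
      fun v => funext fun _ => frH_rat _
    simp only [Gr, smap_gr, this]
  rw [lp_iffQ]
  refine and_congr ((h.map _).lag_gr (hG.gm L) ?_ fun i k => by rw [bf_mapV, he, map_zero]) ?_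
  · rw [← transpose_map, ha, Matrix.map_neg _ (map_neg _)]
  · rw [h1]
    exact (h.map _).rk_iff _ _

theorem ck_hp0_altQ {G B : Matrix ι ι k₀} (hQ : QF G B) :
    CK ((HP K G).inter (NoRat k₀ K ι)) := by
  have hG := hQ.e
  have h := hQ.alt
  obtain ⟨n, e, f, h1, h2⟩ := exists_sbQ hQ
  let Z : Sp (Aff K (Fin n × Fin n)) :=
    Sp.aff (fun L y => ¬(NoRat k₀ K ι).mem (L := L) (Gr e f y)) fun κ y => by
      rw [← smap_Gr]; exact not_congr ((NoRat k₀ K ι).map_iff κ _)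
  have hZ : ∀ (L : Fld K) (y : Fin n × Fin n → L), ¬Z.mem (L := L) (some y) ↔
      (NoRat k₀ K ι).mem (L := L) (Gr e f y) := fun L y =>
    ⟨fun h => by_contra fun h' => h ⟨y, rfl, h'⟩, fun h ⟨_, e, h'⟩ => h' (Option.some.inj e ▸ h)⟩
  refine CK.image (W := (LP (SyM n k₀) (PQ K (0 : Fin n × Fin n → k₀))).diff Z)
    ⟨fun {L} y => Option.elim y (⊥ : Submodule L (ι → L)) (Gr e f), ?_, ?_, ?_⟩ ?_
    (fun L _ Λ hΛ => ?_) (ck_lpQ.open ?_)
  · rintro L _ ⟨⟨y, rfl, h3⟩, h4⟩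
    exact ⟨(hp_iffQ hG h h1 h2).2 ⟨y, rfl, h3⟩, (hZ L y).1 h4⟩
  · rintro L L' κ _ ⟨⟨y, rfl, -⟩, -⟩
    exact (smap_Gr κ y).symm
  · rintro M O _ - ⟨⟨y, rfl, -⟩, -⟩ ⟨⟨z, h3, -⟩, -⟩
    rw [aff_red O (aff_int h3)]
    exact (sred_Gr h1 O (aff_int h3)).symm
  · rintro M O _ - ⟨⟨y, rfl, -⟩, -⟩ h3
    have h4 := int_of hG h1 O h3
    rw [aff_red O h4]
    have h5 : ((HP K G).inter (NoRat k₀ K ι)).mem (L := O.res) (Gr e f (rdV O y)) :=
      sred_Gr h1 O h4 ▸ h3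
    exact ⟨(hp_iffQ hG h h1 h2).1 h5.1, (hZ _ _).2 h5.2⟩
  · obtain ⟨y, rfl⟩ := (h1.map (rat k₀ L)).exists_gr (hG.gm L) hΛ.1.1 (disj hG h1 hΛ)
    exact ⟨some y, ⟨(hp_iffQ hG h h1 h2).1 hΛ.1, (hZ L y).2 hΛ.2⟩, rfl⟩
  · rintro M O _ - - ⟨y, rfl, h3⟩ ⟨z, h4, -⟩
    rw [aff_red O (aff_int h4)]
    refine ⟨_, rfl, fun h5 => h3 (sred_eq_bot.1 (le_bot_iff.1 ((sred_jc_le O _ _).trans ?_)))⟩
    rw [← sred_Gr h1 O (aff_int h4)] at h5
    rw [← finrank_sred O]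
    exact le_of_eq h5

end Alt

theorem ck_hp0Q {G B : Matrix ι ι k₀} (hQ : QF G B) :
    CK (((HP K G).inter (NoRat k₀ K ι)).inter (SS K B)) := by
  have hG := hQ.e
  rcases hQ.pol with rfl | rfl
  · refine (ck_hp0_altQ hQ).congr fun L Λ => ⟨fun h => ⟨h, ?_⟩, fun h => h.1⟩
    show Sg (gm 0 L) _
    rw [gm, Matrix.map_zero _ (map_zero _)]
    exact sg_zero
  by_cases hc : ∃ m, Fintype.card ι = 2 * (m + 1)
  · obtain ⟨m, hc⟩ := hc
    refine CK.image (res (aspMor hG hc) (SS K B) (SS K B) fun L ℓ h h' => ?_)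
      (fun {M} O ℓ _ hl hr => ⟨?_, ss_red O hl.2⟩) (fun L _ Λ hΛ => ?_)
      ((CK.open (lowA_closed (m + 2) _) (ck_pp B ⊤ (m + 1))).congr fun L ℓ =>
        ⟨fun h => ⟨⟨h.1.1, h.2⟩, h.1.2 m.succ_ne_zero⟩, fun h => ⟨⟨h.1.1, fun _ => h.2⟩, h.1.2⟩⟩)
    · exact sg_asp (hQ.gm L) (gm_frH B L) h' _ ((aspMor hG hc).mem ℓ h).1.1.ge
    · obtain ⟨h1, h4⟩ := mem_open.1 hl.1
      obtain ⟨h5, h6, h7⟩ := of_mem_hp0 (Λ := sred O (Asp (frH k₀ M) ℓ (m + 1))) hG hc hr.1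
      refine mem_open.2 ⟨ps_red O h1, (asp_of_jc h5 h6 h7 (ps_red O h1).1 ?_).2⟩
      rw [← sred_iter, ← jc_asp_line h1.1 h4]
      exact sred_jc_le O _ m
    · obtain ⟨h5, h6, h7⟩ := of_mem_hp0 hG hc hΛ.1
      obtain ⟨ℓ, h1, h2⟩ := exists_line_jc frH_surj h5 h6 h7
      obtain ⟨e1, e2⟩ := asp_of_jc h5 h6 h7 h1 h2.le
      refine ⟨ℓ, ⟨mem_open.2 ⟨⟨h1, by rw [ext, smap_top]; exact le_top, ?_⟩, e2⟩,
        Sg.mono hΛ.2 ((le_asp m).trans e1.le)⟩, e1⟩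
      rw [e1, (hG.gm L).le_perp_comm, hΛ.1.1.1, ← e1]
      exact le_asp m
  · refine CK.of_const fun L _ (Λ : Submodule L (ι → L)) hΛ =>
      ⟨(⊥ : Submodule K (ι → K)), (smap_bot _).trans ?_⟩
    have := ((hG.gm L).lag_iff.1 hΛ.1.1.1).2
    refine (finrank_eq_zero.1 (by_contra fun e => hc ⟨finrank L Λ - 1, ?_⟩)).symm
    omega

omit [Fintype k₀] [Base K] in
lemma sg_ext_dsum {B : Matrix ι ι k₀} {B₂ : Matrix ι₂ ι₂ k₀} {Λ : Submodule k₀ (ι ⊕ ι₂ → k₀)}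
    (h : Sg (dsum B B₂) Λ) (L : Fld K) : Sg (dsum (gm B L) (gm B₂ L)) (ext L Λ) :=
  gm_dsum B B₂ L ▸ sg_ext.2 h

theorem ck_hpQ {G B : Matrix ι ι k₀} (hQ : QF G B) : CK ((HP K G).inter (SS K B)) := by
  have hG := hQ.e
  refine CK.strata (A := Sub K ι) (fun {L} Λ => finrank L (Jc (frH k₀ L) Λ (Fintype.card ι)))
    (fun κ Λ => finrank_jc_map κ Λ _) (fun O Λ _ _ _ => (finrank_sred O _).ge.trans
      (finrank_mono (sred_jc_le O Λ _))) (Fintype.card ι) (fun L Λ _ => finrank_le_card _)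
    fun r => CK.congr (Y := ((HP K G).inter (Lev k₀ K ι r)).inter (SS K B)) ?_
      fun L Λ => and_right_comm
  refine CK.family
    (α := Σ m : ℕ, {x : (Matrix (Fin m) (Fin m) k₀ × Matrix (Fin m) (Fin m) k₀) ×
      Submodule k₀ (ι ⊕ Fin m → k₀) //
      QF (dsum G x.1.1) (dsum B x.1.2) ∧ GoodL G x.1.1 r x.2 ∧ Sg (dsum B x.1.2) x.2})
    (fun a => res (trfMor a.2.2.1.e a.2.2.2.1) (SS K a.2.1.1.2) (SS K B)
      fun L E _ hE => sg_trf (sg_ext_dsum a.2.2.2.2 L) hE)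
    (fun a M O E _ hE hr => ⟨?_, ss_red O hE.2⟩)
    (fun L _ (Λ : Submodule L (ι → L)) hΛ => ?_) fun a => ck_hp0Q a.2.2.1.right
  · refine (mem_trf_iff a.2.2.1.e a.2.2.2.1 (sred O E)).1 ?_
    rw [← sred_trf_ext a.2.2.1.e a.2.2.2.1]; exact hr.1
  · obtain ⟨U, hU⟩ := exists_ext (jc_stab (φ := frH k₀ L) (finrank_le_card Λ)).1
    have h1 : ext L U ≤ Λ := hU ▸ jc_anti (φ := frH k₀ L) (A := Λ) (Nat.zero_le _)
    have h2 : Iso (gm G L) Λ := hΛ.1.1.1.ge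
    obtain ⟨m, G₂, Λ₀, e1, e2, e3⟩ := exists_goodL hG ((iso_smap (rat k₀ L)).1 (h2.mono h1))
    have h3 : finrank k₀ U = r := by
      rw [← finrank_smap (rat k₀ L) U]
      exact (congrArg (fun E : Submodule L (ι → L) => finrank L E) hU).trans hΛ.1.2
    rw [h3] at e2
    obtain ⟨B₂, f1, f2, -⟩ := exists_B2 hQ e1 e2 (e3.symm ▸ sg_ext.1 (Sg.mono hΛ.2 h1))
      (fun _ => True) trivial (fun _ _ => trivial) fun _ _ _ => trivial
    obtain ⟨E, hE⟩ := ((goodL_ext L).2 e2).exists_trf (eform_gm e1 L) (D := Λ)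
      (by rw [trf_ext, e3]; exact h1) (by rw [trf_ext, e3]; exact le_trans h2 (perp_anti _ h1))
    exact ⟨⟨m, ((G₂, B₂), Λ₀), f1, e2, f2⟩, E, ⟨(mem_trf_iff e1 e2 E).1 (hE ▸ hΛ.1),
      sg_of_trf (eform_gm e1 L) ((goodL_ext L).2 e2) (sg_ext_dsum f2 L) (hE.symm ▸ hΛ.2)⟩, hE⟩

variable (K) in
/-- The singular correspondences. -/
noncomputable def TQ (G B : Matrix ι ι k₀) (G₂ B₂ : Matrix ι₂ ι₂ k₀) (τ : Bool) (b : ℕ) :
    Sp ((Sub K ι).prod (Sub K (ι ⊕ ι₂))) :=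
  (TS K G G₂ τ b).inter ((Sp.univ _).prod (SS K (dsum B B₂)))

theorem ck_tsQ {G B : Matrix ι ι k₀} {G₂ B₂ : Matrix ι₂ ι₂ k₀} (hQ : QF (dsum G G₂) (dsum B B₂))
    (τ : Bool) {b : ℕ} (hb : 1 ≤ b) : CK (TQ K G B G₂ B₂ τ b) := by
  have hG := hQ.e
  obtain ⟨m, rfl⟩ : ∃ m, b = m + 1 := ⟨b - 1, by omega⟩
  cases τ with
  | true =>
    refine CK.family
      (α := {Λ : Submodule k₀ (ι ⊕ ι₂ → k₀) // GoodL G G₂ (m + 1) Λ ∧ Sg (dsum B B₂) Λ})
      (fun a => res (ratMor a.2.1) (Sp.univ _) _ fun L _ _ _ => ⟨trivial, sg_ext.2 a.2.2⟩)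
      (fun a M O ℓ _ hl hr => ⟨?_, trivial⟩) (fun L _ y hy => ?_)
      fun a => (CK.open (lowA_closed _ _) (ck_proj G _)).congr
        fun _ _ => ⟨fun h => ⟨h, trivial⟩, fun h => h.1⟩
    · exact mem_open.2 ⟨ps_red O hl.1.1, by
        have := hr.1.good.2.1
        rwa [← hr.1.asp] at this⟩
    · obtain ⟨Λ, hΛ⟩ := exists_ext (frob_eq (eform_gm hG L) (gm_frH G L) (gm_frH G₂ L) hy.1)
      refine ⟨⟨Λ, (goodL_ext L).1 (hΛ ▸ hy.1.good), sg_ext.1 (hΛ.symm ▸ hy.2.2)⟩, y.1,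
        ⟨mem_open.2 ⟨⟨hy.1.line, ?_, bot_le⟩, ?_⟩, trivial⟩, Prod.ext rfl hΛ⟩
      · rw [← trf_ext, hΛ, ← hy.1.asp]; exact le_asp m
      · rw [hy.1.asp]; exact hy.1.good.2.1
  | false =>
    by_cases hc : Fintype.card ι = Fintype.card ι₂ + 2 * (m + 1)
    · refine CK.of_bij (res (sndMor hG (m + 1)) _ (SS K (dsum B B₂)) fun _ _ _ h => h.2)
        (fun L y y' hy hy' e => ?_) (fun {M} O y _ hy hr => ⟨?_, trivial, hr.2⟩)
        (fun L _ Λ hΛ => ?_) ((CK.open (deg_closed (m + 1) _) (ck_hpQ hQ)).congr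
          fun _ _ => and_right_comm)
      · have e' : y.2 = y'.2 := e
        refine Prod.ext ((smap_inj (frH k₀ L)).iterate m ?_) e'
        rw [← isT_line hG hy.1, ← isT_line hG hy'.1, e']
      · obtain ⟨h1, h2⟩ := isT_of_mem hG hc hr.1
        refine isT_of_jc (eform_gm hG _) (gm_frH G _) (gm_frH G₂ _) h1 hr.1.1.2 h2
          ((finrank_sred O y.1).trans hy.1.line) ?_
        show (smap (frH k₀ O.res))^[m] (sred O y.1) ≤ _
        rw [← sred_iter, ← isT_line hG hy.1]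
        exact sred_jc_trf O _ m
      · obtain ⟨h1, h2⟩ := isT_of_mem hG hc hΛ.1
        have h3 := codim_bot hΛ.1.1.2
        obtain ⟨ℓ, h4, h5⟩ := exists_line_jc frH_surj h1.2.1 (by have := h1.2.1; omega) h2
        exact ⟨(ℓ, Λ), ⟨isT_of_jc (eform_gm hG _) (gm_frH G _) (gm_frH G₂ _) h1 hΛ.1.1.2 h2 h4
          h5.le, trivial, hΛ.2⟩, rfl⟩
    · exact CK.of_const fun L _ y hy => (hc hy.1.good.2.2).elim

end Pool.Agent.Lib.MP_557161_ag.DL.D2
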