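import Pool.Agent.Lib.MP_557161_ag.D2.ModB
import Pool.Agent.Lib.MP_557161_ag.D2.Defs
import Pool.Agent.Lib.MP_557161_ag.DL.Model

/-!
The projective model of the Deligne-Lusztig variety in any characteristic: homogeneous, smooth,
of pure dimension, and its points over any algebraically closed field are the singular chains.
-/

namespace Pool.Agent.Lib.MP_557161_ag.DL.D2

open MvPolynomial Matrix Model ModelD

section Good

variable {R R' : Type} [CommRing R] [CommRing R'] {ι : Type} [Fintype ι] {n l : ℕ}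

/-- The points of the chart `s` with values in a ring. -/
def GoodQ (G B : Matrix ι ι R) (q : ℕ) (w : Fin l → Fin n) (s : Idx ι n l) (x : Idx ι n l → R) :
    Prop := Good G q w s x ∧ ∀ j i, SgM B (mat s x j i)

lemma GoodQ.map {G B : Matrix ι ι R} {q : ℕ} {w : Fin l → Fin n} {s : Idx ι n l}
    {x : Idx ι n l → R} (h : GoodQ G B q w s x) (f : R →+* R') :
    GoodQ (G.map f) (B.map f) q w s (f ∘ x) :=
  ⟨h.1.map f, fun j i => (h.2 j i).map f⟩

lemma GoodQ.of_maps {τ : Type} {C : τ → Type} [∀ a, CommRing (C a)] (f : ∀ a, R →+* C a)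
    (hf : ∀ x y, (∀ a, f a x = f a y) → x = y) {G B : Matrix ι ι R} {q : ℕ} {w : Fin l → Fin n}
    {s : Idx ι n l} {x : Idx ι n l → R}
    (h : ∀ a, GoodQ (G.map (f a)) (B.map (f a)) q w s (f a ∘ x)) : GoodQ G B q w s x := by
  refine ⟨Good.of_maps f hf fun a => (h a).1, fun j i c => hf _ _ fun a => ?_⟩
  have : ((mat s x j i).map (f a) * B.map (f a) * ((mat s x j i).map (f a))ᵀ) c c = 0 :=
    (h a).2 j i c
  rwa [← transpose_map, ← Matrix.map_mul, ← Matrix.map_mul, map_apply, ← map_zero (f a)] at this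

variable {L : Type} [Field L] {G B : Matrix ι ι L} {q : ℕ} {w : Fin l → Fin n}

lemma sg_iff {α : Type} [Fintype α] (hp : B = 0 ∨ G = B + Bᵀ) {A : Matrix α ι L}
    (hi : A * G * Aᵀ = 0) : SgM B A ↔ ∀ v ∈ rs A, v ⬝ᵥ B *ᵥ v = 0 := by
  have e : ∀ {β : Type} (X : Matrix β ι L) a, (X * B * Xᵀ) a a = X.row a ⬝ᵥ B *ᵥ X.row a :=
    fun X a => by
      rw [Matrix.mul_assoc]
      rfl
  refine ⟨fun h v hv => ?_, fun h a => (e A a).trans (h _ (Submodule.subset_span ⟨a, rfl⟩))⟩
  have h1 : Sub (Matrix.of fun _ : Unit => v) A :=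
    sub_iff.2 (Submodule.span_le.2 (by rintro _ ⟨_, rfl⟩; exact hv))
  exact (e _ ()).symm.trans (SgM.sub hp h1 hi h ())

theorem qcone_smul (c : L) {x : Idx ι n l → L} (hx : x ∈ qcone G B q w) :
    c • x ∈ qcone G B q w := by
  obtain ⟨c', b, hb, hb', rfl⟩ := hx
  exact ⟨c * c', b, hb, hb', smul_smul _ _ _⟩

theorem goodQ_iff (hp : B = 0 ∨ G = B + Bᵀ) (hq : ∀ a b : L, (a + b) ^ q = a ^ q + b ^ q)
    (hq0 : q ≠ 0) (s : Idx ι n l) (x : Idx ι n l → L) :
    GoodQ G B q w s x ↔ x ∈ qcone G B q w ∧ x s = 1 := by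
  constructor
  · rintro ⟨⟨hp', hx⟩, hs⟩
    have h : ∀ j i, cols (mat s x j i) (s j i) = 1 := fun j => (hp'.fl j).norm
    refine ⟨⟨1, mat s x, (isPt_iff hq hq0 h).1 hp', fun j i =>
      (sg_iff hp ((hp'.fl j).iso i)).1 (hs j i), hx.trans (one_smul _ _).symm⟩, ?_⟩
    rw [hx]
    simp only [plk', h, det_one, Finset.prod_const_one]
  · rintro ⟨⟨c, b, hb, hs, rfl⟩, h1⟩
    obtain ⟨A, hA⟩ : ∃ A : Fin (l + 1) → Model.Fl ι n L, A = fun j i => Matrix.of (b j i) :=
      ⟨_, rfl⟩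
    have hb' : IsChain G q w fun j i => rs (A j i) := hA ▸ hb
    have hs' : ∀ j i, ∀ v ∈ rs (A j i), v ⬝ᵥ B *ᵥ v = 0 := hA ▸ hs
    have e0 : plk b = plk' A := by rw [hA]; rfl
    rw [e0] at h1 ⊢
    have h2 : c * ∏ j, ∏ i, (cols (A j i) (s j i)).det = 1 := h1
    have hu : ∀ j i, IsUnit (cols (A j i) (s j i)).det := fun j i => isUnit_iff_ne_zero.2
      (Finset.prod_ne_zero_iff.1 (Finset.prod_ne_zero_iff.1 (right_ne_zero_of_mul_eq_one h2) j
        (Finset.mem_univ j)) i (Finset.mem_univ i))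
    obtain ⟨M, hM⟩ : ∃ M : Fin (l + 1) → Model.Fl ι n L,
      ∀ j i, M j i = (cols (A j i) (s j i))⁻¹ * A j i := ⟨_, fun _ _ => rfl⟩
    have h : ∀ j i, cols (M j i) (s j i) = 1 := fun j i => by
      rw [hM, cols_mul, nonsing_inv_mul _ (hu j i)]
    have e1 : c • plk' A = plk' M := by
      funext t
      simp only [plk', hM, cols_mul, det_mul, det_nonsing_inv, Ring.inverse_eq_inv',
        Finset.prod_mul_distrib, Finset.prod_inv_distrib, Pi.smul_apply, smul_eq_mul]
      rw [eq_inv_of_mul_eq_one_left h2]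
    have e2 : (fun j i => rs (M j i)) = fun j i => rs (A j i) := by
      funext j i
      refine le_antisymm (sub_iff.1 ⟨_, hM j i⟩) (sub_iff.1 ⟨cols (A j i) (s j i), ?_⟩)
      rw [hM, ← Matrix.mul_assoc, mul_nonsing_inv _ (hu j i), Matrix.one_mul]
    have hP := (isPt_iff hq hq0 h).2 (e2 ▸ hb')
    rw [e1, GoodQ, Good, mat_plk h]
    exact ⟨⟨hP, rfl⟩, fun j i => (sg_iff hp ((hP.fl j).iso i)).2
      fun v hv => hs' j i v ((congrFun (congrFun e2 j) i).le hv)⟩

theorem qcone_nonempty (h : (qcone G B q w).Nonempty) : ∃ s, ∃ x ∈ qcone G B q w, x s = 1 := by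
  obtain ⟨_, c, b, hb, hs, rfl⟩ := h
  choose s hs' using fun j i => exists_minor (A := Matrix.of (b j i)) ((hb.1 j).2.1 i)
  refine ⟨s, _, ⟨(plk b s)⁻¹, b, hb, hs, rfl⟩, inv_mul_cancel₀ ?_⟩
  exact Finset.prod_ne_zero_iff.2 fun j _ => Finset.prod_ne_zero_iff.2 fun i _ => hs' j i

end Good

variable {k : Type} [Field k] {ι : Type} [Fintype ι] [DecidableEq ι]

/-- The standing hypotheses on the forms and on `q`. -/
structure FormQ (G B : Matrix ι ι k) (q : ℕ) : Prop where
  pow : ∃ p e : ℕ, p.Prime ∧ CharP k p ∧ 0 < e ∧ q = p ^ e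
  rf : RF G B
  nd : Dual G B
  frob : ∀ i j, G i j ^ q = G i j
  frob' : ∀ i j, B i j ^ q = B i j

variable {G B : Matrix ι ι k} {q n l : ℕ}

omit [DecidableEq ι] in
/-- The ideal of the chart, cut out by the matrix equations. -/
noncomputable def cQ (G B : Matrix ι ι k) (q : ℕ) (w : Fin l → Fin n) (s : Idx ι n l) :
    Ideal (MvPolynomial (Idx ι n l) k) :=
  sInf {J | GoodQ (G.map (algebraMap k (MvPolynomial (Idx ι n l) k ⧸ J)))
    (B.map (algebraMap k (MvPolynomial (Idx ι n l) k ⧸ J))) q w s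
    fun t => Ideal.Quotient.mk J (X t)}

omit [DecidableEq ι] in
lemma mem_iff_goodQ (w : Fin l → Fin n) (s : Idx ι n l) {R : Type} [CommRing R] [Algebra k R]
    (x : Idx ι n l → R) :
    (∀ f ∈ cQ G B q w s, aeval x f = 0) ↔
      GoodQ (G.map (algebraMap k R)) (B.map (algebraMap k R)) q w s x := by
  constructor
  · intro h
    have h0 : GoodQ (G.map (algebraMap k (MvPolynomial (Idx ι n l) k ⧸ cQ G B q w s)))
        (B.map (algebraMap k (MvPolynomial (Idx ι n l) k ⧸ cQ G B q w s))) q w s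
        fun t => Ideal.Quotient.mk (cQ G B q w s) (X t) := by
      refine GoodQ.of_maps
        (τ := {J | GoodQ (G.map (algebraMap k (MvPolynomial (Idx ι n l) k ⧸ J)))
          (B.map (algebraMap k (MvPolynomial (Idx ι n l) k ⧸ J)))
          q w s fun t => Ideal.Quotient.mk J (X t)})
        (fun J => Ideal.Quotient.factor (sInf_le J.2)) (fun x y e => ?_) fun J => J.2
      obtain ⟨x, rfl⟩ := Ideal.Quotient.mk_surjective x
      obtain ⟨y, rfl⟩ := Ideal.Quotient.mk_surjective y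
      exact Ideal.Quotient.eq.2 (Submodule.mem_sInf.2 fun J hJ => Ideal.Quotient.eq.1 (e ⟨J, hJ⟩))
    have h1 := h0.map (Ideal.Quotient.liftₐ _ (aeval x) h).toRingHom
    have e1 : ∀ A : Matrix ι ι k,
        (A.map (algebraMap k (MvPolynomial (Idx ι n l) k ⧸ cQ G B q w s))).map
        (Ideal.Quotient.liftₐ _ (aeval x) h).toRingHom = A.map (algebraMap k R) := fun A =>
      Matrix.ext fun i j => (Ideal.Quotient.liftₐ (cQ G B q w s) (aeval x) h).commutes (A i j)
    have e2 : ((Ideal.Quotient.liftₐ _ (aeval x) h).toRingHom ∘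
        fun t => Ideal.Quotient.mk (cQ G B q w s) (X t)) = x := funext fun t => aeval_X x t
    rwa [e1, e1, e2] at h1
  · intro h f hf
    refine Submodule.mem_sInf.1 hf (RingHom.ker (aeval x : _ →ₐ[k] R)) ?_
    refine GoodQ.of_maps (τ := Unit) (fun _ => (Ideal.kerLiftAlg (aeval x : _ →ₐ[k] R)).toRingHom)
      (fun a b e => Ideal.kerLiftAlg_injective _ (e ())) fun _ => ?_
    have e1 : ∀ A : Matrix ι ι k, (A.map (algebraMap k (MvPolynomial (Idx ι n l) k ⧸
        RingHom.ker (aeval x : _ →ₐ[k] R)))).map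
        (Ideal.kerLiftAlg (aeval x : _ →ₐ[k] R)).toRingHom = A.map (algebraMap k R) := fun A =>
      Matrix.ext fun i j => (Ideal.kerLiftAlg (aeval x : _ →ₐ[k] R)).commutes _
    have e2 : ((Ideal.kerLiftAlg (aeval x : _ →ₐ[k] R)).toRingHom ∘
        fun t => Ideal.Quotient.mk (RingHom.ker (aeval x : _ →ₐ[k] R)) (X t)) = x :=
      funext fun t => aeval_X x t
    rwa [e1, e1, e2]

omit [DecidableEq ι] in
lemma goodQ_hom {w : Fin l → Fin n} {s : Idx ι n l} {R : Type} [CommRing R] [Algebra k R]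
    (g : (MvPolynomial (Idx ι n l) k ⧸ cQ G B q w s) →ₐ[k] R) :
    GoodQ (G.map (algebraMap k R)) (B.map (algebraMap k R)) q w s
      fun t => g (Ideal.Quotient.mk _ (X t)) := by
  refine (mem_iff_goodQ w s _).1 fun f hf => ?_
  have e : (aeval fun t => g (Ideal.Quotient.mk _ (X t))) = g.comp (Ideal.Quotient.mkₐ k _) :=
    MvPolynomial.algHom_ext fun t => aeval_X _ t
  rw [e, AlgHom.comp_apply, Ideal.Quotient.mkₐ_eq_mk, Ideal.Quotient.eq_zero_iff_mem.2 hf, map_zero]

omit [DecidableEq ι] in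
lemma exists_homQ {w : Fin l → Fin n} {s : Idx ι n l} {R : Type} [CommRing R] [Algebra k R]
    {M : Fin (l + 1) → Model.Fl ι n R} (h : IsPt (G.map (algebraMap k R)) q w s M)
    (h' : ∀ j i, SgM (B.map (algebraMap k R)) (M j i)) :
    ∃ g : (MvPolynomial (Idx ι n l) k ⧸ cQ G B q w s) →ₐ[k] R,
      ∀ t, g (Ideal.Quotient.mk _ (X t)) = plk' M t := by
  have e := mat_plk fun j => (h.fl j).norm
  exact ⟨Ideal.Quotient.liftₐ _ (aeval (plk' M)) ((mem_iff_goodQ w s _).2
    ⟨⟨e.symm ▸ h, by rw [e]⟩, e.symm ▸ h'⟩), fun t => aeval_X _ t⟩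

namespace FormQ

variable (hG : FormQ G B q)
include hG

lemma two_le : 2 ≤ q := by
  obtain ⟨p, e, hp, -, he, rfl⟩ := hG.pow
  exact hp.two_le.trans (Nat.le_self_pow he.ne' p)

variable (R : Type) [CommRing R] [Algebra k R]

lemma exists_frob : ∃ F : R →+* R, ∀ x, F x = x ^ q := by
  obtain ⟨p, e, hp, hc, -, rfl⟩ := hG.pow
  rcases subsingleton_or_nontrivial R with _ | _
  · exact ⟨RingHom.id R, fun _ => Subsingleton.elim _ _⟩
  · have := Fact.mk hp
    have := charP_of_injective_algebraMap (algebraMap k R).injective p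
    exact ⟨iterateFrobenius R p e, fun x => iterateFrobenius_def p e x⟩

lemma map_frob : (G.map (algebraMap k R)).map (· ^ q) = G.map (algebraMap k R) :=
  Matrix.ext fun i j => by simp only [map_apply, ← map_pow, hG.frob]

lemma map_frob' : (B.map (algebraMap k R)).map (· ^ q) = B.map (algebraMap k R) :=
  Matrix.ext fun i j => by simp only [map_apply, ← map_pow, hG.frob']

omit [CommRing R] [Algebra k R] in
lemma zero_cQ [Field R] [Algebra k R] (w : Fin l → Fin n) (s : Idx ι n l) :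
    zeroLocus R (cQ G B q w s) =
      {x ∈ qcone (G.map (algebraMap k R)) (B.map (algebraMap k R)) q w | x s = 1} := by
  obtain ⟨F, hF⟩ := hG.exists_frob R
  ext x
  exact (mem_iff_goodQ w s x).trans (goodQ_iff (hG.rf.map _).pol
    (fun a b => by rw [← hF, ← hF, ← hF, map_add]) (by have := hG.two_le; omega) s x)

omit [CommRing R] [Algebra k R] in
lemma smooth_cQ (w : Fin l → Fin n) (s : Idx ι n l) :
    Algebra.Smooth k (MvPolynomial (Idx ι n l) k ⧸ cQ G B q w s) := by
  refine ⟨.of_comp_surjective fun R _ _ J hJ g => ?_,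
    Algebra.FinitePresentation.of_finiteType.1 inferInstance⟩
  obtain ⟨F, hF⟩ := hG.exists_frob R
  have h : SqZ (Ideal.Quotient.mk J) := ⟨Ideal.Quotient.mk_surjective, fun a b ha hb => by
    have := Ideal.mul_mem_mul (Ideal.Quotient.eq_zero_iff_mem.1 ha)
      (Ideal.Quotient.eq_zero_iff_mem.1 hb)
    rwa [← pow_two, hJ] at this⟩
  have hg := goodQ_hom g
  obtain ⟨M, m1, m2⟩ := pt_liftQ h hG.two_le F hF (hG.rf.map (algebraMap k R)) (hG.nd.map (algebraMap k R))
    (hG.map_frob R) (hG.map_frob' R) hg.1.1 hg.2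
  obtain ⟨g', hg'⟩ := exists_homQ m1.1 m1.2
  refine ⟨g', hom_ext fun t => ?_⟩
  show Ideal.Quotient.mk J (g' _) = _
  rw [hg', congrFun hg.1.2 t, ← funext₂ m2, plk'_map]
  rfl

lemma cQ_eq (w : Fin l → Fin n) (s : Idx ι n l) :
    qideal k G B q w ⊔ Ideal.span {X s - 1} = cQ G B q w s := by
  have := hG.smooth_cQ w s
  have h := (Ideal.isRadical_iff_quotient_reduced _).2
    (smooth_reduced k (MvPolynomial (Idx ι n l) k ⧸ cQ G B q w s))
  rw [← h.radical, ← vanishingIdeal_zeroLocus_eq_radical (K := AlgebraicClosure k), hG.zero_cQ,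
    vanishing_chart fun c x hx => qcone_smul c hx]
  rfl

open Classical in
lemma card_lifts {sy : Prop} (hs : sy → G = B + Bᵀ) (ha : ¬ sy → B = 0)
    (hn : Fintype.card ι = 2 * n ∨ (sy ∧ Fintype.card ι = 2 * n + 1))
    (w : Fin l → Fin n) (s : Idx ι n l) (L : Type)
    [Field L] [Finite L] [Algebra k L] (x : (MvPolynomial (Idx ι n l) k ⧸ cQ G B q w s) →ₐ[k] L) :
    Nat.card {g : (MvPolynomial (Idx ι n l) k ⧸ cQ G B q w s) →ₐ[k] DualNumber L //
      ∀ r, (g r).fst = x r} = Nat.card L ^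
        (Finset.univ.filter fun j => ¬ (sy ∧ 2 * ((w j : ℕ) + 1) = Fintype.card ι)).card := by
  have : Finite (DualNumber L) := inferInstanceAs (Finite (L × L))
  obtain ⟨F, hF⟩ := hG.exists_frob (DualNumber L)
  have e : (G.map (algebraMap k (DualNumber L))).map (fs L) = G.map (algebraMap k L) := rfl
  have e' : (B.map (algebraMap k (DualNumber L))).map (fs L) = B.map (algebraMap k L) := rfl
  have hx := goodQ_hom x
  have h := pt_cardQ sqz_fs hG.two_le F hF (hG.rf.map (algebraMap k (DualNumber L))).pol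
    (hG.map_frob (DualNumber L)) (hG.map_frob' (DualNumber L)) (e ▸ hx.1.1) (e' ▸ hx.2) _
    fun j M' hM' q' adj => step_cardQ (hG.rf.map _) (hG.nd.map _) (sy := sy)
      (fun h => by rw [hs h, Matrix.map_add _ (map_add _), transpose_map])
      (fun h => by rw [ha h, Matrix.map_zero _ (map_zero _)])
      hn ((e ▸ hx.1.1).fl _) ((e' ▸ hx.2) _) hM' q' (w j) adj
  rw [Finset.prod_pow_eq_pow_sum, card_sub (p := fun g => ∀ r, (g r).fst = x r)
    (fun g : (MvPolynomial (Idx ι n l) k ⧸ cQ G B q w s) →ₐ[k] DualNumber L =>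
      mat s fun t => g (Ideal.Quotient.mk _ (X t)))
    (fun g hg => ⟨⟨(goodQ_hom g).1.1, (goodQ_hom g).2⟩, fun j i => Matrix.ext fun a c => hg _⟩)
    (fun g g' e => hom_ext fun t => by
      rw [congrFun (goodQ_hom g).1.2 t, congrFun (goodQ_hom g').1.2 t, e])] at h
  · rw [h, Finset.card_filter]
    congr 1
    exact Finset.sum_congr rfl fun j _ => by split_ifs <;> simp_all
  · rintro M ⟨m1, m2⟩
    obtain ⟨g, hg⟩ := exists_homQ m1.1 m1.2
    refine ⟨g, fun r => ?_, by rw [funext hg, mat_plk fun j => (m1.1.fl j).norm]⟩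
    have : (TrivSqZeroExt.fstHom k L L).comp g = x := hom_ext fun t => by
      show fs L (g _) = _
      rw [hg, congrFun hx.1.2 t, ← funext₂ m2, plk'_map]
      rfl
    exact DFunLike.congr_fun this r

omit [CommRing R] [Algebra k R] in
lemma cQ_ne_top [Field R] [Algebra k R] {w : Fin l → Fin n}
    (h : (qcone (G.map (algebraMap k R)) (B.map (algebraMap k R)) q w).Nonempty) :
    ∃ s, cQ G B q w s ≠ ⊤ := by
  obtain ⟨s, x, h1, h2⟩ := qcone_nonempty h
  refine ⟨s, fun e => ?_⟩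
  have : x ∈ zeroLocus R (cQ G B q w s) := by rw [hG.zero_cQ]; exact ⟨h1, h2⟩
  rw [e, zeroLocus_top] at this
  exact this

omit [CommRing R] [Algebra k R] in
lemma zero_mem [Field R] [Algebra k R] (L : Type) [Field L] [IsAlgClosed L] [Algebra k L]
    {w : Fin l → Fin n}
    (h : (qcone (G.map (algebraMap k R)) (B.map (algebraMap k R)) q w).Nonempty) :
    0 ∈ qcone (G.map (algebraMap k L)) (B.map (algebraMap k L)) q w := by
  obtain ⟨s, hs⟩ := hG.cQ_ne_top R h
  rcases (zeroLocus L (cQ G B q w s)).eq_empty_or_nonempty with e | ⟨x, hx⟩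
  · refine absurd (Ideal.radical_eq_top.1 ?_) hs
    rw [← vanishingIdeal_zeroLocus_eq_radical (K := L), e, vanishingIdeal_empty]
  · rw [hG.zero_cQ] at hx
    simpa using qcone_smul 0 hx.1

end FormQ

omit [DecidableEq ι] in
lemma qcone_ne {w : Fin l → Fin n} (h : qideal k G B q w ≠ ⊤) :
    (qcone (G.map (algebraMap k (AlgebraicClosure k))) (B.map (algebraMap k (AlgebraicClosure k)))
      q w).Nonempty :=
  Set.nonempty_iff_ne_empty.2 fun e => h (by rw [qideal, e, vanishingIdeal_empty])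

variable (hG : FormQ G B q) (w : Fin l → Fin n)

omit [DecidableEq ι] in
theorem modelQ_homog : Homog (qideal k G B q w) :=
  homog_vanishing fun c _ hx => qcone_smul c hx

include hG

theorem modelQ_smooth (s : Idx ι n l) : Algebra.Smooth k (Chart (qideal k G B q w) s) := by
  unfold Chart
  rw [hG.cQ_eq]
  exact hG.smooth_cQ w s

theorem modelQ_points (L : Type) [Field L] [IsAlgClosed L] [Algebra k L] :
    zeroLocus L (qideal k G B q w) =
      qcone (G.map (algebraMap k L)) (B.map (algebraMap k L)) q w := by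
  have key : ∀ (x : Idx ι n l → L) s, x s = 1 → (x ∈ zeroLocus L (qideal k G B q w) ↔
      x ∈ qcone (G.map (algebraMap k L)) (B.map (algebraMap k L)) q w) := by
    intro x s hs
    have e := Set.ext_iff.1 (hG.zero_cQ L w s) x
    rw [← hG.cQ_eq] at e
    refine ⟨fun h => (e.1 fun f hf => ?_).1, fun h f hf => e.2 ⟨h, hs⟩ f (Ideal.mem_sup_left hf)⟩
    refine (sup_le (fun f hf => h f hf) ((Ideal.span_singleton_le_iff_mem _).2 ?_) :
      _ ≤ RingHom.ker (aeval x : _ →ₐ[k] L)) hf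
    simp [RingHom.mem_ker, hs]
  ext x
  by_cases hx : x = 0
  · subst hx
    refine ⟨fun h => hG.zero_mem _ L (qcone_ne fun e => ?_), fun h f hf => ?_⟩
    · rw [e, zeroLocus_top] at h
      exact h
    · have h0 := hf 0 (hG.zero_mem L (AlgebraicClosure k) ⟨0, h⟩)
      rw [aeval_zero, map_eq_zero] at h0
      rw [aeval_zero, h0, map_zero]
  · obtain ⟨s, hs⟩ := Function.ne_iff.1 hx
    have hs' : x s ≠ 0 := hs
    have e : x s • (x s)⁻¹ • x = x := smul_inv_smul₀ hs' x
    have h1 := key ((x s)⁻¹ • x) s (inv_mul_cancel₀ hs')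
    exact ⟨fun h => e ▸ qcone_smul _ (h1.1 (homog_smul_mem (modelQ_homog w) h _)),
      fun h => e ▸ homog_smul_mem (modelQ_homog w) (h1.2 (qcone_smul _ h)) _⟩

open Classical in
theorem modelQ_dim [Finite k] {sy : Prop} (hs : sy → G = B + Bᵀ) (ha : ¬ sy → B = 0)
    (hn : Fintype.card ι = 2 * n ∨ (sy ∧ Fintype.card ι = 2 * n + 1))
    (P : Ideal (MvPolynomial (Idx ι n l) k))
    (hP : P ∈ (qideal k G B q w).minimalPrimes) :
    ringKrullDim (MvPolynomial (Idx ι n l) k ⧸ P) =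
      ((Finset.univ.filter fun j => ¬ (sy ∧ 2 * ((w j : ℕ) + 1) = Fintype.card ι)).card + 1 : ℕ) := by
  refine cone_dim (modelQ_homog w) _ (fun s => ?_) (fun h => ?_) P hP
  · unfold Chart
    rw [hG.cQ_eq]
    have := hG.smooth_cQ w s
    exact smooth_trdeg _ fun L _ _ _ => hG.card_lifts hs ha hn w s L
  · obtain ⟨s, hs⟩ := hG.cQ_ne_top _ (qcone_ne h)
    exact ⟨s, Ideal.Quotient.nontrivial_iff.2 (by rwa [hG.cQ_eq])⟩

end Pool.Agent.Lib.MP_557161_ag.DL.D2
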