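import Pool.Agent.Lib.MP_557161_ag.D2.Odd
import Pool.Agent.Lib.MP_557161_ag.D2.Model
import Pool.Agent.Lib.MP_557161_ag.DL.Link

/-!
The Pluecker-Segre map from the space of singular galleries onto the projective model.
-/

namespace Pool.Agent.Lib.MP_557161_ag.DL.D2

open MvPolynomial Matrix Module Submodule Link

section Core

variable {k₀ : Type} [Field k₀] [Fintype k₀] {K : Type} [Field K] [Algebra k₀ K]
  {ι : Type} [Fintype ι] {G B : Matrix ι ι k₀} {n l : ℕ} {w : Fin l → Fin n}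

lemma xq_sg {L : Fld K} {y : ((Fl K ι).prod (Fl K ι).list).pt L}
    (h : (XQ K G B n (word w)).mem y) (j : Fin (l + 1)) (i : Fin (n + 1)) :
    Sg (gm B L) (mb n l y.1 y.2 j i) := by
  obtain ⟨D, Es⟩ := y
  obtain ⟨h0, h1, h2⟩ := h
  have hc := xc_chain h0
  refine Sg.mono (F := mb n l D Es j (Fin.last n)) ?_ ((hc.1 j).1 (Fin.le_last i))
  have hl : (show List (Flg L ι) from Es).length = l :=
    (path_iff.1 h0.2).1.trans (word_length w)
  have hm : ((show Flg L ι from D) :: (show List (Flg L ι) from Es)).getD j 0 ∈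
      (show Flg L ι from D) :: (show List (Flg L ι) from Es) := by
    rw [List.getD_eq_getElem _ _ (by rw [List.length_cons, hl]; exact j.2)]
    exact List.getElem_mem _
  rcases List.mem_cons.1 hm with e | e
  · exact (congrArg (fun X : Flg L ι => Sg (gm B L) (X n)) e).mpr h1
  · exact h2 _ e

variable {I : Ideal (MvPolynomial (Idx ι n l) K)} (hI : Homog I)
  (h : ∀ (L : Fld K) [IsAlgClosed L],
    zeroLocus L I = qcone (gm G L) (gm B L) (Fintype.card k₀) w)

/-- The Pluecker-Segre map. -/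
noncomputable def morQ : Mor (XQ K G B n (word w)) (XS I hI) where
  f y := pline (mb n l y.1 y.2)
  mem {L} y hy := by
    refine ((XS I hI).map_iff L.toCl _).1 ?_
    have hy' := ((XQ K G B n (word w)).map_iff L.toCl y).2 hy
    have e := xc_nat L.toCl y hy.1
    have hc := xc_chain hy'.1
    obtain ⟨b, s, hb⟩ := exists_nbs' fun j => (hc.1 j).2.1
    refine ⟨plk b, plk_nb hb, ?_, e.symm.trans (pline_eq fun j i => (hb j i).span)⟩
    rw [h L.cl]
    refine ⟨1, b, ?_, fun j i => ?_, (one_smul _ _).symm⟩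
    · rw [funext₂ fun j i => (hb j i).span]
      exact hc
    · rw [(hb j i).span]
      exact xq_sg hy' j i
  nat κ y hy := xc_nat κ y hy.1
  cont O y _ hy _ := by
    change _ = sred O _
    rw [sred_pline _ fun j => ((xc_chain hy.1).1 j).2.1]
    exact congrArg pline (mb_map (fred_apply O) Finsupp.mapRange_zero y.1 y.2)

lemma morQ_proper : (morQ hI h).Proper := fun O y _ hy _ =>
  ⟨⟨(gm_red G O).isFl hy.1.1, (congrArg (Path _ n _ _ _) (fred_frH O y.1)).mp
    ((gm_red G O).path hy.1.2)⟩, ss_red O hy.2.1, lst_red O hy.2.2⟩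

lemma morQ_surj : (morQ hI h).Surj := by
  rintro L _ _ ⟨x, h0, hx, rfl⟩
  rw [h L] at hx
  obtain ⟨c, b, hb, hs, rfl⟩ := hx
  obtain ⟨D, Es, h1, h2, h3⟩ := of_chain (frH_apply k₀ L) hb
  have hl : Es.length = l := (path_iff.1 h2).1.trans (word_length w)
  have key : ∀ X ∈ D :: Es, Sg (gm B L) (X n) := fun X hX => by
    obtain ⟨j, hj, rfl⟩ := List.getElem_of_mem hX
    rw [← List.getD_eq_getElem _ 0 hj]
    have e := congrFun (congrFun h3 ⟨j, by rwa [List.length_cons, hl] at hj⟩) (Fin.last n)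
    exact (congrArg (Sg (gm B L)) e).mpr (hs _ _)
  refine ⟨(D, Es), ⟨⟨h1, h2⟩, key D List.mem_cons_self,
    fun X hX => key X (List.mem_cons_of_mem _ hX)⟩, ?_⟩
  change pline (mb n l D Es) = _
  rw [h3, pline_eq fun _ _ => rfl, span_singleton_smul_eq (left_ne_zero_of_smul h0).isUnit]

end Core

section Par

variable {k : Type} [Field k] {ι : Type} [Fintype ι] [DecidableEq ι] {G B : Matrix ι ι k}

lemma RF.qf (hG : RF G B) (hd : G.det ≠ 0) : QF G B :=
  ⟨hG.alt, self_of_diag hG.alt hG.diag, fun _ hx => Matrix.eq_zero_of_mulVec_eq_zero hd hx, hG.pol⟩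

omit [DecidableEq ι] in
lemma QF.even (hG : QF G B) : Fintype.card ι = 2 * (Fintype.card ι / 2) := by
  obtain ⟨m, e, f, h, -⟩ := exists_sbQ hG
  have := h.card hG.e
  omega

omit [Fintype ι] [DecidableEq ι] in
lemma RF.of_map {L : Type} [Field L] (κ : k →+* L) (h : RF (G.map κ) (B.map κ)) : RF G B := by
  have hi : ∀ {X Y : Matrix ι ι k}, X.map κ = Y.map κ → X = Y :=
    fun e => Matrix.map_injective κ.injective e
  refine ⟨hi ?_, fun i => κ.injective ((h.diag i).trans (map_zero κ).symm),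
    h.pol.imp (fun e => hi ?_) fun e => hi ?_⟩
  · rw [transpose_map, h.alt, Matrix.map_neg _ (map_neg κ)]
  · rw [e, Matrix.map_zero _ (map_zero κ)]
  · rw [e, pol_map]

lemma card_ne (i₀ : ι) : Fintype.card ι = Fintype.card {i // i ≠ i₀} + 1 := by
  have : 0 < Fintype.card ι := Fintype.card_pos_iff.2 ⟨i₀⟩
  have h := Fintype.card_subtype_compl (· = i₀)
  rw [Fintype.card_subtype_eq] at h
  have h' : Fintype.card {i // i ≠ i₀} = Fintype.card ι - 1 := by convert h
  omega

variable [Finite k] (hG : RF G B) (hn : ∀ v, G *ᵥ v = 0 → bf B v v = 0 → v = 0)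
include hG hn

lemma RF.dual : Dual G B := fun F _ g v h1 h2 => by
  by_cases hd : G.det = 0
  · obtain ⟨i₀, G₀, P, S, r, c, h, h₀⟩ :=
      exists_od hG.alt (self_of_diag hG.alt hG.diag) hG.pol hn hd
    exact (h.map g).nd (h₀.map g).e h1 h2
  · exact ((hG.qf hd).map g).inj v h1

lemma RF.parity : Fintype.card ι = 2 * (Fintype.card ι / 2) ∨
    (G = B + Bᵀ ∧ Fintype.card ι = 2 * (Fintype.card ι / 2) + 1) := by
  by_cases hd : G.det = 0
  · obtain ⟨i₀, G₀, P, S, r, c, h, h₀⟩ :=
      exists_od hG.alt (self_of_diag hG.alt hG.diag) hG.pol hn hd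
    have h1 := h₀.even
    have h2 := card_ne i₀
    exact Or.inr ⟨h.pol, by omega⟩
  · exact Or.inl (hG.qf hd).even

end Par

section Core

variable {k₀ : Type} [Field k₀] [Fintype k₀] {K : Type} [Field K] [Algebra k₀ K] [Base K]
  {ι : Type} [Fintype ι] [DecidableEq ι] {G B : Matrix ι ι k₀} {n l : ℕ} {w : Fin l → Fin n}

theorem ck_all (hG : RF G B) (hd : ∀ v, G *ᵥ v = 0 → bf B v v = 0 → v = 0)
    (hn : n = Fintype.card ι / 2) {u : List ℕ} (hu : ∀ s ∈ u, 1 ≤ s ∧ s ≤ n) :
    CK (XQ K G B n u) := by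
  by_cases h : G.det = 0
  · obtain ⟨i₀, G₀, P, S, r, c, h, h₀⟩ :=
      exists_od hG.alt (self_of_diag hG.alt hG.diag) hG.pol hd h
    have h1 := h₀.even
    have h2 := card_ne i₀
    exact h.ck (ck_xq h₀ (by omega) hu)
  · exact ck_xq (hG.qf h) hn hu

theorem coreQ {I : Ideal (MvPolynomial (Idx ι n l) K)} (hI : Homog I)
    (h : ∀ (L : Fld K) [IsAlgClosed L],
      zeroLocus L I = qcone (gm G L) (gm B L) (Fintype.card k₀) w)
    (hG : RF G B) (hd : ∀ v, G *ᵥ v = 0 → bf B v v = 0 → v = 0)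
    (hn : n = Fintype.card ι / 2) : CK (XS I hI) := by
  refine CK.image (morQ hI h) (morQ_proper hI h) (morQ_surj hI h) (ck_all hG hd hn fun s hs => ?_)
  obtain ⟨j, rfl⟩ := (List.mem_ofFn' _ _).1 hs
  exact ⟨Nat.le_add_left _ _, (w j).2⟩

end Core

variable {k : Type} [Field k] {ι : Type} [Fintype ι] [DecidableEq ι] {G B : Matrix ι ι k}
  {q n l : ℕ}

theorem ck_modelQ [Finite k] (hG : FormQ G B q) (hn : n = Fintype.card ι / 2)
    (w : Fin l → Fin n) : CK (XS (upI (qideal k G B q w)) (modelQ_homog w).upI) := by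
  obtain ⟨p, e, hp, hc, he, hq⟩ := hG.pow
  have := Fact.mk hp
  let K := AlgebraicClosure k
  let k₀ := GaloisField p e
  let _ : Fintype k₀ := Fintype.ofFinite _
  have hcard : Fintype.card k₀ = q := by
    rw [hq, ← Nat.card_eq_fintype_card]
    exact GaloisField.card p e he.ne'
  let _ : Algebra (ZMod p) K := ZMod.algebra K p
  let _ : Algebra k₀ K := (IsAlgClosed.lift (R := ZMod p) (S := k₀) (M := K)).toRingHom.toAlgebra
  have h1 : ∀ x : k, x ^ q = x → ∃ c : k₀, algebraMap k₀ K c = algebraMap k K x := fun x hx =>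
    (frH_eq_iff (k₀ := k₀) (L := Fld.base K) (x := algebraMap k K x)).1 (by
      rw [frH_apply, hcard, ← map_pow, hx])
  choose G₀ hG₀ using fun i j => h1 _ (hG.frob i j)
  choose B₀ hB₀ using fun i j => h1 _ (hG.frob' i j)
  have e0 : (Matrix.of G₀).map (algebraMap k₀ K) = G.map (algebraMap k K) := Matrix.ext hG₀
  have e0' : (Matrix.of B₀).map (algebraMap k₀ K) = B.map (algebraMap k K) := Matrix.ext hB₀
  refine coreQ (G := Matrix.of G₀) (B := Matrix.of B₀) (w := w) _ (fun L _ => ?_)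
    (RF.of_map (algebraMap k₀ K) (by rw [e0, e0']; exact hG.rf.map _)) (fun v h1 h2 => ?_) hn
  swap
  · have := hG.nd K (algebraMap k K) (mapV (algebraMap k₀ K) v)
      (by rw [← e0, mapV_mulVec, h1]; exact funext fun _ => map_zero _)
      (by rw [← e0']; exact (bf_mapV _ _ v v).trans (by rw [h2, map_zero]))
    exact funext fun i => (algebraMap k₀ K).injective ((congrFun this i).trans (map_zero _).symm)
  let _ : Algebra k L := ((algebraMap K L).comp (algebraMap k K)).toAlgebra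
  have : IsScalarTower k K L := IsScalarTower.of_algebraMap_eq fun _ => rfl
  have e1 : gm (Matrix.of G₀) L = G.map (algebraMap k L) :=
    Matrix.ext fun i j => congrArg (algebraMap K L) (hG₀ i j)
  have e1' : gm (Matrix.of B₀) L = B.map (algebraMap k L) :=
    Matrix.ext fun i j => congrArg (algebraMap K L) (hB₀ i j)
  rw [e1, e1', hcard, ← modelQ_points hG w L]
  ext x
  constructor
  · intro hx f hf
    rw [← aeval_map_algebraMap K]
    exact hx _ (Ideal.mem_map_of_mem _ hf)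
  · intro hx f hf
    refine (Ideal.map_le_iff_le_comap.2 fun f hf => ?_ :
      upI _ ≤ RingHom.ker (aeval x : _ →ₐ[K] L)) hf
    rw [Ideal.mem_comap, RingHom.mem_ker, aeval_map_algebraMap]
    exact hx f hf

omit [DecidableEq ι] in
lemma ck_congr {σ : Type} [Finite σ] {I J : Ideal (MvPolynomial σ k)} (e : I = J) (hI : Homog I)
    (hJ : Homog J) (h : CK (XS (upI J) hJ.upI)) : CK (XS (upI I) hI.upI) := by
  subst e
  exact h

/-- The model for every classical form in every characteristic. -/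
theorem model_all [Finite k] {p e : ℕ} (hp : p.Prime) [CharP k p] (he : 0 < e)
    (hG : G = B + Bᵀ ∨ (B = 0 ∧ Gᵀ = -G ∧ ∀ i, G i i = 0))
    (hd : ∀ v, G *ᵥ v = 0 → v ⬝ᵥ B *ᵥ v = 0 → v = 0) (hq : ∀ i j, G i j ^ p ^ e = G i j)
    (hq' : ∀ i j, B i j ^ p ^ e = B i j) (hn : n = Fintype.card ι / 2) (w : Fin l → Fin n) :
    (∀ s, Algebra.Smooth k (Chart (qideal k G B (p ^ e) w) s)) ∧
    (∀ P ∈ (qideal k G B (p ^ e) w).minimalPrimes,
      ringKrullDim (MvPolynomial (Idx ι n l) k ⧸ P) = (Nat.card {j : Fin l //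
        ¬ (G = B + Bᵀ ∧ 2 * ((w j : ℕ) + 1) = Fintype.card ι)} + 1 : ℕ)) ∧
    CK (XS (upI (qideal k G B (p ^ e) w)) (modelQ_homog w).upI) := by
  classical
  rw [Nat.card_eq_fintype_card, Fintype.card_subtype]
  by_cases h : G = B + Bᵀ ∧ p ≠ 2
  · have h2 : (2 : k) ≠ 0 := fun h2 => h.2 ((Nat.prime_dvd_prime_iff_eq hp Nat.prime_two).1
      ((CharP.cast_eq_zero_iff k p 2).1 (by exact_mod_cast h2)))
    have hs : Gᵀ = G := by rw [h.1, transpose_add, transpose_transpose, add_comm]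
    have hF : Form G (p ^ e) := ⟨⟨p, e, hp, h.2, inferInstance, he, rfl⟩, Or.inl hs, fun h0 => by
      obtain ⟨v, v0, hv⟩ := Matrix.exists_mulVec_eq_zero_iff.2 h0
      refine v0 (hd v hv ((mul_eq_zero.1 ?_).resolve_left h2))
      rw [two_mul]
      refine (bf_pol B v v).symm.trans ?_
      rw [← h.1, bf, hv, dotProduct_zero], hq⟩
    have e1 : qideal k G B (p ^ e) w = ideal k G (p ^ e) w := by
      refine congrArg (vanishingIdeal k) (Set.ext fun x =>
        ⟨fun ⟨c, b, h1, _, h3⟩ => ⟨c, b, h1, h3⟩, fun ⟨c, b, h1, h3⟩ => ⟨c, b, h1, ?_, h3⟩⟩)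
      intro j i v hv
      have h4 := (h1.1 j).2.2 i v hv v hv
      rw [h.1, pol_map] at h4
      have h5 := (bf_pol _ v v).symm.trans h4
      rw [← two_mul, mul_eq_zero] at h5
      refine h5.resolve_left fun h6 => h2 ((algebraMap k (AlgebraicClosure k)).injective ?_)
      rw [map_ofNat, h6, map_zero]
    refine ⟨e1 ▸ model_smooth hF hn w, fun P hP => ?_,
      ck_congr e1 (modelQ_homog w) (model_homog w) (ck_model hF hn w)⟩
    rw [model_dim hF hn w P (e1 ▸ hP), dimW]
    simp only [hs, ← h.1]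
  · have hR : RF G B := by
      rcases hG with hG | hG
      · obtain rfl : p = 2 := by_contra fun e => h ⟨hG, e⟩
        refine ⟨Matrix.ext fun i j => ?_, fun i => ?_, Or.inr hG⟩
        · rw [Matrix.neg_apply, CharTwo.neg_eq, hG]
          exact add_comm _ _
        · rw [hG]
          exact CharTwo.add_self_eq_zero _
      · exact ⟨hG.2.1, hG.2.2, Or.inl hG.1⟩
    have hF : FormQ G B (p ^ e) :=
      ⟨⟨p, e, hp, inferInstance, he, rfl⟩, hR, hR.dual hd, hq, hq'⟩
    refine ⟨modelQ_smooth hF w, fun P hP => ?_, ck_modelQ hF hn w⟩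
    convert modelQ_dim hF w id (fun e => (hG.resolve_left e).1) (hn ▸ hR.parity hd) P hP

end Pool.Agent.Lib.MP_557161_ag.DL.D2
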