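import Pool.Agent.Lib.MP_557161_ag.D2.HP

/-!
The Chow-Kuenneth generation property for the Deligne-Lusztig varieties of symplectic and even
orthogonal groups in any characteristic.
-/

namespace Pool.Agent.Lib.MP_557161_ag.DL.D2

open Module Submodule Matrix PenA

section Lin

variable {L : Type} [Field L] {ι : Type} [Fintype ι] {G B : Matrix ι ι L} {n : ℕ}
  {A D Z : Flg L ι} {P S R E E' : Submodule L (ι → L)} {σ ρ : ι → L}

lemma QF.of_map {L' : Type} [Field L'] (κ : L →+* L') (h : QF (G.map κ) (B.map κ)) : QF G B := by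
  have hi : ∀ {X Y : Matrix ι ι L}, X.map κ = Y.map κ → X = Y :=
    fun e => Matrix.map_injective κ.injective e
  refine ⟨hi ?_, fun x => κ.injective ?_, (Lang.eform_of_map κ h.e).inj,
    h.pol.imp (fun e => hi ?_) fun e => hi ?_⟩
  · rw [transpose_map, h.alt, Matrix.map_neg _ (map_neg _)]
  · rw [← bf_mapV, h.self, map_zero]
  · rw [e, Matrix.map_zero _ (map_zero _)]
  · rw [e, pol_map]

lemma sg_fl (hD : IsFl G n D) (h : Sg B (D n)) (i : ℕ) : Sg B (D i) := by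
  by_cases hi : i ≤ n
  · exact h.mono (hD.mono hi le_rfl)
  · rw [hD.out i (not_le.1 hi)]
    exact sg_bot

lemma sg_path {u : List ℕ} {Es : List (Flg L ι)} (h : Path G n u D Es Z) (hD : Sg B (D n))
    (hE : ∀ X ∈ Es, Sg B (X n)) : Sg B (Z n) := by
  induction u generalizing D Es with
  | nil =>
    obtain ⟨rfl, rfl⟩ := path_nil.1 h
    exact hD
  | cons s u ih =>
    obtain ⟨D', Es', rfl, -, -, h2⟩ := path_cons.1 h
    exact ih h2 (hE D' (by simp)) fun X hX => hE X (by simp [hX])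

lemma sg_rel (hQ : QF G B) {τ : Bool} {b : ℕ} (hA : IsFl G n A) (hD : IsFl G n D) (hb : 1 ≤ b)
    (hbn : b ≤ n) (h : Rel G n τ b A D) (h1 : Sg B (A 1)) (h2 : Sg B (D n)) : Sg B (A n) :=
  hQ.sup' hA.iso (h.eq_hi hQ.e hA hD hb hbn le_rfl) (h2.mono inf_le_left) h1

lemma sg_rel' (hQ : QF G B) {τ : Bool} {b : ℕ} (hA : IsFl G n A) (hD : IsFl G n D) (hb : 1 ≤ b)
    (hbn : b ≤ n) (h : Rel G n τ b A D) (h1 : Sg B (A n)) (h2 : Sg B (D b)) : Sg B (D n) := by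
  have h3 : Sg B (D n ⊓ perp G (A 1)) := h1.mono (h.hi n hbn le_rfl)
  have hp := h.pos
  cases τ
  · obtain ⟨v, hv, hv'⟩ := SetLike.not_le_iff_exists.1 hp
    have hn : D b ≤ D n := hD.mono hbn le_rfl
    have h4 := finrank_inf_perp_line_eq (hA.rank 1 (by omega)) fun e => hp (hn.trans e)
    exact hQ.sup' hD.iso (eq_sup inf_le_left h4.symm (hn hv) fun e => hv' e.2) h3
      (sg_line.2 (h2 v hv))
  · exact h3.mono (le_inf le_rfl ((hD.le_perp n b).trans (perp_anti G hp.1)))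

lemma hy_eqn (hS : Sg B S) (f : Fr P S R σ ρ) {t : L}
    (hi : Sg B (P ⊔ span L {ρ + t • σ})) : bf B ρ ρ + t * bf (B + Bᵀ) σ ρ = 0 := by
  have := hi _ (mem_sup_right (mem_span_singleton_self _))
  rw [q_add, q_smul, hS σ f.1, bf_smul_right, bf_pol, mul_zero, add_zero] at this
  rw [bf_pol, add_comm (bf B σ ρ), this]

lemma hy_uniq (h : Hy (B + Bᵀ) P S R) (hS : Sg B S) (m : Mb P S R E) (m' : Mb P S R E')
    (i : Sg B E) (i' : Sg B E') : E = E' := by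
  obtain ⟨σ, ρ, f⟩ := h.1.ex
  obtain ⟨t, rfl⟩ := h.1.surj f m
  obtain ⟨t', rfl⟩ := h.1.surj f m'
  rw [mul_right_cancel₀ (h.ne f) (add_left_cancel ((hy_eqn hS f i).trans (hy_eqn hS f i').symm))]

lemma hy_ex (hQ : QF (B + Bᵀ) B) (h : Hy (B + Bᵀ) P S R) (hS : Sg B S) :
    ∃ E, Mb P S R E ∧ Sg B E := by
  obtain ⟨σ, ρ, f⟩ := h.1.ex
  have m := h.1.mb f (-bf B ρ ρ / bf (B + Bᵀ) σ ρ)
  refine ⟨_, m, hQ.sup ((span_singleton_le_iff_mem _ _).2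
    (h.2.2.1 (m.2.1 (mem_sup_right (mem_span_singleton_self _))))) (hS.mono h.1.1) (sg_line.2 ?_)⟩
  rw [q_add, q_smul, hS σ f.1, bf_smul_right, mul_zero, add_zero, bf_pol B ρ σ,
    add_comm (bf B ρ σ), ← bf_pol, div_mul_cancel₀ _ (h.ne f), add_neg_cancel]

lemma hy_fl (hG : EForm G) (hD : IsFl G n D) (h1 : 1 ≤ n) (hc : Fintype.card ι = 2 * n) :
    Hy G (D (n - 1)) (D n) (perp G (D (n - 1))) := by
  have a := hD.rank (n - 1) (by omega)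
  have b := hD.rank n le_rfl
  have c := hG.finrank_perp (D (n - 1))
  have d := hG.finrank_perp (D n)
  refine ⟨⟨hD.mono (by omega) le_rfl, hD.le_perp _ _, by omega, by omega⟩, hD.iso, le_rfl,
    fun e => ?_⟩
  have := finrank_mono e
  omega

lemma mb_fl (hA : IsFl G n A) (h1 : 1 ≤ n) (ha : Adj n D A) (hne : A n ≠ D n) :
    Mb (D (n - 1)) (D n) (perp G (D (n - 1))) (A n) := by
  rw [ha _ (by omega : n - 1 ≠ n)]
  refine ⟨hA.mono (by omega) le_rfl, hA.le_perp _ _, ?_, hne⟩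
  rw [hA.rank n le_rfl, hA.rank _ (by omega)]
  omega

end Lin

lemma hy_red {K : Type} [Field K] {M : Fld K} {O : Pl M} {ι : Type} [Fintype ι]
    {P S R E : Submodule M (ι → M)} {B : Matrix ι ι M} {G' B' : Matrix ι ι O.res}
    (hG : MRed O (B + Bᵀ) G') (hB : MRed O B B') (h : Hy (B + Bᵀ) P S R) (hS : Sg B S)
    (h' : Hy G' (sred O P) (sred O S) (sred O R)) (m : Mb P S R E) (i : Sg B E) :
    Mb (sred O P) (sred O S) (sred O R) (sred O E) := by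
  obtain ⟨σ, ρ, i1, i2, f, f'⟩ := h.1.int O
  obtain ⟨t, rfl⟩ := h.1.surj f m
  have e := hy_eqn hS f i
  obtain ⟨b1, b2⟩ := hG.bf i1 i2
  have ht : t ∈ O.O := by
    refine mem_of_mul b1 (b2 ▸ h'.ne f') ?_
    rw [eq_neg_of_add_eq_zero_right e]
    exact neg_mem (hB.bf i2 i2).1
  rw [h.1.red_mem i1 i2 f f' ht]
  exact h'.1.mb f' _

variable {k₀ : Type} [Field k₀] [Fintype k₀] {K : Type} [Field K] [Algebra k₀ K] [Base K]
  {ι : Type} [Fintype ι] {G B : Matrix ι ι k₀} {n : ℕ}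

theorem ck_fpenQ {A : Amb K} {Y : Sp A} (hQ : QF G B) (hn : n = Fintype.card ι / 2)
    (S : Mor Y (FlS K G n))
    (hS : ∀ (L : Fld K) (y : A.pt L), Y.mem y → Sg (gm B L) (fl S y n)) {s : ℕ} (h1 : 1 ≤ s)
    (hs : s ≤ n) (hY : CK Y) : CK ((FPen S s).inter ((Sp.univ A).prod (SF K B n))) := by
  have hG := hQ.e
  have hF : ∀ (L : Fld K) (y : A.pt L), Y.mem y → IsFl (gm G L) n (fl S y) := fun _ y => S.mem y
  rcases hs.lt_or_eq with h | rfl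
  · refine CK.congr (Y := FPen S s) ?_ fun L y => ⟨fun m => ⟨m, trivial, ?_⟩, fun m => m.1⟩
    swap
    · exact (hS L y.1 m.1).mono (m.2.2.1 n h.ne').ge
    refine ck_of_ipen S h1 hs (cmp S (s + 1)) (fun _ _ _ => (if_pos h).symm)
      ((ck_pen (cmp S (s - 1)) (cmp S s) (cmp S (s + 1)) (fun L y hy => ?_) hY).congr
        fun L y => ⟨fun m => ⟨m, ?_⟩, fun m => m.1⟩)
    · have f := hF L y hy
      refine ⟨f.mono (by omega) hs, f.le s h, ?_, ?_⟩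
      · show finrank L (fl S y s) = finrank L (fl S y (s - 1)) + 1
        rw [f.rank _ hs, f.rank _ (by omega)]
        omega
      · show finrank L (fl S y (s + 1)) = finrank L (fl S y (s - 1)) + 2
        rw [f.rank _ h, f.rank _ (by omega)]
        omega
    · exact Iso.mono ((hF L _ m.1).le_perp (s + 1) (s + 1)) m.2.2.1
  have hy : ∀ (L : Fld K) (y : A.pt L), Y.mem y →
      Hy (gm G L) (fl S y (s - 1)) (fl S y s) (perp (gm G L) (fl S y (s - 1))) := fun L y hy => by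
    refine hy_fl (hG.gm L) (hF L y hy) h1 ?_
    by_contra hc
    exact (hQ.gm L).card_alt (hF L y hy).iso (by rw [(hF L y hy).rank _ le_rfl]; omega)
  rcases hQ.pol with rfl | rfl
  · refine CK.congr (Y := FPen S s) ?_ fun L y => ⟨fun m => ⟨m, trivial, ?_⟩, fun m => m.1⟩
    swap
    · show Sg (gm 0 L) _
      rw [gm, Matrix.map_zero _ (map_zero _)]
      exact sg_zero
    refine ck_of_ipen S h1 hs (prp hG (cmp S (s - 1))) (fun _ _ _ => (if_neg (lt_irrefl s)).symm)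
      ((ck_pen (cmp S (s - 1)) (cmp S s) (prp hG (cmp S (s - 1))) (fun L y h => (hy L y h).1)
        hY).congr fun L y => ⟨fun m => ⟨m, ?_⟩, fun m => m.1⟩)
    exact (hQ.gm L).iso_alt ((hF L _ m.1).le_perp _ _) m.2.1 m.2.2.1 m.2.2.2.1
  refine CK.of_bij (fst fun _ _ h => h.1.1) ?_ ?_ ?_ hY
  · rintro L ⟨y, D⟩ ⟨y', D'⟩ ⟨⟨hy1, a1, a2, a3⟩, -, i⟩ ⟨⟨-, b1, b2, b3⟩, -, i'⟩ e
    obtain rfl : y = y' := e
    refine Prod.ext rfl (Finsupp.ext fun j => ?_)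
    by_cases hj : j = s
    · rw [hj]
      exact hy_uniq (gm_pol B L ▸ hy L y hy1) (hS L y hy1)
        (gm_pol B L ▸ mb_fl a1 h1 a2 a3) (gm_pol B L ▸ mb_fl b1 h1 b2 b3)
        i i'
    · exact (a2 j hj).symm.trans (b2 j hj)
  · rintro M O ⟨y, D⟩ hO ⟨⟨hy1, a1, a2, a3⟩, -, i⟩ hy'
    have e : fl S (A.red O y) = fred O (fl S y) := S.cont O y hO hy1 hy'
    have h' := hy _ (A.red O y) hy'
    rw [e, fred_apply, fred_apply, ← (gm_red (B + Bᵀ) O).perp (hG.gm _) (hG.gm _)] at h'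
    have r := gm_red (B + Bᵀ) O
    have h3 := hy M y hy1
    have h4 := mb_fl a1 h1 a2 a3
    rw [gm_pol B M] at r h3 h4 h'
    have h5 := (hy_red r (gm_red B O) h3 (hS M y hy1) h' h4 i).2.2.2
    refine ⟨⟨hy', (gm_red _ O).isFl a1, ?_, ?_⟩, trivial, ss_red O i⟩
    · show Adj s (fl S (A.red O y)) (fred O D)
      rw [e]
      exact Adj.red a2 O
    · show fred O D s ≠ fl S (A.red O y) s
      rw [e]
      exact h5
  · intro L _ y hy1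
    classical
    have f := hF L y hy1
    have h3 := hy L y hy1
    have h4 := hQ.gm L
    rw [gm_pol B L] at h3 h4
    obtain ⟨E, ⟨m1, m2, m3, m4⟩, i⟩ := hy_ex h4 h3 (hS L y hy1)
    have u : ((fl S y).update s E) s = E := by rw [Finsupp.update_apply, if_pos rfl]
    refine ⟨(y, (fl S y).update s E), ⟨⟨hy1, PenA.isFl_update f h1 hs m1
      (fun h => absurd h (lt_irrefl s)) ?_ (gm_pol B L ▸ i.iso), fun j hj => ?_, ?_⟩, trivial,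
      i.mono u.le⟩, rfl⟩
    · rw [m3, f.rank _ (by omega)]
      omega
    · exact (Finsupp.update_apply _ _ _ _).trans (if_neg hj) |>.symm
    · exact fun e => m4 (u.symm.trans e)

theorem ck_passQ (hQ : QF G B) {b s s' : ℕ} {τ : Bool} (hb : 1 ≤ b)
    (hbn : b ≤ n) (hs : Passes n b s s') {u : List ℕ} (h : CK (YQ K G B n τ b (u ++ [s']))) :
    CK (YQ K G B n τ b (s :: u)) := by
  have hG := hQ.e
  let C := ((SF K B n).prod (SF K B n)).prod (S3 K B n)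
  refine CK.image (res (Pass.pL K G n b s s' τ u) C _ fun L y _ c =>
      ⟨c.1.1, c.1.2, List.forall_mem_cons.2 ⟨c.2.2.1, c.2.2.2⟩⟩) ?_ ?_
    (CK.of_bij (res (Pass.pR K G n b s s' τ u) C (S3 K B n) fun L y _ c => ⟨c.2.1, c.2.2.1,
      List.forall_mem_append.2 ⟨c.2.2.2, List.forall_mem_singleton.2 (sg_frH.2 c.2.1)⟩⟩)
      ?_ ?_ ?_ h)
  · rintro M O ⟨⟨A, D⟩, A', D', Es⟩ - hy h'
    exact ⟨Pass.cor_red hG hb hbn hs O hy.1 h'.1.2.2.1.pos,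
      ⟨ss_red O hy.2.1.1, ss_red O hy.2.1.2⟩, s3_red O hy.2.2⟩
  · rintro L _ ⟨A, D, Es⟩ ⟨⟨a1, a2, a3, a4⟩, q1, q2, q3⟩
    obtain ⟨D', Es', rfl, b1, b2, b3⟩ := path_cons.1 a4
    obtain ⟨A', c1, c2, c3⟩ := pass_exists_left (hG.gm L) hb hbn hs a1 a2 b2 a3 b1
    obtain ⟨q4, q5⟩ := List.forall_mem_cons.1 q3
    exact ⟨((A, D), A', D', Es'), ⟨⟨⟨a1, a2, a3⟩, ⟨c1, b2, c3⟩, c2, b1, b3⟩, ⟨q1, q2⟩,
      sg_rel (hQ.gm L) c1 b2 hb hbn c3 (Pass.adj_one hb hs c2 ▸ sg_fl a1 q1 1) q4, q4, q5⟩, rfl⟩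
  · rintro L ⟨⟨A, D⟩, A', D', Es⟩ ⟨⟨A₂, D₂⟩, A₂', D₂', Es₂⟩ ⟨⟨⟨a1, a2, a3⟩, -, -, a8, a9⟩, -⟩
      ⟨⟨⟨-, b2, b3⟩, -, -, b8, b9⟩, -⟩ e
    obtain rfl : A' = A₂' := congrArg Prod.fst e
    obtain rfl : D' = D₂' := congrArg (fun y => y.2.1) e
    obtain rfl : Es = Es₂ := List.append_cancel_right (congrArg (fun y => y.2.2) e)
    obtain rfl : A = A₂ := fmap_inj _ (a9.unique b9)
    obtain rfl : D = D₂ := pass_unique (hG.gm L) hb hbn hs a1 a2 b2 a3 b3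
      fun i hi => (a8 i hi).trans (b8 i hi).symm
    rfl
  · rintro M O ⟨⟨A, D⟩, A', D', Es⟩ - hy h'
    refine ⟨Pass.cor_red hG hb hbn hs O hy.1 ?_,
      ⟨ss_red O hy.2.1.1, ss_red O hy.2.1.2⟩, s3_red O hy.2.2⟩
    rw [Pass.adj_one (A := A) (A' := A') hb hs hy.1.2.2.1]
    exact Pass.adj_pos hs (Pass.adj_symm (Adj.red hy.1.2.2.2.1 O)) h'.1.2.2.1.pos
  · rintro L _ ⟨A', D', Es⟩ ⟨⟨a1, a2, a3, a4⟩, q1, q2, q3⟩
    obtain ⟨Es', Z, e, b1, b2, -⟩ := path_concat.1 a4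
    obtain ⟨A, rfl⟩ := fmap_surj (frH_surj (k₀ := k₀) (L := L)) Z
    have c1 := Pass.isFl_frH.1 (b1.isFl a2).1
    have c2 := (adj_fmap _).1 b2
    obtain ⟨D, d1, d2, d3⟩ := pass_exists_right (hG.gm L) hb hbn hs c1 a1 a2 a3 c2
    have q4 : ∀ X ∈ Es', Sg (gm B L) (X n) := fun X hX =>
      q3 X (e.symm ▸ List.mem_append_left _ hX)
    have q5 : Sg (gm B L) (A n) := sg_frH.1 (sg_path b1 q2 q4)
    have q6 : Sg (gm B L) (D n) := sg_rel' (hQ.gm L) c1 d1 hb hbn d3 q5 (by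
      rw [d2 b (by rcases hs with h | h <;> omega)]
      exact sg_fl a2 q2 b)
    exact ⟨((A, D), A', D', Es'), ⟨⟨⟨c1, d1, d3⟩, ⟨a1, a2, a3⟩, c2, d2, b1⟩, ⟨q5, q6⟩, q1, q2, q4⟩,
      Prod.ext rfl (Prod.ext rfl e.symm)⟩

section Abs

open Abs

variable {s b b' : ℕ} {τ τ' : Bool} {u : List ℕ}

omit [Base K] [Fintype k₀] in
lemma sg_c (hQ : QF G B) (hp : Pair n s τ b τ' b') {L : Fld K} {A C D : Flg L ι}
    (hA : IsFl (gm G L) n A) (hC : IsFl (gm G L) n C) (hD : IsFl (gm G L) n D)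
    (h0 : R0 (gm G L) n s τ τ' A D) (ha : Adj s C D) (hc : Cc (gm G L) τ (A 1) (C s))
    (q1 : Sg (gm B L) (A n)) (q2 : Sg (gm B L) (D n)) : Sg (gm B L) (C n) := by
  obtain ⟨h1, ⟨hs, -⟩ | ⟨rfl, rfl, -, rfl, -⟩ | ⟨hs, -⟩⟩ := hp
  · exact (ha n hs.ne').symm ▸ q2
  · have e := ha (s - 1) (by omega)
    refine (hQ.gm L).sup' hC.iso (Abs.eq_sup h1 le_rfl hC (hA.rank 1 h1) (e.symm ▸ h0.pos) hc).symm
      (e.symm ▸ sg_fl hD q2 _) (sg_fl hA q1 1)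
  · exact (ha n hs.ne').symm ▸ q2

theorem ck_b0Q (hG : EForm G) (hn : n = Fintype.card ι / 2) (hp : Pair n s τ b τ' b')
    (h : CK (YQ K G B n τ b u)) (h' : CK (YQ K G B n τ' b' u)) :
    CK ((B0 K G n s τ τ' u).inter (S3 K B n)) := by
  refine CK.of_closed (Z := CS K G s τ) (fun O y _ _ hc _ => cc_red (gm_red G O) hc)
    (h.congr fun L y => ?_) (h'.congr fun L y => ?_)
  · exact ⟨fun ⟨⟨a, d, r, q⟩, t⟩ =>
        ⟨⟨⟨a, d, ((rel_lo hp a d).1 r).1, q⟩, t⟩, ((rel_lo hp a d).1 r).2⟩,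
      fun ⟨⟨⟨a, d, r, q⟩, t⟩, c⟩ => ⟨⟨a, d, (rel_lo hp a d).2 ⟨r, c⟩, q⟩, t⟩⟩
  · exact ⟨fun ⟨⟨a, d, r, q⟩, t⟩ => ⟨⟨⟨a, d, ((rel_hi (hG.gm L) hn hp a d).1 r).1, q⟩, t⟩,
        ((rel_hi (hG.gm L) hn hp a d).1 r).2⟩,
      fun ⟨⟨⟨a, d, r, q⟩, t⟩, c⟩ => ⟨⟨a, d, (rel_hi (hG.gm L) hn hp a d).2 ⟨r, c⟩, q⟩, t⟩⟩

theorem ck_loQ (hQ : QF G B) (hp : Pair n s τ b τ' b')
    (h : CK ((B0 K G n s τ τ' u).inter (S3 K B n))) : CK (YQ K G B n τ b (s :: u)) := by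
  refine CK.of_bij (res (drop hp) _ _ ?_) ?_ ?_ ?_ h
  · rintro L ⟨A, D, Es⟩ ⟨-, -, -, hq⟩ ⟨q1, -, q3⟩
    obtain ⟨D', Es', rfl, -⟩ := path_cons.1 hq
    exact ⟨q1, List.forall_mem_cons.1 q3⟩
  · rintro L ⟨A, D, Es⟩ ⟨A₁, D₁, Es₁⟩ ⟨⟨hA, hD, hr, hq⟩, -⟩ ⟨⟨-, hD₁, hr₁, hq₁⟩, -⟩ e
    obtain ⟨D', Es', rfl, ha, -⟩ := path_cons.1 hq
    obtain ⟨D₁', Es₁', rfl, ha₁, -⟩ := path_cons.1 hq₁
    obtain rfl : A = A₁ := congrArg Prod.fst e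
    obtain rfl : D' = D₁' := congrArg (fun y => y.2.1) e
    obtain rfl : Es' = Es₁' := congrArg (fun y => y.2.2) e
    obtain ⟨h0, hc⟩ := (rel_lo hp hA hD).1 hr
    obtain rfl : D = D₁ := unique_c hp hA hD hD₁ h0 (adj_trans ha (adj_symm ha₁)) hc
      ((rel_lo hp hA hD₁).1 hr₁).2
    rfl
  · rintro M O ⟨A, D, Es⟩ - ⟨⟨hA, hD, hr, hq⟩, t⟩ hz
    refine ⟨?_, s3_red O t⟩
    obtain ⟨D', Es', rfl, ha, -⟩ := path_cons.1 hq
    obtain ⟨rA, rD', r0, rq⟩ := hz.1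
    have rD := (gm_red G O).isFl hD
    exact ⟨rA, rD, (rel_lo hp rA rD).2 ⟨R0.adj hp.1 r0 (adj_symm (ha.red O)),
      cc_red (gm_red G O) ((rel_lo hp hA hD).1 hr).2⟩,
      path_cons.2 ⟨_, _, rfl, ha.red O, rD', rq⟩⟩
  · rintro L _ ⟨A, D', Es⟩ ⟨⟨hA, hD', h0, hq⟩, q1, q2, q3⟩
    obtain ⟨D, hD, ha, hc⟩ := exists_c hp hA hD' h0
    exact ⟨(A, D, D' :: Es), ⟨⟨hA, hD, (rel_lo hp hA hD).2 ⟨h0.adj hp.1 (adj_symm ha), hc⟩,
      path_cons.2 ⟨_, _, rfl, ha, hD', hq⟩⟩, q1, sg_c hQ hp hA hD hD' h0 ha hc q1 q2,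
      List.forall_mem_cons.2 ⟨q2, q3⟩⟩, rfl⟩

variable (K) in
/-- The second flag. -/
noncomputable def sndQ (G B : Matrix ι ι k₀) (n : ℕ) (τ : Bool) (b : ℕ) (u : List ℕ) :
    Mor (YQ K G B n τ b u) (FlS K G n) where
  f y := y.2.1
  mem _ h := h.1.2.1
  nat _ _ _ := rfl
  cont _ _ _ _ _ := rfl

theorem ck_hiQ (hQ : QF G B) (hn : n = Fintype.card ι / 2)
    (hp : Pair n s τ b τ' b') (h : CK (YQ K G B n τ b (s :: u))) :
    CK (YQ K G B n τ' b' (s :: u)) := by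
  have hG := hQ.e
  refine CK.image
    (W := (FPen (sndQ K G B n τ b (s :: u)) s).inter ((Sp.univ _).prod (SF K B n)))
    ⟨fun y => (y.1.1, (y.2, y.1.2.2)), ?_, fun _ _ _ => rfl, fun _ _ _ _ _ => rfl⟩
    ?_ ?_ (ck_fpenQ hQ hn (sndQ K G B n τ b (s :: u)) (fun _ _ h => h.2.2.1) (pair_le hp).1
      (pair_le hp).2 h)
  · rintro L y ⟨⟨⟨a, q1, -, q3⟩, c⟩, -, q2⟩
    exact ⟨(swap hG hn hp).mem y ⟨a, c⟩, q1, q2, q3⟩
  · rintro M O ⟨⟨A, C, Es⟩, D⟩ - ⟨⟨⟨⟨hA, hC, hr, hq⟩, t⟩, hD, ha, -⟩, -⟩ ⟨⟨rA, rD, rr, rq⟩, t'⟩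
    obtain ⟨D', Es', rfl, ha', -⟩ := path_cons.1 hq
    obtain ⟨E', Fs', e, -, rE', rq'⟩ := path_cons.1 rq
    obtain ⟨rfl, rfl⟩ := List.cons.inj e
    obtain ⟨r0, rc⟩ := (rel_hi (hG.gm O.res) hn hp rA rD).1 rr
    have rC := (gm_red G O).isFl hC
    have rc' := cc_red (gm_red G O) ((rel_lo hp hA hC).1 hr).2
    refine ⟨⟨⟨⟨rA, rC, (rel_lo hp rA rC).2 ⟨R0.adj hp.1 r0 (adj_symm (Adj.red ha O)), rc'⟩,
      path_cons.2 ⟨_, _, rfl, ha'.red O, rE', rq'⟩⟩, s3_red O t⟩, rD, Adj.red ha O,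
      fun e => rc ?_⟩, trivial, t'.2.1⟩
    exact (congrArg (Cc (gm G O.res) τ _) e).symm ▸ rc'
  · rintro L _ ⟨A, D, Es⟩ ⟨⟨hA, hD, hr, hq⟩, q1, q2, q3⟩
    obtain ⟨D', Es', rfl, ha, hD', hq'⟩ := path_cons.1 hq
    obtain ⟨h0, hc⟩ := (rel_hi (hG.gm L) hn hp hA hD).1 hr
    obtain ⟨C, hC, ha', hc'⟩ := exists_c hp hA hD h0
    refine ⟨((A, C, D' :: Es'), D), ⟨⟨⟨⟨hA, hC,
      (rel_lo hp hA hC).2 ⟨h0.adj hp.1 (adj_symm ha'), hc'⟩,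
      path_cons.2 ⟨_, _, rfl, adj_trans ha' ha, hD', hq'⟩⟩, q1,
      sg_c hQ hp hA hC hD h0 ha' hc' q1 q2, q3⟩, hD, ha', fun e => hc ?_⟩, trivial, q2⟩, rfl⟩
    exact (congrArg (Cc (gm G L) τ _) e).symm ▸ hc'

theorem ck_absorbQ (hQ : QF G B) (hn : n = Fintype.card ι / 2) (hp : Pair n s τ b τ' b')
    (h : CK (YQ K G B n τ b u)) (h' : CK (YQ K G B n τ' b' u)) :
    CK (YQ K G B n τ b (s :: u)) ∧ CK (YQ K G B n τ' b' (s :: u)) := by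
  have h1 := ck_loQ hQ hp (ck_b0Q hQ.e hn hp h h')
  exact ⟨h1, ck_hiQ hQ hn hp h1⟩

end Abs

section Term

open Term

omit [Base K] in
lemma sg_up {ι₂ : Type} [Fintype ι₂] {G₂ B₂ : Matrix ι₂ ι₂ k₀} (hG : EForm (dsum G G₂))
    {n₂ b : ℕ} (hn : n = n₂ + b) {τ : Bool} {L : Fld K} {ℓ : Submodule L (ι → L)}
    {Λ : Submodule L (ι ⊕ ι₂ → L)} (h : IsT (gm G L) (gm G₂ L) (frH k₀ L) τ b ℓ Λ)
    (hΛ : Sg (gm (dsum B B₂) L) Λ) {E : Flg L ι₂} (hE : IsFl (gm G₂ L) n₂ E) :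
    (Sg (gm B L) (upA k₀ n b ℓ Λ E n) ↔ Sg (gm B₂ L) (E n₂)) ∧
      (Sg (gm B L) (upF k₀ n b ℓ Λ E n) ↔ Sg (gm B₂ L) (E n₂)) := by
  have h1 := ch_of_isT (form hG L) h
  have h2 := ch_frob (form hG L) (gm_frH G L) (gm_frH G₂ L) h
  have h3 := sg_frH.2 hΛ
  rw [gm_dsum] at hΛ h3
  rw [upA, upF, h1.up_hi hE (by omega) le_rfl, h2.up_hi hE (by omega) le_rfl,
    show n - b = n₂ by omega]
  exact ⟨⟨sg_of_trf h1.form h1.good hΛ, sg_trf hΛ⟩, sg_of_trf h2.form h2.good h3, sg_trf h3⟩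

theorem ck_terminalQ (hQ : QF G B) (hn : n = Fintype.card ι / 2)
    (ih : ∀ m < Fintype.card ι, ∀ G₂ B₂ : Matrix (Fin m) (Fin m) k₀, QF G₂ B₂ →
      ∀ u : List ℕ, (∀ s ∈ u, 1 ≤ s ∧ s ≤ m / 2) → CK (XQ K G₂ B₂ (m / 2) u))
    (τ : Bool) {b : ℕ} (hb : 1 ≤ b) (hbn : b ≤ n) {u : List ℕ} (hu : ∀ s ∈ u, b < s ∧ s ≤ n) :
    CK (YQ K G B n τ b u) := by
  have hG := hQ.e
  have hu' : ∀ s ∈ u, b < s := fun s hs => (hu s hs).1
  refine CK.family (α := {p : Σ m : ℕ, Matrix (Fin m) (Fin m) k₀ × Matrix (Fin m) (Fin m) k₀ //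
      QF (dsum G p.2.1) (dsum B p.2.2) ∧ Fintype.card ι = p.1 + 2 * b})
    (fun a => res (mor a.2.1.e τ hb (n₂ := a.1.1 / 2) (by have := a.2.2; omega) hu')
      (((Sp.univ _).prod (SS K (dsum B a.1.2.2))).prod
        ((SF K a.1.2.2 (a.1.1 / 2)).prod (lst (SF K a.1.2.2 (a.1.1 / 2))))) _ ?_)
    (fun a M O y hO hy hz => ⟨mor_proper a.2.1.e τ hb (by have := a.2.2; omega) hu' O y hO hy.1 hz.1, ⟨trivial, ss_red O hy.2.1.2⟩,
      ss_red O hy.2.2.1, lst_red O hy.2.2.2⟩) ?_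
    fun a => ((ck_tsQ a.2.1 τ hb).prod
      (ih _ (by have := a.2.2; omega) _ _ a.2.1.right _ fun s hs => ?_)).congr
        fun _ _ => and_and_and_comm
  · rintro L ⟨⟨ℓ, Λ⟩, E, Es⟩ ⟨h, hE, hp⟩ ⟨⟨-, q1⟩, q2, q3⟩
    have hn' : n = a.1.1 / 2 + b := by have := a.2.2; omega
    exact ⟨(sg_up a.2.1.e hn' h q1 hE).1.2 q2, (sg_up a.2.1.e hn' h q1 hE).2.2 q2,
      List.forall_mem_map.2 fun X hX => (sg_up a.2.1.e hn' h q1 ((hp.isFl hE).2 X hX)).2.2 (q3 X hX)⟩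
  · rintro L _ ⟨A, D, Es⟩ ⟨⟨hA, hD, hr, hp⟩, q1, q2, q3⟩
    obtain ⟨h1, h2, h3⟩ := lower hb hbn hu' hA hD hr hp
    obtain ⟨m, G₂, Λ, h₂, h⟩ := exists_isT hG hb (hA.rank 1 (by omega))
      (h1 b le_rfl ▸ hA.rank b hbn) (h1 b le_rfl ▸ hA.le_perp b b) h3
    have hm : Fintype.card ι = m + 2 * b := by simpa using h.good.2.2
    have hn' : n = m / 2 + b := by omega
    have q4 : Sg (gm B L) (trf Λ ⊥) := by
      rw [← h.asp, ← h1 b le_rfl]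
      exact sg_fl hA q1 b
    obtain ⟨B₂, f1, f2, f3⟩ := exists_B2 (hQ.gm L) (form h₂ L) h.good q4
      (fun x => x ∈ Set.range (rat k₀ L)) ⟨0, map_zero _⟩ (fun i j => ⟨_, rfl⟩) fun j v hv =>
        frH_eq_iff.1 (q_fixed (hQ.gm L) (form h₂ L) (gm_frH G L) (gm_frH G₂ L) (gm_frH B L) h q4
          j v hv)
    choose B₀ hB₀ using f3
    obtain rfl : gm (Matrix.of B₀) L = B₂ := Matrix.ext hB₀
    rw [← gm_dsum] at f2
    rw [← gm_dsum, ← gm_dsum] at f1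
    have f4 : QF (dsum G G₂) (dsum B (Matrix.of B₀)) := f1.of_map (rat k₀ L)
    have hc := ch_frob (form h₂ L) (gm_frH G L) (gm_frH G₂ L) h
    obtain ⟨E, hE, eA⟩ := (ch_of_isT (form h₂ L) h).exists_down hn' hA h1
    obtain ⟨E', hE', eD⟩ := hc.exists_down hn' hD h2
    obtain rfl := eq_of_rel (form h₂ L) (gm_frH G L) (gm_frH G₂ L) hb hn' h hE hE'
      (eA.symm ▸ eD.symm ▸ hr)
    have hF : IsFl (gm G₂ L) (m / 2) (fmap (frH k₀ L) E') := by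
      have := (isFl_fmap (frH k₀ L)).2 hE
      rwa [gm_frH] at this
    obtain ⟨Es₂, hp₂, eE⟩ := hc.path_down hn' hu' hE hF (Es := Es) (by
      rw [← fmap_up, eA, eD]; exact hp)
    refine ⟨⟨⟨m, G₂, Matrix.of B₀⟩, f4, hm⟩, ((_, Λ), E', Es₂), ⟨⟨h, hE, hp₂⟩, ⟨trivial, f2⟩,
      (sg_up h₂ hn' h f2 hE).1.1 ?_, fun X hX => (sg_up h₂ hn' h f2 ((hp₂.isFl hE).2 X hX)).2.1
        (q3 _ (eE ▸ List.mem_map_of_mem hX))⟩, Prod.ext eA (Prod.ext eD eE)⟩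
    rw [upA, eA]
    exact q1
  · obtain ⟨t, ht, rfl⟩ := List.mem_map.1 hs
    have := hu t ht
    have := a.2.2
    omega

end Term

lemma ck_rotQ (hQ : QF G B) {τ : Bool} {b : ℕ} (hb : 1 ≤ b) (hbn : b ≤ n) (u₁ : List ℕ)
    (h₁ : ∀ s ∈ u₁, b < s ∧ s ≤ n) (v : List ℕ) (h : CK (YQ K G B n τ b (v ++ u₁))) :
    CK (YQ K G B n τ b (u₁ ++ v)) := by
  induction u₁ generalizing v with
  | nil => simpa using h
  | cons a u ih =>
    have ha := h₁ a (by simp)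
    refine ck_passQ (s' := a) hQ hb hbn (Or.inr ⟨ha.1, ha.2, rfl⟩) ?_
    show CK (YQ K G B n τ b ((u ++ v) ++ [a]))
    rw [List.append_assoc]
    exact ih (fun s hs => h₁ s (by simp [hs])) _ (by simpa using h)

lemma ck_ysQ (hG : QF G B) (hn : n = Fintype.card ι / 2)
    (ih : ∀ m < Fintype.card ι, ∀ G₂ B₂ : Matrix (Fin m) (Fin m) k₀, QF G₂ B₂ →
      ∀ u : List ℕ, (∀ s ∈ u, 1 ≤ s ∧ s ≤ m / 2) → CK (XQ K G₂ B₂ (m / 2) u))
    (u : List ℕ) (hu : ∀ s ∈ u, 1 ≤ s ∧ s ≤ n) (τ : Bool) (b : ℕ) (hb : 1 ≤ b) (hbn : b ≤ n) :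
    CK (YQ K G B n τ b u) := by
  induction hl : u.length using Nat.strong_induction_on generalizing u τ b with
  | _ len ih₁ =>
  induction hw : (u.map fun s => b - s).sum using Nat.strong_induction_on generalizing u with
  | _ wt ih₂ =>
  rcases exists_split b u with h | ⟨u₁, s, u₂, rfl, h₁, hs⟩
  · exact ck_terminalQ hG hn ih τ hb hbn fun s hs => ⟨h s hs, (hu s hs).2⟩
  refine ck_rotQ hG hb hbn u₁ (fun a ha => ⟨h₁ a ha, (hu a (by simp [ha])).2⟩) _ ?_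
  have hs1 := (hu s (by simp)).1
  have hr : ∀ a ∈ u₂ ++ u₁, 1 ≤ a ∧ a ≤ n := fun a ha => hu a (by
    simp only [List.mem_append, List.mem_cons] at ha ⊢; tauto)
  have key : ∀ τ' b', 1 ≤ b' → b' ≤ n → CK (YQ K G B n τ' b' (u₂ ++ u₁)) := fun τ' b' =>
    ih₁ _ (by rw [← hl]; simp; omega) _ hr τ' b' (hl := rfl)
  show CK (YQ K G B n τ b (s :: (u₂ ++ u₁)))
  by_cases h2 : s + 2 ≤ b
  · refine ck_passQ (s' := s + 1) hG hb hbn (Or.inl ⟨hs1, h2, rfl⟩) (ih₂ _ ?_ _ ?_ ?_ rfl)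
    · rw [← hw]; simp; omega
    · intro a ha
      rcases List.mem_append.1 ha with ha | ha
      · exact hr a ha
      · rw [List.mem_singleton.1 ha]; omega
    · rw [← hl]; simp; omega
  rcases (by omega : s = b ∨ s + 1 = b) with rfl | rfl
  · rcases hbn.lt_or_eq with h3 | h3
    · cases τ
      · exact (ck_absorbQ hG hn ⟨hs1, Or.inr (Or.inr ⟨h3, rfl, rfl, rfl, rfl⟩)⟩
          (key _ _ (by omega) h3) (key _ _ hb hbn)).2
      · exact (ck_absorbQ hG hn ⟨hs1, Or.inl ⟨h3, rfl, rfl, rfl, rfl⟩⟩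
          (key _ _ hb hbn) (key _ _ (by omega) h3)).1
    · have := ck_absorbQ (K := K) hG hn ⟨hs1, Or.inr (Or.inl ⟨h3, rfl, h3, rfl, h3⟩)⟩
        (key _ _ hb hbn) (key _ _ hb hbn)
      cases τ
      · exact this.2
      · exact this.1
  · cases τ
    · exact (ck_absorbQ hG hn ⟨hs1, Or.inr (Or.inr ⟨hbn, rfl, rfl, rfl, rfl⟩)⟩
        (key _ _ hb hbn) (key _ _ hs1 (by omega))).1
    · exact (ck_absorbQ hG hn ⟨hs1, Or.inl ⟨hbn, rfl, rfl, rfl, rfl⟩⟩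
        (key _ _ hs1 (by omega)) (key _ _ hb hbn)).2

theorem ck_xq {ι : Type} [Fintype ι] {G B : Matrix ι ι k₀} (hG : QF G B) {n : ℕ}
    (hn : n = Fintype.card ι / 2) {u : List ℕ} (hu : ∀ s ∈ u, 1 ≤ s ∧ s ≤ n) :
    CK (XQ K G B n u) := by
  induction hc : Fintype.card ι using Nat.strong_induction_on generalizing ι n u with
  | _ N ih =>
  rcases Nat.eq_zero_or_pos n with h0 | h0
  · obtain rfl : u = [] := List.eq_nil_iff_forall_not_mem.2 fun s hs => by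
      have := hu s hs; omega
    refine CK.of_const fun L _ y hy =>
      ⟨((0 : Flg K ι), []), Prod.ext ?_ (path_nil.1 hy.1.2).1.symm⟩
    refine Finsupp.ext fun i => (smap_bot _).trans ?_
    rcases Nat.eq_zero_or_pos i with rfl | hi
    · exact hy.1.1.zero.symm
    · exact (hy.1.1.out i (by omega)).symm
  refine CK.image (W := YQ K G B n true 1 u) ⟨fun y => (y.1, y.2.2),
    fun y hy => ⟨⟨hy.1.1, ?_⟩, hy.2.1, hy.2.2.2⟩, fun _ _ _ => rfl, fun _ _ _ _ _ => rfl⟩ ?_ ?_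
    (ck_ysQ hG hn (fun m hm G₂ B₂ h₂ u hu => ih m (hc ▸ hm) h₂ (by simp) hu (by simp)) u hu true 1
      le_rfl h0)
  · have := hy.1.2.2.2
    rwa [eq_of_rel_one hy.1.1 hy.1.2.1 hy.1.2.2.1] at this
  · rintro M O ⟨A, D, Es⟩ _ hy hz
    obtain rfl : D = A := eq_of_rel_one hy.1.1 hy.1.2.1 hy.1.2.2.1
    exact ⟨⟨hz.1.1, hz.1.1, rel_self h0 hz.1.1, hz.1.2⟩, hz.2.1, hz.2.1, hz.2.2⟩
  · rintro L _ ⟨A, Es⟩ hz
    exact ⟨(A, A, Es), ⟨⟨hz.1.1, hz.1.1, rel_self h0 hz.1.1, hz.1.2⟩, hz.2.1, hz.2.1, hz.2.2⟩, rfl⟩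

end Pool.Agent.Lib.MP_557161_ag.DL.D2
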