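import Pool.Agent.Lib.MP_557161_ag.DL.ModelB
import Pool.Agent.Lib.MP_557161_ag.DL.ModelD

/-!
Lifting chains of singular flags along square zero extensions, in any characteristic.
-/

namespace Pool.Agent.Lib.MP_557161_ag.DL.D2

open Matrix Model ModelD

variable {R R' : Type} [CommRing R] [CommRing R'] {ι α β γ : Type} {f : R →+* R'}

/-- An alternating matrix with no quadratic form or with a quadratic refinement. -/
structure RF (G B : Matrix ι ι R) : Prop where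
  alt : Gᵀ = -G
  diag : ∀ i, G i i = 0
  pol : B = 0 ∨ G = B + Bᵀ

lemma RF.map {G B : Matrix ι ι R} (h : RF G B) (f : R →+* R') : RF (G.map f) (B.map f) := by
  refine ⟨?_, fun i => ?_, h.pol.imp (fun e => ?_) fun e => ?_⟩
  · rw [← transpose_map, h.alt, Matrix.map_neg _ (map_neg _)]
  · rw [map_apply, h.diag, map_zero]
  · rw [e, Matrix.map_zero _ (map_zero f)]
  · rw [e, Matrix.map_add _ (map_add f), transpose_map]

lemma alt_conj [Fintype β] {M : Matrix β β R} (ha : Mᵀ = -M) (hd : ∀ i, M i i = 0)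
    (C : Matrix α β R) (a : α) : (C * M * Cᵀ) a a = 0 := by
  classical
  have key : ∀ s : Finset β, ∑ j ∈ s, ∑ i ∈ s, C a i * M i j * C a j = 0 := fun s => by
    induction s using Finset.induction_on with
    | empty => simp
    | insert b s hs ih =>
      simp only [Finset.sum_insert hs, Finset.sum_add_distrib, ih, hd, zero_mul, mul_zero, zero_add,
        add_zero]
      rw [← Finset.sum_add_distrib]
      refine Finset.sum_eq_zero fun i _ => ?_
      have : M i b = -M b i := congrFun (congrFun ha b) i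
      rw [this]
      ring
  simpa only [Matrix.mul_apply, transpose_apply, Finset.sum_mul] using key Finset.univ

variable [Fintype ι]

/-- The quadratic form vanishes on the rows. -/
def SgM (B : Matrix ι ι R) (X : Matrix α ι R) : Prop := ∀ a, (X * B * Xᵀ) a a = 0

lemma SgM.map {B : Matrix ι ι R} {X : Matrix α ι R} (h : SgM B X) (f : R →+* R') :
    SgM (B.map f) (X.map f) := fun a => by
  rw [← transpose_map, ← Matrix.map_mul, ← Matrix.map_mul, map_apply, h a, map_zero]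

lemma pol_conj (B : Matrix ι ι R) (X : Matrix α ι R) :
    X * (B + Bᵀ) * Xᵀ = X * B * Xᵀ + (X * B * Xᵀ)ᵀ := by
  simp only [Matrix.mul_add, Matrix.add_mul, transpose_mul, transpose_transpose, Matrix.mul_assoc]

lemma SgM.sub [Fintype β] {G B : Matrix ι ι R} (hp : B = 0 ∨ G = B + Bᵀ) {A : Matrix α ι R}
    {X : Matrix β ι R} (h : Sub A X) (hi : X * G * Xᵀ = 0) (hs : SgM B X) : SgM B A := fun a => by
  rcases hp with rfl | rfl
  · simp
  obtain ⟨C, rfl⟩ := h
  rw [pol_conj] at hi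
  have := alt_conj (eq_neg_of_add_eq_zero_right hi) hs C a
  simpa only [transpose_mul, Matrix.mul_assoc] using this

/-- At every point with values in a field, the radical has no nonzero singular vector. -/
def Dual (G B : Matrix ι ι R) : Prop :=
  ∀ (F : Type) [Field F] (g : R →+* F) (v : ι → F),
    G.map g *ᵥ v = 0 → v ⬝ᵥ B.map g *ᵥ v = 0 → v = 0

lemma Dual.map {G B : Matrix ι ι R} (h : Dual G B) (f : R →+* R') : Dual (G.map f) (B.map f) :=
  fun F _ g v => h F (g.comp f) v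

lemma sqz_field (h : SqZ f) {F : Type} [Field F] (g : R →+* F) {a : R} (ha : f a = 0) :
    g a = 0 := mul_self_eq_zero.1 (by rw [← map_mul, h.sq a a ha ha, map_zero])

lemma exists_dual [DecidableEq ι] {m : ℕ} {G B : Matrix ι ι R} (hG : RF G B) (hd : Dual G B)
    {X : Matrix (Fin m) ι R} {t : Fin m → ι} (hX : cols X t = 1)
    (h : ∀ (F : Type) [Field F] (g : R →+* F),
      (X * G * Xᵀ).map g = 0 ∧ ∀ a, g ((X * B * Xᵀ) a a) = 0) :
    ∃ T : Matrix (Fin m) ι R, T * G * Xᵀ = 1 := by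
  have key : Ideal.span (Set.range fun s : Fin m → ι => (cols (X * G) s).det) = ⊤ := by
    by_contra hne
    obtain ⟨J, hJ, hle⟩ := Ideal.exists_le_maximal _ hne
    let := Ideal.Quotient.field J
    obtain ⟨g, hg⟩ : ∃ g : R →+* R ⧸ J, g = Ideal.Quotient.mk J := ⟨_, rfl⟩
    obtain ⟨h1, h2⟩ := h _ g
    rw [Matrix.map_mul, Matrix.map_mul, transpose_map] at h1
    have h3 : SgM (B.map g) (X.map g) := fun a => by
      rw [← transpose_map, ← Matrix.map_mul, ← Matrix.map_mul, map_apply, h2]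
    obtain ⟨s, hs⟩ := exists_minor (A := (X * G).map g) (by
      rw [finrank_span_eq_card, Fintype.card_fin]
      refine Fintype.linearIndependent_iff.2 fun c hc => ?_
      have c1 : c ᵥ* (X * G).map g = 0 := by
        rw [← hc, vecMul_eq_sum]
        rfl
      have c2 : G.map g *ᵥ (c ᵥ* X.map g) = 0 := by
        rw [Matrix.map_mul, ← vecMul_vecMul, ← mulVec_transpose, (hG.map g).alt, neg_mulVec,
          neg_eq_zero] at c1
        exact c1
      have c3 := SgM.sub (A := Matrix.of (fun _ : Unit => c) * X.map g) (hG.map g).pol ⟨_, rfl⟩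
        h1 h3 ()
      rw [Matrix.mul_assoc] at c3
      have c4 := hd _ g _ c2 c3
      intro j
      have c5 : (c ᵥ* cols (X.map g) t) j = 0 := congrFun c4 (t j)
      rwa [cols_map, hX, map_one', vecMul_one] at c5)
    refine hs ?_
    rw [cols_map, ← RingHom.mapMatrix_apply, ← RingHom.map_det, hg, Ideal.Quotient.eq_zero_iff_mem]
    exact hle (Ideal.subset_span ⟨s, rfl⟩)
  obtain ⟨c, hc⟩ := Ideal.mem_span_range_iff_exists_fun.1 ((Ideal.eq_top_iff_one _).1 key)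
  have e : X * G * ∑ s, c s • (cols (1 : Matrix ι ι R) s * adjugate (cols (X * G) s)) = 1 := by
    rw [Matrix.mul_sum]
    simp only [Matrix.mul_smul, ← Matrix.mul_assoc (X * G), ← cols_mul, Matrix.mul_one,
      mul_adjugate, smul_smul]
    rw [← Finset.sum_smul, hc, one_smul]
  refine ⟨-(∑ s, c s • (cols (1 : Matrix ι ι R) s * adjugate (cols (X * G) s)))ᵀ, ?_⟩
  have e' := congrArg transpose e
  rw [transpose_mul, transpose_mul, hG.alt, transpose_one] at e'
  rw [← e']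
  simp only [Matrix.neg_mul, Matrix.mul_neg, Matrix.mul_assoc]

lemma mid_isoQ [Fintype α] [LinearOrder α] [Fintype γ] [DecidableEq γ] (h : SqZ f)
    {G B : Matrix ι ι R} (hG : RF G B)
    {Y : Matrix γ ι R} {X : Matrix α ι R} {u : γ → ι} (hY : cols Y u = 1)
    (hT : ∃ T : Matrix α ι R, T * G * Xᵀ = 1) (hYX : Sub Y X) (iY : Y * G * Yᵀ = 0) (sY : SgM B Y)
    (iX : (X * G * Xᵀ).map f = 0) (sX : SgM (B.map f) (X.map f)) :
    ∃ X' : Matrix α ι R, X'.map f = X.map f ∧ Sub Y X' ∧ X' * G * X'ᵀ = 0 ∧ SgM B X' := by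
  obtain ⟨C, hC⟩ := hYX
  obtain ⟨Q, hQ⟩ : ∃ Q, Q = X * G * Xᵀ := ⟨_, rfl⟩
  obtain ⟨P, hP⟩ : ∃ P, P = X * B * Xᵀ := ⟨_, rfl⟩
  obtain ⟨S, hS⟩ : ∃ S, S = cols X u := ⟨_, rfl⟩
  have hCS : C * S = 1 := by rw [hS, ← cols_mul, ← hC, hY]
  have hQt : Qᵀ = -Q := by
    simp only [hQ, transpose_mul, transpose_transpose, hG.alt, Matrix.neg_mul, Matrix.mul_neg,
      Matrix.mul_assoc]
  have hQd : ∀ a, Q a a = 0 := fun a => hQ ▸ alt_conj hG.alt hG.diag X a
  have hCQ : C * Q * Cᵀ = 0 := by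
    rw [← iY, hQ, hC]
    simp only [transpose_mul, Matrix.mul_assoc]
  obtain ⟨T, hT⟩ := hT
  obtain ⟨U, hU⟩ : ∃ U : Matrix α α R, ∀ i j,
      U i j = if i < j then Q i j else if i = j then P i i else 0 := ⟨Matrix.of _, fun _ _ => rfl⟩
  have hQ0 : Q.map f = 0 := hQ ▸ iX
  have hU0 : U.map f = 0 := by
    ext i j
    rw [map_apply, hU]
    split_ifs
    · exact congrFun (congrFun hQ0 i) j
    · have := sX i
      rwa [← transpose_map, ← Matrix.map_mul, ← Matrix.map_mul, ← hP] at this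
    · exact map_zero f
  have hUQ : U - Uᵀ = Q := by
    ext i j
    rw [Matrix.sub_apply, transpose_apply, hU, hU]
    rcases lt_trichotomy i j with a | rfl | a
    · simp [a, a.not_gt, a.ne']
    · simp [hQd]
    · have : Q j i = -Q i j := congrFun (congrFun hQt i) j
      simp [a, a.not_gt, a.ne', this]
  obtain ⟨π, hπ⟩ : ∃ π, π = S * C := ⟨_, rfl⟩
  have hπQ : π * Q * πᵀ = 0 := by
    rw [hπ, transpose_mul, Matrix.mul_assoc S, Matrix.mul_assoc S, ← Matrix.mul_assoc (C * Q), hCQ]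
    simp
  obtain ⟨η, hη⟩ : ∃ η, η = -(Q * πᵀ + (1 - π) * U * (1 - π)ᵀ) := ⟨_, rfl⟩
  have hη0 : η.map f = 0 := by
    rw [hη, Matrix.map_neg _ (map_neg f), map_add', Matrix.map_mul, Matrix.map_mul, Matrix.map_mul,
      hQ0, hU0]
    simp
  have hδ : (η * T).map f = 0 := by rw [Matrix.map_mul, hη0, Matrix.zero_mul]
  have e3 : ∀ A : Matrix ι ι R, η * T * A * (η * T)ᵀ = 0 := fun A =>
    h.mul (by rw [Matrix.map_mul, hδ, Matrix.zero_mul]) (by rw [transpose_map, hδ]; rfl)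
  have e1 : η * T * G * Xᵀ = η := by
    rw [Matrix.mul_assoc η, Matrix.mul_assoc η, hT, Matrix.mul_one]
  refine ⟨X + η * T, by rw [map_add', hδ, add_zero], ⟨C, ?_⟩, ?_, fun a => ?_⟩
  · have a1 : C * (Q * πᵀ) = 0 := by
      rw [hπ, transpose_mul, ← Matrix.mul_assoc, ← Matrix.mul_assoc, hCQ, Matrix.zero_mul]
    have a2 : C * (1 - π) = 0 := by
      rw [hπ, Matrix.mul_sub, ← Matrix.mul_assoc, hCS, Matrix.mul_one, Matrix.one_mul, sub_self]
    have a3 : C * η = 0 := by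
      rw [hη, Matrix.mul_neg, Matrix.mul_add, a1, ← Matrix.mul_assoc, ← Matrix.mul_assoc, a2]
      simp
    rw [Matrix.mul_add, ← Matrix.mul_assoc, a3, Matrix.zero_mul, add_zero, hC]
  · have e2 : X * G * (η * T)ᵀ = -ηᵀ := by
      have := congrArg transpose e1
      rw [transpose_mul, transpose_mul, transpose_transpose, hG.alt, Matrix.neg_mul,
        Matrix.mul_neg] at this
      rw [← this, neg_neg, Matrix.mul_assoc]
    have e4 : (1 - π) * U * (1 - π)ᵀ - ((1 - π) * U * (1 - π)ᵀ)ᵀ = Q - π * Q - Q * πᵀ := by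
      rw [transpose_mul, transpose_mul, transpose_transpose, ← Matrix.mul_assoc, ← Matrix.sub_mul,
        ← Matrix.mul_sub, hUQ, transpose_sub, transpose_one]
      simp only [Matrix.mul_sub, Matrix.sub_mul, hπQ, Matrix.one_mul, Matrix.mul_one, sub_zero]
    rw [transpose_add, Matrix.add_mul, Matrix.add_mul, Matrix.mul_add, Matrix.mul_add, ← hQ, e1,
      e2, e3, hη, transpose_neg, transpose_add, transpose_mul Q, transpose_transpose, hQt,
      Matrix.mul_neg]
    generalize (1 - π) * U * (1 - π)ᵀ = N at e4 ⊢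
    refine Eq.trans ?_ (neg_eq_zero.2 (sub_eq_zero.2 e4))
    abel
  · rcases hG.pol with rfl | e
    · simp
    have hQP : Q = P + Pᵀ := by rw [hQ, hP, e, pol_conj]
    have b1 : (U - P)ᵀ = -(U - P) := by
      ext i j
      have c1 : Q i j = P i j + P j i := congrFun (congrFun hQP i) j
      have c2 : Q j i = P j i + P i j := congrFun (congrFun hQP j) i
      rw [transpose_apply, Matrix.neg_apply, Matrix.sub_apply, Matrix.sub_apply, hU, hU]
      rcases lt_trichotomy i j with a | rfl | a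
      · simp [a, a.not_gt, a.ne', c1]
      · simp
      · simp [a, a.not_gt, a.ne', c2]
    have b2 := alt_conj b1 (fun i => by simp [hU]) (1 - π) a
    rw [Matrix.mul_sub, Matrix.sub_mul, Matrix.sub_apply, sub_eq_zero] at b2
    have b3 : (π * P * πᵀ) a a = 0 := by
      have := SgM.sub (A := S * Y) hG.pol ⟨S, rfl⟩ iY sY a
      rw [hC] at this
      simpa only [hπ, hP, transpose_mul, Matrix.mul_assoc] using this
    have b4 : ((1 - π) * P * (1 - π)ᵀ : Matrix α α R) a a = P a a - (Q * πᵀ) a a := by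
      have c1 : (π * P) a a = (Pᵀ * πᵀ) a a := by rw [← transpose_mul]; rfl
      rw [transpose_sub, transpose_one, hQP]
      simp only [Matrix.mul_sub, Matrix.sub_mul, Matrix.add_mul, Matrix.sub_apply,
        Matrix.add_apply, Matrix.one_mul, Matrix.mul_one, b3, c1]
      ring
    have b5 : (X * B * (η * T)ᵀ) a a = (η * T * Bᵀ * Xᵀ) a a := by
      rw [← transpose_apply (X * B * (η * T)ᵀ) a a]
      simp only [transpose_mul, transpose_transpose, Matrix.mul_assoc]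
    have b6 : (η * T * B * Xᵀ) a a + (η * T * Bᵀ * Xᵀ) a a = η a a := by
      rw [← Matrix.add_apply, ← Matrix.add_mul, ← Matrix.mul_add, ← e, e1]
    have b7 : η a a = -P a a := by
      rw [hη, Matrix.neg_apply, Matrix.add_apply, b2, b4]
      ring
    rw [transpose_add, Matrix.add_mul, Matrix.add_mul, Matrix.mul_add, Matrix.mul_add, ← hP, e3]
    simp only [Matrix.add_apply, Matrix.zero_apply]
    linear_combination b5 + b6 + b7

variable {n l : ℕ}

lemma step_equivQ [Fintype β] (h : SqZ f) {G : Matrix ι ι R} {s s' : ∀ i : Fin (n + 1), Fin i → ι}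
    {Mb : Fl ι n R'} (hMb : IsFl (G.map f) s Mb) {M' : Fl ι n R} (hM' : IsFl G s' M') (i₀ : Fin n)
    (adj : ∀ i, i ≠ i₀.succ → Sub (Mb i) ((M' i).map f)) {Z : Matrix β ι R}
    (hZ : ∀ X : Matrix (Fin i₀.succ) ι R, Sub X Z ↔ ∀ i, i₀.succ < i → Sub X (M' i)) :
    ∃ e : Step f G s s' Mb M' i₀.succ ≃ Mid f G (s i₀.succ) (Mb i₀.succ) (M' i₀.castSucc) Z,
      ∀ M, (e M).1 = M.1 i₀.succ := by
  have hlt : i₀.castSucc < i₀.succ := Fin.castSucc_lt_succ
  refine ⟨Equiv.ofBijective (fun M => ⟨M.1 i₀.succ, M.2.1.2 _, M.2.1.1.norm _,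
    ((M.2.2 _ hlt.ne).sub.symm (M.2.1.1.norm _)).trans (M.2.1.1.mono _ _ hlt.le).sub,
    (hZ _).2 fun i hi => (M.2.1.1.mono _ _ hi.le).sub.trans (M.2.2 _ hi.ne').sub,
    M.2.1.1.iso _⟩) ⟨fun M N e => Subtype.ext (funext fun i => ?_), fun X => ?_⟩, fun _ => rfl⟩
  · by_cases hi : i = i₀.succ
    · subst hi
      exact congrArg Subtype.val e
    · exact ((M.2.2 i hi).sub.trans ((N.2.2 i hi).sub.symm (N.2.1.1.norm i))).eq
        (M.2.1.1.norm i) (N.2.1.1.norm i)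
  · obtain ⟨X, x1, x2, x3, x4, x5⟩ := X
    have hN : ∀ i, Sub (Mb i) ((Function.update M' i₀.succ X i).map f) := fun i => by
      by_cases hi : i = i₀.succ
      · subst hi
        rw [Function.update_self, x1]
        exact Sub.refl _
      · rw [Function.update_of_ne hi]
        exact adj i hi
    choose M m1 m2 m3 m4 using fun i => renorm h (hMb.norm i) (hN i)
    refine ⟨⟨M, ⟨IsFl.of_equiv m2 m3 m4 (fun i i' hi => ?_) fun i => ?_, m1⟩, fun i hi => ?_⟩,
      Subtype.ext ?_⟩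
    · by_cases a : i = i₀.succ
      · subst a
        rcases hi.eq_or_lt with rfl | hi
        · exact Sub.refl _
        · rw [Function.update_self, Function.update_of_ne hi.ne']
          exact (hZ X).1 x4 i' hi
      · rw [Function.update_of_ne a]
        by_cases b : i' = i₀.succ
        · subst b
          rw [Function.update_self]
          exact (hM'.mono _ _ (Fin.le_castSucc_iff.2 (lt_of_le_of_ne hi a))).sub.trans x3
        · rw [Function.update_of_ne b]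
          exact (hM'.mono _ _ hi).sub
    · by_cases a : i = i₀.succ
      · subst a
        rw [Function.update_self]
        exact x5
      · rw [Function.update_of_ne a]
        exact hM'.iso i
    · have := m3 i
      rw [Function.update_of_ne hi] at this
      exact this.inc (hM'.norm i)
    · have := m3 i₀.succ
      rw [Function.update_self] at this
      exact this.eq (m2 _) x2

lemma step_sg {G B : Matrix ι ι R} (hp : B = 0 ∨ G = B + Bᵀ) {s s' : ∀ i : Fin (n + 1), Fin i → ι}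
    {Mb : Fl ι n R'} {M' : Fl ι n R} (hM' : IsFl G s' M') (q' : ∀ i, SgM B (M' i))
    {i₀ : Fin (n + 1)} (M : Step f G s s' Mb M' i₀) (h : SgM B (M.1 i₀)) (i : Fin (n + 1)) :
    SgM B (M.1 i) := by
  by_cases hi : i = i₀
  · exact hi ▸ h
  · exact SgM.sub hp (M.2.2 i hi).sub (hM'.iso i) (q' i)

lemma step_nonemptyQ [DecidableEq ι] (h : SqZ f) {G B : Matrix ι ι R} (hG : RF G B)
    (hd : Dual G B) {s s' : ∀ i : Fin (n + 1), Fin i → ι}
    {Mb : Fl ι n R'} (hMb : IsFl (G.map f) s Mb) (qb : ∀ i, SgM (B.map f) (Mb i)) {M' : Fl ι n R}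
    (hM' : IsFl G s' M') (q' : ∀ i, SgM B (M' i)) (i₀ : Fin n)
    (adj : ∀ i, i ≠ i₀.succ → Sub (Mb i) ((M' i).map f)) :
    ∃ M : Step f G s s' Mb M' i₀.succ, ∀ i, SgM B (M.1 i) := by
  have b := below_sub hMb adj
  by_cases hi : (i₀ : ℕ) + 1 < n
  · obtain ⟨e, he⟩ := step_equivQ h hMb hM' i₀ adj (next_iff hM' hi)
    obtain ⟨X, x1, x2, x3⟩ := mid_inc h (hM'.norm _)
      (hM'.mono i₀.castSucc ⟨i₀ + 2, by omega⟩ (show (i₀ : ℕ) ≤ i₀ + 2 by omega)).sub b
      (above_sub hMb adj (show (i₀ : ℕ) + 1 < i₀ + 2 by omega))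
    obtain ⟨X', y1, y2, y3, y4⟩ := renorm h (X := X) (hMb.norm i₀.succ) (x1.symm ▸ Sub.refl _)
    refine ⟨e.symm ⟨X', y1, y2, x2.trans y4, y3.trans x3,
      (y3.trans x3).iso (y3.trans x3) (hM'.iso _)⟩, step_sg hG.pol hM' q' _ ?_⟩
    rw [← he, e.apply_symm_apply]
    exact SgM.sub hG.pol (y3.trans x3) (hM'.iso _) (q' _)
  · obtain ⟨e, he⟩ := step_equivQ h hMb hM' i₀ adj (last_iff M' hi)
    obtain ⟨X, x1, x2, -⟩ := mid_inc h (hM'.norm _) (Z := (1 : Matrix ι ι R))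
      ⟨_, (Matrix.mul_one _).symm⟩ b ⟨_, by rw [map_one', Matrix.mul_one]⟩
    obtain ⟨X', y1, y2, -, y4⟩ := renorm h (X := X) (hMb.norm i₀.succ) (x1.symm ▸ Sub.refl _)
    have i1 : (X' * G * X'ᵀ).map f = 0 := by
      rw [Matrix.map_mul, Matrix.map_mul, transpose_map, y1]
      exact hMb.iso _
    have i2 : SgM (B.map f) (X'.map f) := y1.symm ▸ qb _
    obtain ⟨X₁, z1, z2, z3, z4⟩ := mid_isoQ h hG (hM'.norm _) (exists_dual hG hd y2 fun F _ g =>
      ⟨Matrix.ext fun a c => sqz_field h g (congrFun (congrFun i1 a) c), fun a => sqz_field h g (by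
        have := i2 a
        rwa [← transpose_map, ← Matrix.map_mul, ← Matrix.map_mul] at this)⟩)
      (x2.trans y4) (hM'.iso _) (q' _) i1 i2
    obtain ⟨X₂, u1, u2, u3, u4⟩ := renorm h (X := X₁) (hMb.norm i₀.succ)
      ((z1.trans y1).symm ▸ Sub.refl _)
    refine ⟨e.symm ⟨X₂, u1, u2, z2.trans u4, ⟨_, (Matrix.mul_one _).symm⟩, u3.iso u3 z3⟩,
      step_sg hG.pol hM' q' _ ?_⟩
    rw [← he, e.apply_symm_apply]
    exact SgM.sub hG.pol u3 z3 z4

lemma last_uniqueQ (h : SqZ f) {q : ℕ} (hq : 2 ≤ q) (F : R →+* R) (hF : ∀ x, F x = x ^ q)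
    {G B : Matrix ι ι R} (hp : B = 0 ∨ G = B + Bᵀ) (hG : G.map (· ^ q) = G)
    (hB : B.map (· ^ q) = B) {w : Fin l → Fin n} {s : Idx ι n l}
    {Mb : Fin (l + 1) → Fl ι n R'} (hMb : IsPt (G.map f) q w s Mb)
    (qb : ∀ j i, SgM (B.map f) (Mb j i)) :
    ∃ a : Fl ι n R, ((IsFl G (s (Fin.last l)) a ∧ ∀ i, (a i).map f = Mb (Fin.last l) i) ∧
      ∀ i, SgM B (a i)) ∧
      ∀ M : Fin (l + 1) → Fl ι n R, (∀ j, IsFl G (s j) (M j) ∧ ∀ i, (M j i).map f = Mb j i) →
        ((∀ i, Inc (s (Fin.last l) i) ((M 0 i).map (· ^ q)) (M (Fin.last l) i)) ↔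
          M (Fin.last l) = a) := by
  obtain ⟨φ, hφ⟩ : ∃ φ : R' →+* R, ∀ x, φ (f x) = x ^ q := by
    refine ⟨f.liftOfSurjective h.surj ⟨F, fun x hx => ?_⟩, fun x => ?_⟩
    · obtain ⟨m, rfl⟩ := Nat.exists_eq_add_of_le hq
      rw [RingHom.mem_ker, hF, pow_add, pow_two, h.sq x x hx hx, zero_mul]
    · rw [RingHom.liftOfSurjective, RingHom.liftOfRightInverse_comp_apply, hF]
  have hφ' : ∀ {α β : Type} (A : Matrix α β R), (A.map f).map φ = A.map (· ^ q) :=
    fun A => Matrix.ext fun i j => hφ _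
  have h0 := (hMb.fl 0).map φ
  rw [hφ', hG] at h0
  have q0 := fun i => (qb 0 i).map φ
  rw [hφ', hB] at q0
  have h1 : ∀ i, ((Mb 0 i).map φ).map f = (Mb 0 i).map (· ^ q) := fun i => by
    obtain ⟨A, hA⟩ := h.lift (Mb 0 i)
    rw [← hA, hφ', map_pow_map]
  have h2 : ∀ i, Sub (Mb (Fin.last l) i) (((Mb 0 i).map φ).map f) := fun i => by
    refine Sub.symm (t := s 0 i) ?_ ((h0.map f).norm i)
    rw [h1]
    exact (hMb.frob i).sub
  choose a a1 a2 a3 a4 using fun i => renorm h ((hMb.fl _).norm i) (h2 i)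
  refine ⟨a, ⟨⟨IsFl.of_equiv a2 a3 a4 (fun i i' hi => (h0.mono i i' hi).sub) h0.iso, a1⟩,
    fun i => SgM.sub hp (a3 i) (h0.iso i) (q0 i)⟩, fun M hM => ?_⟩
  have h3 : ∀ i, (M 0 i).map (· ^ q) = (Mb 0 i).map φ := fun i => by rw [← (hM 0).2 i, hφ']
  simp only [h3]
  exact ⟨fun e => funext fun i => (((a3 i).trans (e i).sub).eq (a2 i) ((hM _).1.norm i)).symm,
    fun e i => by rw [e]; exact (a4 i).inc (a2 i)⟩

theorem pt_liftQ [DecidableEq ι] (h : SqZ f) {q : ℕ} (hq : 2 ≤ q)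
    (F : R →+* R) (hF : ∀ x, F x = x ^ q) {G B : Matrix ι ι R} (hG : RF G B)
    (hd : Dual G B) (hGq : G.map (· ^ q) = G) (hBq : B.map (· ^ q) = B) {w : Fin l → Fin n}
    {s : Idx ι n l} {Mb : Fin (l + 1) → Fl ι n R'} (hMb : IsPt (G.map f) q w s Mb)
    (qb : ∀ j i, SgM (B.map f) (Mb j i)) :
    ∃ M, (IsPt G q w s M ∧ ∀ j i, SgM B (M j i)) ∧ ∀ j i, (M j i).map f = Mb j i := by
  obtain ⟨a, ha, ha'⟩ := last_uniqueQ h hq F hF hG.pol hGq hBq hMb qb
  obtain ⟨M, m1, m2, m3⟩ := chain_exists l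
    (fun j M => (IsFl G (s j) M ∧ ∀ i, (M i).map f = Mb j i) ∧ ∀ i, SgM B (M i))
    (fun j M M' => ∀ i, i ≠ (w j).succ → Inc (s j.succ i) (M i) (M' i))
    (fun j M' hM' => by
      obtain ⟨M, hM⟩ := step_nonemptyQ h hG hd (hMb.fl j.castSucc) (qb _) hM'.1.1 hM'.2 (w j)
        fun i hi => by rw [hM'.1.2]; exact (hMb.adj j i hi).sub
      exact ⟨⟨M.1, ⟨M.2.1, hM⟩, M.2.2⟩⟩) a ha
  exact ⟨M, ⟨⟨fun j => (m1 j).1.1, m2, (ha' M fun j => (m1 j).1).2 m3⟩, fun j => (m1 j).2⟩,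
    fun j => (m1 j).1.2⟩

theorem pt_cardQ [Finite R] (h : SqZ f) {q : ℕ} (hq : 2 ≤ q) (F : R →+* R) (hF : ∀ x, F x = x ^ q)
    {G B : Matrix ι ι R} (hp : B = 0 ∨ G = B + Bᵀ) (hGq : G.map (· ^ q) = G)
    (hBq : B.map (· ^ q) = B) {w : Fin l → Fin n} {s : Idx ι n l}
    {Mb : Fin (l + 1) → Fl ι n R'} (hMb : IsPt (G.map f) q w s Mb)
    (qb : ∀ j i, SgM (B.map f) (Mb j i)) (c : Fin l → ℕ)
    (hc : ∀ j M', IsFl G (s j.succ) M' → (∀ i, SgM B (M' i)) → (∀ i, i ≠ (w j).succ →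
      Sub (Mb j.castSucc i) ((M' i).map f)) →
      Nat.card {M : Step f G (s j.castSucc) (s j.succ) (Mb j.castSucc) M' (w j).succ //
        ∀ i, SgM B (M.1 i)} = c j) :
    Nat.card {M // (IsPt G q w s M ∧ ∀ j i, SgM B (M j i)) ∧ ∀ j i, (M j i).map f = Mb j i} =
      ∏ j, c j := by
  obtain ⟨a, ha, ha'⟩ := last_uniqueQ h hq F hF hp hGq hBq hMb qb
  rw [← chain_card l
    (fun j M => (IsFl G (s j) M ∧ ∀ i, (M i).map f = Mb j i) ∧ ∀ i, SgM B (M i))
    (fun j M M' => ∀ i, i ≠ (w j).succ → Inc (s j.succ i) (M i) (M' i)) c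
    (fun j M' hM' => (Nat.card_congr
      ⟨fun M => ⟨⟨M.1, M.2.1.1, M.2.2⟩, M.2.1.2⟩, fun M => ⟨M.1.1, ⟨M.1.2.1, M.2⟩, M.1.2.2⟩,
        fun _ => rfl, fun _ => rfl⟩).trans (hc j M' hM'.1.1 hM'.2 fun i hi => by
      rw [hM'.1.2]; exact (hMb.adj j i hi).sub)) a ha]
  refine Nat.card_congr (Equiv.subtypeEquivRight fun M => ⟨fun hM => ?_, fun hM => ?_⟩)
  · have m1 : ∀ j, IsFl G (s j) (M j) ∧ ∀ i, (M j i).map f = Mb j i :=
      fun j => ⟨hM.1.1.fl j, hM.2 j⟩
    exact ⟨fun j => ⟨m1 j, hM.1.2 j⟩, hM.1.1.adj, (ha' M m1).1 hM.1.1.frob⟩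
  · exact ⟨⟨⟨fun j => (hM.1 j).1.1, hM.2.1, (ha' M fun j => (hM.1 j).1).2 hM.2.2⟩,
      fun j => (hM.1 j).2⟩, fun j => (hM.1 j).1.2⟩

end Pool.Agent.Lib.MP_557161_ag.DL.D2
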