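import Pool.Agent.Lib.MP_557161_ag.D2.ModA

/-!
The number of lifts of a singular flag to the dual numbers.
-/

namespace Pool.Agent.Lib.MP_557161_ag.DL.D2

open Matrix TrivSqZeroExt Module Model

variable {L : Type} [Field L] {ι α γ : Type} [Fintype ι] [DecidableEq ι]

lemma rank_lastQ [Fintype α] [DecidableEq α] {G : Matrix ι ι L} (ha : Gᵀ = -G) {W : Matrix α ι L}
    (hT : ∃ T : Matrix α ι L, T * G * Wᵀ = 1) :
    Fintype.card α + finrank L ↥(LinearMap.range (1 : Matrix ι ι L).vecMulLinear ⊓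
      LinearMap.ker (W * G).mulVecLin) = Fintype.card ι := by
  obtain ⟨T, hT⟩ := hT
  have e := congrArg transpose hT
  rw [transpose_mul, transpose_mul, ha, transpose_transpose, transpose_one] at e
  have h1 := (W * G).mulVecLin.finrank_range_add_finrank_ker
  have h2 : LinearMap.range (W * G).mulVecLin = ⊤ := LinearMap.range_eq_top.2 fun y =>
    ⟨(-Tᵀ) *ᵥ y, by
      rw [mulVecLin_apply, mulVec_mulVec, Matrix.mul_assoc, Matrix.mul_neg, ← Matrix.neg_mul, e,
        one_mulVec]⟩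
  rw [h2, finrank_top, finrank_fintype_fun_eq_card, finrank_fintype_fun_eq_card] at h1
  rw [inf_eq_right.2 fun x _ => ⟨x, vecMul_one x⟩, h1]

lemma field_dual {m : ℕ} {G B : Matrix ι ι L} (hG : RF G B) (hd : Dual G B)
    {X : Matrix (Fin m) ι L} {t : Fin m → ι} (hX : cols X t = 1) (hi : X * G * Xᵀ = 0)
    (hs : SgM B X) : ∃ T : Matrix (Fin m) ι L, T * G * Xᵀ = 1 :=
  exists_dual hG hd hX fun _ _ g =>
    ⟨by rw [hi, Matrix.map_zero _ (map_zero g)], fun a => by rw [hs a, map_zero]⟩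

lemma mid_card [Finite L] [Fintype α] [DecidableEq α] {G B : Matrix ι ι (DualNumber L)}
    (hp : G = B + Bᵀ) {t : α → ι} {Xb : Matrix α ι L} {Y : Matrix γ ι (DualNumber L)}
    {a : α → L} (ha : a ≠ 0) (hC : ∀ x, cols (Y.map (fs L)) t *ᵥ x = 0 ↔ ∃ c : L, c • a = x)
    (X₀ : Mid (fs L) G t Xb Y (1 : Matrix ι ι (DualNumber L))) (q₀ : SgM B X₀.1) {e : ℕ}
    (he : finrank L ↥(LinearMap.range (1 : Matrix ι ι L).vecMulLinear ⊓
      LinearMap.ker (Xb * G.map (fs L)).mulVecLin) = Fintype.card α + e) :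
    Nat.card {X : Mid (fs L) G t Xb Y (1 : Matrix ι ι (DualNumber L)) // SgM B X.1} =
      Nat.card L ^ e := by
  obtain ⟨X₀, x1, x2, x3, x4, x5⟩ := X₀
  have x3' : Y = cols Y t * X₀ := x3.inc x2
  obtain ⟨i₀, hi₀⟩ := Function.ne_iff.1 ha
  have hi : a i₀ ≠ 0 := hi₀
  have hp' : G.map (fs L) = B.map (fs L) + (B.map (fs L))ᵀ := by
    rw [hp, map_add', transpose_map]
  have hs : (G.map (fs L))ᵀ = G.map (fs L) := by
    rw [hp', transpose_add, transpose_transpose, add_comm]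
  have hn : cols Xb t = 1 := by rw [← x1, cols_map, x2, map_one']
  have hI : Xb * G.map (fs L) * Xbᵀ = 0 := by
    rw [← x1, ← transpose_map, ← Matrix.map_mul, ← Matrix.map_mul, x5,
      Matrix.map_zero _ (map_zero _)]
  have hd : ∀ x i, (vecMulVec a x * B.map (fs L) * Xbᵀ + Xb * B.map (fs L) * (vecMulVec a x)ᵀ) i i =
      a i * ((Xb * G.map (fs L)) *ᵥ x) i := fun x i => by
    rw [iso_vec, hp', Matrix.mul_add, add_mulVec, Pi.add_apply]
    ring
  let U := LinearMap.range (1 : Matrix ι ι L).vecMulLinear ⊓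
    LinearMap.ker (Xb * G.map (fs L)).mulVecLin
  let φ : U →ₗ[L] α → L := (LinearMap.funLeft L L t).comp U.subtype
  have h2 : LinearMap.range φ = ⊤ := LinearMap.range_eq_top.2 fun y => by
    refine ⟨⟨y ᵥ* Xb, ⟨_, vecMul_one _⟩, ?_⟩, ?_⟩
    · show (Xb * G.map (fs L)) *ᵥ (y ᵥ* Xb) = 0
      rw [← mulVec_transpose, mulVec_mulVec, hI, zero_mulVec]
    · show y ᵥ* cols Xb t = y
      rw [hn, vecMul_one]
  have h1 := φ.finrank_range_add_finrank_ker
  rw [h2, finrank_top, finrank_fintype_fun_eq_card, he, add_right_inj] at h1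
  rw [← h1, ← natCard_eq_pow_finrank (K := L) (V := LinearMap.ker φ)]
  refine (Nat.card_congr (Equiv.subtypeSubtypeEquivSubtypeInter _ (SgM B))).trans ?_
  refine card_sub (fun x : U => X₀ + ep (vecMulVec a x.1))
    (fun x hx => ⟨⟨?_, ?_, ⟨cols Y t, ?_⟩, ⟨_, (Matrix.mul_one _).symm⟩, ?_⟩, fun i => ?_⟩)
    (fun x y e => Subtype.ext (funext fun c => ?_)) ?_
  · rw [map_add', ep_map, add_zero, x1]
  · show cols X₀ t + ep (cols (vecMulVec a x.1) t) = 1
    rw [show cols (vecMulVec a x.1) t = 0 from Matrix.ext fun i j => by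
      have : x.1 (t j) = 0 := congrFun hx j
      simp [vecMulVec_apply, this], ep_zero, add_zero, x2]
  · rw [Matrix.mul_add, mul_ep, ← cols_map, mul_vecMulVec, (hC a).2 ⟨1, one_smul _ _⟩,
      zero_vecMulVec, ep_zero, add_zero, ← x3']
  · have h0 : (Xb * G.map (fs L)) *ᵥ x.1 = 0 := x.2.2
    rw [iso_ep, x5, x1, zero_add, ← ep_zero]
    congr 1
    ext i j
    rw [iso_vec, hs, h0]
    simp
  · have h0 : (Xb * G.map (fs L)) *ᵥ x.1 = 0 := x.2.2
    have h3 : (X₀ * B * X₀ᵀ) i i = 0 := q₀ i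
    rw [iso_ep, Matrix.add_apply, h3, zero_add, x1]
    show inr _ = _
    rw [hd, h0, Pi.zero_apply, mul_zero, inr_zero]
  · exact mul_left_cancel₀ hi (congrFun (congrFun (ep_inj (add_left_cancel e)) i₀) c)
  · rintro X ⟨⟨y1, y2, y3, y4, y5⟩, q⟩
    obtain ⟨δ, hδ⟩ := exists_ep (A := X - X₀) (by rw [Model.map_sub', y1, x1, sub_self])
    obtain rfl : X = X₀ + ep δ := by rw [← hδ, add_sub_cancel]
    have z1 : cols δ t = 0 := ep_inj (by
      have : cols X₀ t + ep (cols δ t) = 1 := y2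
      rwa [x2, add_eq_left, ← ep_zero] at this)
    have z2 : cols (Y.map (fs L)) t * δ = 0 := ep_inj (by
      have : Y = cols Y t * (X₀ + ep δ) := y3.inc y2
      rwa [Matrix.mul_add, ← x3', left_eq_add, mul_ep, ← ep_zero] at this)
    have z4 : δ * G.map (fs L) * Xbᵀ + Xb * G.map (fs L) * δᵀ = 0 := ep_inj (by
      rwa [iso_ep, x5, zero_add, x1, ← ep_zero] at y5)
    have z5 : ∀ i, (δ * B.map (fs L) * Xbᵀ + Xb * B.map (fs L) * δᵀ) i i = 0 := fun i => by
      have h1 : ((X₀ + ep δ) * B * (X₀ + ep δ)ᵀ) i i = 0 := q i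
      have h2 : (X₀ * B * X₀ᵀ) i i = 0 := q₀ i
      rw [iso_ep, Matrix.add_apply, h2, zero_add, x1] at h1
      exact inr_injective (h1.trans (inr_zero L).symm)
    choose x hx using fun c => (hC fun i => δ i c).1 (funext fun g => congrFun (congrFun z2 g) c)
    obtain rfl : δ = vecMulVec a x := Matrix.ext fun i c => by
      rw [vecMulVec_apply, mul_comm]; exact (congrFun (hx c) i).symm
    have h0 : ((Xb * G.map (fs L)) *ᵥ x) i₀ = 0 :=
      (mul_eq_zero.1 ((hd x i₀).symm.trans (z5 i₀))).resolve_left hi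
    have h1 : (Xb * G.map (fs L)) *ᵥ x = 0 := funext fun j => by
      have := congrFun (congrFun z4 i₀) j
      rw [iso_vec, hs, h0, zero_mul, add_zero] at this
      exact (mul_eq_zero.1 this).resolve_left hi
    exact ⟨⟨x, ⟨x, vecMul_one x⟩, h1⟩,
      funext fun j => (mul_eq_zero.1 (congrFun (congrFun z1 i₀) j)).resolve_left hi, rfl⟩

open Classical in
theorem step_cardQ [Finite L] {G B : Matrix ι ι (DualNumber L)} (hG : RF G B) (hd : Dual G B)
    {sy : Prop} (hs : sy → G = B + Bᵀ) (ha : ¬ sy → B = 0)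
    {n : ℕ} (hn : Fintype.card ι = 2 * n ∨ (sy ∧ Fintype.card ι = 2 * n + 1))
    {s s' : ∀ i : Fin (n + 1), Fin i → ι} {Mb : Fl ι n L}
    (hMb : IsFl (G.map (fs L)) s Mb) (qb : ∀ i, SgM (B.map (fs L)) (Mb i))
    {M' : Fl ι n (DualNumber L)} (hM' : IsFl G s' M') (q' : ∀ i, SgM B (M' i)) (i₀ : Fin n)
    (adj : ∀ i, i ≠ i₀.succ → Sub (Mb i) ((M' i).map (fs L))) :
    Nat.card {M : Step (fs L) G s s' Mb M' i₀.succ // ∀ i, SgM B (M.1 i)} =
      Nat.card L ^ if sy ∧ 2 * ((i₀ : ℕ) + 1) = Fintype.card ι then 0 else 1 := by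
  obtain ⟨M₀, q₀⟩ := step_nonemptyQ sqz_fs hG hd hMb qb hM' q' i₀ adj
  have b := below_sub hMb adj
  have hb := hM'.map (fs L)
  have b' := b.inc (hMb.norm _)
  unfold Inc at b'
  obtain ⟨a, a0, a1⟩ := exists_ker (C := cols ((M' i₀.castSucc).map (fs L)) (s i₀.succ))
    (S := cols (Mb i₀.succ) (s' i₀.castSucc)) (by rw [← cols_mul, ← b', hb.norm]) (by simp)
  have hi0 := i₀.2
  have ha' := (hG.map (fs L)).alt
  by_cases hi : (i₀ : ℕ) + 1 < n
  · obtain ⟨e, he⟩ := step_equivQ sqz_fs hMb hM' i₀ adj (next_iff hM' hi)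
    have c := above_sub hMb adj
      (show i₀.succ < ⟨i₀ + 2, by omega⟩ from show (i₀ : ℕ) + 1 < i₀ + 2 by omega)
    rw [Nat.card_congr (Equiv.subtypeUnivEquiv fun M => step_sg hG.pol hM' q' M
      (SgM.sub hG.pol (he M ▸ (e M).2.2.2.2.1) (hM'.iso _) (q' _))),
      Nat.card_congr e, mid_tangent (hM'.norm _) (e M₀), if_neg (by omega)]
    refine tangent_card a0 a1 (iso_anti ha' _ a0 a1) (hMb.norm _) c ?_ ?_
    · rw [← b']
      exact b.iso (Sub.refl _) (hMb.iso _)
    · rw [← b']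
      exact (rank_inner (hb.norm _) ((b.trans c).iso (Sub.refl _) (hb.iso _))).trans (by simp)
  · obtain ⟨e, he⟩ := step_equivQ sqz_fs hMb hM' i₀ adj (last_iff M' hi)
    by_cases h : sy
    · refine (Nat.card_congr (e.subtypeEquiv (q := fun X => SgM B X.1) fun M =>
        ⟨fun q => (he M).symm ▸ q _, fun q => step_sg hG.pol hM' q' M (he M ▸ q)⟩)).trans ?_
      refine mid_card (hs h) a0 a1 (e M₀) ((he M₀).symm ▸ q₀ _) ?_
      have h3 := rank_lastQ ha' (field_dual (hG.map _) (hd.map _) (hMb.norm i₀.succ) (hMb.iso _)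
        (qb _))
      simp only [Fintype.card_fin, Fin.val_succ, h, true_and] at h3 hn ⊢
      split_ifs <;> omega
    · refine (Nat.card_congr (Equiv.subtypeUnivEquiv fun M i a => by simp [ha h])).trans ?_
      rw [Nat.card_congr e, mid_tangent (v := id) rfl (e M₀), map_one']
      have c : Sub (Mb i₀.succ) (1 : Matrix ι ι L) := ⟨_, (Matrix.mul_one _).symm⟩
      refine tangent_card a0 a1 (iso_anti ha' _ a0 a1) (hMb.norm _) c ?_ ?_
      · rw [← b']
        exact b.iso (Sub.refl _) (hMb.iso _)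
      · rw [← b']
        have h3 := rank_lastQ ha' (field_dual (hG.map _) (hd.map _) (hb.norm i₀.castSucc)
          (hb.iso _) ((q' _).map _))
        simp only [Fintype.card_fin, Fin.val_succ, Fin.val_castSucc, h, false_and, if_false,
          or_false] at h3 hn ⊢
        omega

end Pool.Agent.Lib.MP_557161_ag.DL.D2
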