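import Pool.Agent.Lib.MP_557161_ag.D2.Main

/-!
Quadratic forms in odd dimension and characteristic two: projection from the radical.
-/

namespace Pool.Agent.Lib.MP_557161_ag.DL.D2

open Module Submodule Matrix

section Lin

variable {L L' : Type} [Field L] [Field L'] {ι ι₂ : Type} [Fintype ι] [Fintype ι₂]
  [DecidableEq ι] [DecidableEq ι₂]

/-- The projection `P` from the radical, spanned by the nonsingular vector `r`. -/
structure OD (G B : Matrix ι ι L) (G₀ : Matrix ι₂ ι₂ L) (P : Matrix ι₂ ι L) (S : Matrix ι ι₂ L)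
    (r c : ι → L) : Prop where
  two : (2 : L) = 0
  pol : G = B + Bᵀ
  eq : G = Pᵀ * G₀ * P
  ps : P * S = 1
  sp : S * P + vecMulVec r c = 1
  pr : P *ᵥ r = 0
  qr : bf B r r ≠ 0

variable {G B : Matrix ι ι L} {G₀ : Matrix ι₂ ι₂ L} {P : Matrix ι₂ ι L} {S : Matrix ι ι₂ L}
  {r c : ι → L} {E E' : Submodule L (ι → L)} {W W' : Submodule L (ι₂ → L)} {n : ℕ}

omit [Fintype ι₂] [DecidableEq ι] [DecidableEq ι₂] in
lemma mapV_mulVec (κ : L →+* L') (P : Matrix ι₂ ι L) (x : ι → L) :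
    P.map κ *ᵥ mapV κ x = mapV κ (P *ᵥ x) :=
  funext fun i => (RingHom.map_mulVec κ P x i).symm

lemma OD.map (h : OD G B G₀ P S r c) (κ : L →+* L') :
    OD (G.map κ) (B.map κ) (G₀.map κ) (P.map κ) (S.map κ) (mapV κ r) (mapV κ c) := by
  refine ⟨by rw [← map_ofNat κ 2, h.two, map_zero], by rw [h.pol, pol_map], ?_, ?_, ?_, ?_, ?_⟩
  · rw [h.eq, Matrix.map_mul, Matrix.map_mul, transpose_map]
  · rw [← Matrix.map_mul, h.ps, Matrix.map_one _ (map_zero κ) (map_one κ)]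
  · rw [← Matrix.map_mul, ← Matrix.map_one κ (map_zero κ) (map_one κ), ← h.sp,
      Matrix.map_add _ (map_add κ)]
    congr 1
    exact Matrix.ext fun i j => (map_mul κ _ _).symm
  · rw [mapV_mulVec, h.pr]
    exact funext fun _ => map_zero κ
  · rw [bf_mapV]
    exact (map_ne_zero κ).2 h.qr

/-- The projection of a subspace. -/
def prj (P : Matrix ι₂ ι L) (E : Submodule L (ι → L)) : Submodule L (ι₂ → L) := E.map P.mulVecLin

/-- The singular subspace above an isotropic subspace. -/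
def lift (B : Matrix ι ι L) (P : Matrix ι₂ ι L) (W : Submodule L (ι₂ → L)) : Submodule L (ι → L) :=
  span L {v | P *ᵥ v ∈ W ∧ bf B v v = 0}

omit [Fintype ι₂] [DecidableEq ι] [DecidableEq ι₂] in
lemma smap_prj (κ : L →+* L') : smap κ (prj P E) = prj (P.map κ) (smap κ E) :=
  GeoA.smap_map κ _ _ (mapV_mulVec κ P) E

omit [Fintype ι₂] [DecidableEq ι] [DecidableEq ι₂] in
lemma prj_lift_le : prj P (lift B P W) ≤ W :=
  map_le_iff_le_comap.2 (span_le.2 fun _ hv => hv.1)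

namespace OD

variable (h : OD G B G₀ P S r c)
include h

lemma bf_eq (x y : ι → L) : bf G x y = bf G₀ (P *ᵥ x) (P *ᵥ y) := by
  rw [bf, bf, h.eq, ← mulVec_mulVec, ← mulVec_mulVec, dotProduct_mulVec, vecMul_transpose]

lemma ker {x : ι → L} (hx : P *ᵥ x = 0) : ∃ a : L, x = a • r := by
  refine ⟨c ⬝ᵥ x, ?_⟩
  have := congrArg (· *ᵥ x) h.sp
  simp only [add_mulVec, ← mulVec_mulVec, hx, mulVec_zero, zero_add, one_mulVec,
    vecMulVec_mulVec] at this
  exact this.symm.trans (op_smul_eq_smul _ _)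

lemma shift (x : ι → L) (a : L) :
    bf B (x + a • r) (x + a • r) = bf B x x + a * a * bf B r r := by
  rw [q_add, q_smul, ← h.pol, h.bf_eq, mulVec_smul, h.pr, smul_zero, bf_zero_right, add_zero]

lemma inj {x y : ι → L} (e : P *ᵥ x = P *ᵥ y) (hx : bf B x x = 0) (hy : bf B y y = 0) :
    x = y := by
  obtain ⟨a, ha⟩ := h.ker (x := x - y) (by rw [mulVec_sub, e, sub_self])
  have e1 : x = y + a • r := by rw [← ha, add_sub_cancel]
  rw [e1, h.shift, hy, zero_add, mul_eq_zero, or_iff_left h.qr, mul_self_eq_zero] at hx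
  rw [e1, hx, zero_smul, add_zero]

lemma le_of (hE : Sg B E) (hE' : Sg B E') (e : prj P E ≤ prj P E') : E ≤ E' := fun x hx => by
  obtain ⟨y, hy, e'⟩ := e ⟨x, hx, rfl⟩
  exact h.inj e' (hE' y hy) (hE x hx) ▸ hy

lemma eq_of (hE : Sg B E) (hE' : Sg B E') (e : prj P E = prj P E') : E = E' :=
  le_antisymm (h.le_of hE hE' e.le) (h.le_of hE' hE e.ge)

lemma finrank_prj (hE : Sg B E) : finrank L (prj P E) = finrank L E := by
  rw [prj, ← LinearMap.range_domRestrict]
  exact LinearMap.finrank_range_of_inj fun x y e => Subtype.ext (h.inj e (hE _ x.2) (hE _ y.2))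

lemma iso_prj : Iso G₀ (prj P E) ↔ Iso G E := by
  refine ⟨fun e y hy x hx => (h.bf_eq x y).trans (e ⟨y, hy, rfl⟩ _ ⟨x, hx, rfl⟩), fun e => ?_⟩
  rintro _ ⟨y, hy, rfl⟩ _ ⟨x, hx, rfl⟩
  exact (h.bf_eq x y).symm.trans (e hy x hx)

lemma iso_lift (hW : Iso G₀ W) : Iso G (lift B P W) := h.iso_prj.1 (hW.mono prj_lift_le)

lemma sg_lift (hW : Iso G₀ W) : Sg B (lift B P W) :=
  sg_span' (h.pol ▸ h.iso_lift hW) fun _ hx => hx.2

lemma prj_lift [IsAlgClosed L] : prj P (lift B P W) = W := by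
  refine le_antisymm prj_lift_le fun w hw => ?_
  obtain ⟨a, ha⟩ := IsAlgClosed.exists_eq_mul_self (bf B (S *ᵥ w) (S *ᵥ w) / bf B r r)
  have e : P *ᵥ (S *ᵥ w + a • r) = w := by
    rw [mulVec_add, mulVec_smul, h.pr, smul_zero, add_zero, mulVec_mulVec, h.ps, one_mulVec]
  refine ⟨_, subset_span ⟨e.symm ▸ hw, ?_⟩, e⟩
  rw [h.shift, ← ha, div_mul_cancel₀ _ h.qr, ← two_mul, h.two, zero_mul]

lemma lift_bot : lift B P ⊥ = ⊥ :=
  span_eq_bot.2 fun _ hx => h.inj (hx.1.trans (mulVec_zero _).symm) hx.2 (bf_zero_left _ _)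

lemma nd (hG : EForm G₀) {v : ι → L} (h1 : G *ᵥ v = 0) (h2 : bf B v v = 0) : v = 0 := by
  refine h.inj (y := 0) ((hG.inj _ ?_).trans (mulVec_zero _).symm) h2 (bf_zero_left _ _)
  have := congrArg (Sᵀ *ᵥ ·) h1
  simpa only [h.eq, mulVec_mulVec, ← Matrix.mul_assoc, ← transpose_mul, h.ps, transpose_one,
    Matrix.one_mul, mulVec_zero] using this

end OD

omit [Fintype ι₂] [DecidableEq ι] [DecidableEq ι₂] in
/-- The projection of a flag. -/
noncomputable def fprj (P : Matrix ι₂ ι L) (D : Flg L ι) : Flg L ι₂ :=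
  D.mapRange (prj P) (Submodule.map_bot _)

/-- The singular flag above an isotropic flag. -/
noncomputable def OD.flift (h : OD G B G₀ P S r c) (D : Flg L ι₂) : Flg L ι :=
  D.mapRange (lift B P) h.lift_bot

omit [Fintype ι₂] [DecidableEq ι] [DecidableEq ι₂] in
lemma fmap_fprj (κ : L →+* L') (D : Flg L ι) : fmap κ (fprj P D) = fprj (P.map κ) (fmap κ D) :=
  Finsupp.ext fun _ => smap_prj κ

namespace OD

variable (h : OD G B G₀ P S r c) {D D' Z : Flg L ι} {u : List ℕ} {Es Es' : List (Flg L ι)}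
include h

lemma isFl (hD : IsFl G n D) (q : Sg B (D n)) : IsFl G₀ n (fprj P D) :=
  ⟨fun i hi => (h.finrank_prj (sg_fl hD q i)).trans (hD.rank i hi),
    fun i hi => Submodule.map_mono (hD.le i hi), h.iso_prj.2 hD.iso,
    fun i hi => (congrArg (prj P) (hD.out i hi)).trans (Submodule.map_bot _)⟩

lemma path (hp : Path G n u D Es Z) (q : ∀ X ∈ Es, Sg B (X n)) :
    Path G₀ n u (fprj P D) (Es.map (fprj P)) (fprj P Z) := by
  induction u generalizing D Es with
  | nil =>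
    obtain ⟨rfl, rfl⟩ := path_nil.1 hp
    exact rfl
  | cons s u ih =>
    obtain ⟨D', Es', rfl, a1, a2, a3⟩ := path_cons.1 hp
    exact ⟨fun i hi => congrArg (prj P) (a1 i hi), h.isFl a2 (q _ List.mem_cons_self),
      ih a3 fun X hX => q X (List.mem_cons_of_mem _ hX)⟩

lemma fl_eq (hD : IsFl G n D) (q : Sg B (D n)) (hD' : IsFl G n D') (q' : Sg B (D' n))
    (e : fprj P D = fprj P D') : D = D' :=
  Finsupp.ext fun i => h.eq_of (sg_fl hD q i) (sg_fl hD' q' i) (DFunLike.congr_fun e i)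

lemma list_eq (a : ∀ X ∈ Es, IsFl G n X ∧ Sg B (X n)) (a' : ∀ X ∈ Es', IsFl G n X ∧ Sg B (X n))
    (e : Es.map (fprj P) = Es'.map (fprj P)) : Es = Es' := by
  induction Es generalizing Es' with
  | nil => exact (List.map_eq_nil_iff.1 e.symm).symm
  | cons X Es ih =>
    cases Es' with
    | nil => exact nomatch e
    | cons X' Es' =>
      obtain ⟨e1, e2⟩ := List.cons.inj e
      have b := a X List.mem_cons_self
      have b' := a' X' List.mem_cons_self
      rw [h.fl_eq b.1 b.2 b'.1 b'.2 e1, ih (fun Y hY => a Y (List.mem_cons_of_mem _ hY))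
        (fun Y hY => a' Y (List.mem_cons_of_mem _ hY)) e2]

variable [IsAlgClosed L] {A A' Y : Flg L ι₂} {As : List (Flg L ι₂)}

lemma fprj_flift (A : Flg L ι₂) : fprj P (h.flift A) = A := Finsupp.ext fun _ => h.prj_lift

lemma isFl_flift (hA : IsFl G₀ n A) : IsFl G n (h.flift A) ∧ Sg B (h.flift A n) := by
  refine ⟨⟨fun i hi => ?_, fun i hi => span_mono fun v hv => ⟨hA.le i hi hv.1, hv.2⟩,
    h.iso_lift hA.iso, fun i hi => (congrArg (lift B P) (hA.out i hi)).trans h.lift_bot⟩,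
    h.sg_lift hA.iso⟩
  refine (h.finrank_prj (h.sg_lift (hA.le_perp i i))).symm.trans ?_
  rw [h.prj_lift]
  exact hA.rank i hi

lemma path_flift (hp : Path G₀ n u A As Y) :
    Path G n u (h.flift A) (As.map h.flift) (h.flift Y) := by
  induction u generalizing A As with
  | nil =>
    obtain ⟨rfl, rfl⟩ := path_nil.1 hp
    exact rfl
  | cons s u ih =>
    obtain ⟨A', As', rfl, a1, a2, a3⟩ := path_cons.1 hp
    exact ⟨fun i hi => congrArg (lift B P) (a1 i hi), (h.isFl_flift a2).1, ih a3⟩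

end OD

omit [DecidableEq ι₂] [Fintype ι₂] in
lemma exists_od [Finite L] (ha : Gᵀ = -G) (hs : ∀ x, bf G x x = 0) (hp : B = 0 ∨ G = B + Bᵀ)
    (hn : ∀ v, G *ᵥ v = 0 → bf B v v = 0 → v = 0) (hd : G.det = 0) :
    ∃ (i₀ : ι) (G₀ : Matrix {i // i ≠ i₀} {i // i ≠ i₀} L) (P : Matrix {i // i ≠ i₀} ι L)
      (S : Matrix ι {i // i ≠ i₀} L) (r c : ι → L), OD G B G₀ P S r c ∧ QF G₀ 0 := by
  obtain ⟨r, r0, hr⟩ := Matrix.exists_mulVec_eq_zero_iff.2 hd
  have qr : bf B r r ≠ 0 := fun e => r0 (hn r hr e)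
  have pol : G = B + Bᵀ := hp.resolve_left fun e => qr (e ▸ bf_zero_mat _ _)
  have two : (2 : L) = 0 := by
    have := hs r
    rwa [pol, bf_pol, ← two_mul, mul_eq_zero, or_iff_left qr] at this
  obtain ⟨i₀, hi⟩ := Function.ne_iff.1 r0
  have hi' : r i₀ ≠ 0 := hi
  obtain ⟨c, hc⟩ : ∃ c : ι → L, c = Pi.single i₀ (r i₀)⁻¹ := ⟨_, rfl⟩
  obtain ⟨P, hP⟩ : ∃ P : Matrix {i // i ≠ i₀} ι L,
    P = (1 - vecMulVec r c).submatrix Subtype.val id := ⟨_, rfl⟩
  obtain ⟨S, hS⟩ : ∃ S : Matrix ι {i // i ≠ i₀} L,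
    S = (1 : Matrix ι ι L).submatrix id Subtype.val := ⟨_, rfl⟩
  have sp : S * P = 1 - vecMulVec r c := by
    ext i j
    by_cases e : i = i₀
    · subst e
      rw [Matrix.mul_apply, Finset.sum_eq_zero fun a _ => by simp [hS, one_apply, a.2.symm]]
      by_cases e' : i = j
      · subst e'
        simp [hc, vecMulVec_apply, hi']
      · simp [hc, vecMulVec_apply, e', Ne.symm e']
    · rw [Matrix.mul_apply, Finset.sum_eq_single ⟨i, e⟩ (fun a _ ha => by
        simp [hS, one_apply, show i ≠ a.1 from fun e' => ha (Subtype.ext e'.symm)]) (by simp),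
        show S i ⟨i, e⟩ = 1 from hS ▸ one_apply_eq i, one_mul, hP]
      rfl
  have ps : P * S = 1 := by
    ext i j
    rw [Matrix.mul_apply, Finset.sum_eq_single j.1 (fun a _ ha => by simp [hS, one_apply, ha])
      (by simp)]
    simp [hS, hP, hc, vecMulVec_apply, j.2, one_apply, Subtype.ext_iff]
  have pr : P *ᵥ r = 0 := by
    funext i
    have : ((1 - vecMulVec r c) *ᵥ r) i.1 = 0 := by
      simp [sub_mulVec, vecMulVec_mulVec, hc, hi']
    rw [hP]
    exact this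
  have g1 : G * vecMulVec r c = 0 := by rw [mul_vecMulVec, hr, zero_vecMulVec]
  have g2 : (vecMulVec r c)ᵀ * G = 0 := by
    have := congrArg transpose g1
    rwa [transpose_mul, ha, Matrix.mul_neg, transpose_zero, neg_eq_zero] at this
  have h : OD G B (Sᵀ * G * S) P S r c := by
    refine ⟨two, pol, ?_, ps, by rw [sp, sub_add_cancel], pr, qr⟩
    rw [← Matrix.mul_assoc, ← Matrix.mul_assoc, ← transpose_mul, Matrix.mul_assoc _ S, sp,
      transpose_sub, transpose_one, Matrix.sub_mul, g2, Matrix.one_mul, sub_zero, Matrix.mul_sub,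
      g1, Matrix.mul_one, sub_zero]
  have e : ∀ x, P *ᵥ (S *ᵥ x) = x := fun x => by rw [mulVec_mulVec, ps, one_mulVec]
  refine ⟨i₀, _, P, S, r, c, h, ?_, fun x => ?_, fun x hx => ?_, Or.inl rfl⟩
  · rw [transpose_mul, transpose_mul, transpose_transpose, ha]
    simp only [Matrix.neg_mul, Matrix.mul_neg, Matrix.mul_assoc]
  · rw [← e x, ← h.bf_eq, hs]
  · have : CharP L 2 := CharTwo.of_one_ne_zero_of_two_eq_zero one_ne_zero two
    obtain ⟨a, ha'⟩ := (Finite.surjective_of_injective (frobenius_inj L 2))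
      (bf B (S *ᵥ x) (S *ᵥ x) / bf B r r)
    rw [frobenius_def, pow_two] at ha'
    have e1 := hn (S *ᵥ x + a • r) (by
      rw [mulVec_add, mulVec_smul, hr, smul_zero, add_zero, h.eq, ← mulVec_mulVec, e,
        ← mulVec_mulVec, hx, mulVec_zero]) (by
      rw [h.shift, ha', div_mul_cancel₀ _ qr, ← two_mul, two, zero_mul])
    have e2 := congrArg (P *ᵥ ·) e1
    simpa only [mulVec_add, mulVec_smul, pr, smul_zero, add_zero, e, mulVec_zero] using e2

end Lin

variable {k₀ : Type} [Field k₀] [Fintype k₀] {K : Type} [Field K] [Algebra k₀ K]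
  {ι ι₂ : Type} [Fintype ι] [Fintype ι₂] [DecidableEq ι] [DecidableEq ι₂]
  {G B : Matrix ι ι k₀} {G₀ : Matrix ι₂ ι₂ k₀} {P : Matrix ι₂ ι k₀} {S : Matrix ι ι₂ k₀}
  {r c : ι → k₀} {n : ℕ} {u : List ℕ}

omit [Fintype k₀] in
lemma OD.red (h : OD G B G₀ P S r c) {M : Fld K} (O : Pl M) {E : Submodule M (ι → M)}
    (hE : Sg (gm B M) E) :
    prj (P.map (rat k₀ O.res)) (sred O E) = sred O (prj (P.map (rat k₀ M)) E) := by
  refine eq_of_le_of_finrank_le ?_ ?_
  · rintro _ ⟨_, ⟨x, hx, ix, rfl⟩, rfl⟩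
    have h1 : ∀ i j, rat k₀ M (P i j) * x j ∈ O.O := fun i j => mul_mem (rd_rat O _).1 (ix j)
    refine ⟨_, ⟨x, hx, rfl⟩, fun i => sum_mem fun j _ => h1 i j, funext fun i => ?_⟩
    show O.rd (∑ j, rat k₀ M (P i j) * x j) = ∑ j, rat k₀ O.res (P i j) * O.rd (x j)
    rw [O.rd_sum _ _ fun j _ => h1 i j]
    exact Finset.sum_congr rfl fun j _ => by rw [O.rd_mul (rd_rat O _).1 (ix j), (rd_rat O _).2]
  · rw [finrank_sred, (h.map _).finrank_prj hE, (h.map _).finrank_prj (ss_red O hE), finrank_sred]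

omit [Fintype ι₂] [DecidableEq ι] [DecidableEq ι₂] in
lemma fprj_frH (L : Fld K) (D : Flg L ι) : fprj (P.map (rat k₀ L)) (fmap (frH k₀ L) D) =
    fmap (frH k₀ L) (fprj (P.map (rat k₀ L)) D) := by
  rw [fmap_fprj]
  congr 1
  exact Matrix.ext fun i j => (frH_rat _).symm

/-- The projection of galleries. -/
noncomputable def OD.mor (h : OD G B G₀ P S r c) : Mor (XQ K G B n u) (XQ K G₀ 0 n u) where
  f {L} y := (fprj (P.map (rat k₀ L)) y.1, List.map (fprj (P.map (rat k₀ L))) y.2)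
  mem {L} y hy := by
    have z : gm (0 : Matrix ι₂ ι₂ k₀) L = 0 := Matrix.map_zero _ (map_zero _)
    refine ⟨⟨(h.map _).isFl hy.1.1 hy.2.1, ?_⟩, ?_, fun X _ => ?_⟩
    · exact (congrArg (Path _ n u _ _) (fprj_frH L y.1)).mp ((h.map _).path hy.1.2 hy.2.2)
    · show Sg _ _
      rw [z]
      exact sg_zero
    · show Sg _ _
      rw [z]
      exact sg_zero
  nat {L L'} κ y _ := by
    have e : ∀ D : Flg L ι, fprj (P.map (rat k₀ L')) (fmap κ.toRingHom D) =
        fmap κ.toRingHom (fprj (P.map (rat k₀ L)) D) := fun D => by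
      rw [fmap_fprj]
      congr 1
      exact Matrix.ext fun i j => (map_rat κ _).symm
    refine Prod.ext (e _) ?_
    exact List.map_map.trans ((List.map_congr_left fun D _ => e D).trans List.map_map.symm)
  cont {M} O y _ hy _ := by
    have e : ∀ D : Flg M ι, IsFl (gm G M) n D → Sg (gm B M) (D n) →
        fprj (P.map (rat k₀ O.res)) (fred O D) = fred O (fprj (P.map (rat k₀ M)) D) :=
      fun D hD q => Finsupp.ext fun i => h.red O (sg_fl hD q i)
    refine Prod.ext (e _ hy.1.1 hy.2.1) ?_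
    exact List.map_map.trans ((List.map_congr_left fun D hD =>
      e D ((hy.1.2.isFl hy.1.1).2 D hD) (hy.2.2 D hD)).trans List.map_map.symm)

theorem OD.ck [Base K] (h : OD G B G₀ P S r c) (h₀ : CK (XQ K G₀ 0 n u)) : CK (XQ K G B n u) := by
  refine CK.of_bij h.mor (fun L y y' hy hy' e => ?_) (fun O y _ hy _ => ?_) ?_ h₀
  · exact Prod.ext ((h.map _).fl_eq hy.1.1 hy.2.1 hy'.1.1 hy'.2.1 (congrArg Prod.fst e))
      ((h.map _).list_eq (fun X hX => ⟨(hy.1.2.isFl hy.1.1).2 X hX, hy.2.2 X hX⟩)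
        (fun X hX => ⟨(hy'.1.2.isFl hy'.1.1).2 X hX, hy'.2.2 X hX⟩) (congrArg Prod.snd e))
  · exact ⟨⟨(gm_red G O).isFl hy.1.1, (congrArg (Path _ n _ _ _) (fred_frH O y.1)).mp
      ((gm_red G O).path hy.1.2)⟩, ss_red O hy.2.1, lst_red O hy.2.2⟩
  · rintro L _ ⟨A, As⟩ ⟨⟨a1, a2⟩, -⟩
    have h' := h.map (rat k₀ L)
    have b := h'.isFl_flift a1
    have b' := h'.isFl_flift (a2.isFl a1).1
    have f1 : IsFl (gm G L) n (fmap (frH k₀ L) (h'.flift A)) := by
      have := (isFl_fmap (frH k₀ L)).2 b.1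
      rwa [show (G.map (rat k₀ L)).map (frH k₀ L) = gm G L from gm_frH G L] at this
    have e : h'.flift (fmap (frH k₀ L) A) = fmap (frH k₀ L) (h'.flift A) :=
      h'.fl_eq b'.1 b'.2 f1 (sg_frH.2 b.2) (by rw [fprj_frH, h'.fprj_flift, h'.fprj_flift])
    refine ⟨(h'.flift A, List.map h'.flift As), ⟨⟨b.1,
      (congrArg (Path _ n u _ _) e).mp (h'.path_flift a2)⟩, b.2,
      List.forall_mem_map.2 fun X hX => (h'.isFl_flift ((a2.isFl a1).2 X hX)).2⟩,
      Prod.ext (h'.fprj_flift A) ?_⟩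
    exact List.map_map.trans ((List.map_congr_left fun D _ => h'.fprj_flift D).trans
      (List.map_id _))

end Pool.Agent.Lib.MP_557161_ag.DL.D2
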