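import Pool.Agent.Lib.MP_557161_ag.D2.Sg

/-!
The varieties of singular lines that are orthogonal to their first Frobenius images, for a
quadratic form in any characteristic.
-/

namespace Pool.Agent.Lib.MP_557161_ag.DL.D2

open Module Submodule Matrix PS

section Lin

variable {L : Type} [Field L] {ι : Type} [Fintype ι]

lemma q_sub (g : Matrix ι ι L) (x y : ι → L) :
    bf g (x - y) (x - y) = bf g x x + bf g y y - bf (g + gᵀ) x y := by
  rw [bf_pol]
  simp only [bf_sub_left, bf_sub_right]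
  ring

lemma diff_iffQ {g : Matrix ι ι L} {φ : L →+* L} (hφ : g.map φ = g) (y : ι → L) (m : ℕ) :
    (∀ i < m + 1, bf g ((mapV φ)^[i] y - y) ((mapV φ)^[i] y - y) = 0) ↔
      (∀ i < m, bf (g + gᵀ) (mapV φ y - y) ((mapV φ)^[i] (mapV φ y - y)) = 0) ∧
        (m ≠ 0 → bf g (mapV φ y - y) (mapV φ y - y) = 0) := by
  set c : ℕ → L := fun i => bf g ((mapV φ)^[i] y - y) ((mapV φ)^[i] y - y) with hc
  have h1 : ∀ i, φ (c i) = bf g ((mapV φ)^[i + 1] y - mapV φ y) ((mapV φ)^[i + 1] y - mapV φ y) :=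
    fun i => by rw [hc, ← bf_mapV, hφ, mapV_sub, Function.iterate_succ_apply']
  have h2 : ∀ d, bf (g + gᵀ) (mapV φ y - y) ((mapV φ)^[d + 1] (mapV φ y - y)) =
      c (d + 2) + φ (c d) - φ (c (d + 1)) - c (d + 1) := fun d => by
    rw [h1, h1, iter_sub, ← Function.iterate_succ_apply, bf_pol]
    simp only [hc, bf_sub_left, bf_sub_right]
    ring
  constructor
  · intro h
    refine ⟨fun i hi => ?_, fun hm => h 1 (by omega)⟩
    cases i with
    | zero =>
      have e : bf g (mapV φ y - y) (mapV φ y - y) = 0 := h 1 (by omega)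
      rw [Function.iterate_zero_apply, bf_pol, e, add_zero]
    | succ d =>
      have e := h2 d
      rw [show c (d + 2) = 0 from h _ (by omega), show c (d + 1) = 0 from h _ (by omega),
        show c d = 0 from h _ (by omega), map_zero] at e
      exact e.trans (by ring)
  · rintro ⟨h, h'⟩ i
    induction i using Nat.strong_induction_on with
    | _ i ih =>
      intro hi
      match i, ih, hi with
      | 0, _, _ => simp
      | 1, _, hi => exact h' (by omega)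
      | d + 2, ih, hi =>
        have e := h2 d
        rw [h _ (by omega), show c (d + 1) = 0 from ih _ (by omega) (by omega),
          show c d = 0 from ih _ (by omega) (by omega), map_zero] at e
        exact Eq.trans (by ring) e.symm

end Lin

variable {k₀ : Type} [Field k₀] [Fintype k₀] {K : Type} [Field K] [Algebra k₀ K] [Base K]
  {ι : Type} [Fintype ι]

set_option linter.unusedSectionVars false

variable (K) in
/-- Singular lines in `U` that are orthogonal to their first `m` Frobenius images. -/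
noncomputable def PP (B : Matrix ι ι k₀) (U : Submodule k₀ (ι → k₀)) (m : ℕ) : Sp (Sub K ι) :=
  (PS K (B + Bᵀ) U m).inter (Sp.sub (fun L ℓ => m ≠ 0 → Sg (gm B L) ℓ)
    fun κ _ => imp_congr Iff.rfl (sg_map κ))

variable {B : Matrix ι ι k₀} {U U' S : Submodule k₀ (ι → k₀)} {m : ℕ} {e f : ι → k₀}

lemma gm_pol (B : Matrix ι ι k₀) (L : Fld K) : gm (B + Bᵀ) L = gm B L + (gm B L)ᵀ := pol_map _ B

lemma pol_symm (B : Matrix ι ι k₀) : (B + Bᵀ)ᵀ = B + Bᵀ := by
  rw [transpose_add, transpose_transpose, add_comm]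

lemma mem_pp_span {L : Fld K} {x : ι → L} (hx : x ≠ 0) :
    (PP K B U m).mem (L := L) (span L {x}) ↔
      (x ∈ ext L U ∧ ∀ i < m, bf (gm (B + Bᵀ) L) x ((mapV (frH k₀ L))^[i] x) = 0) ∧
        (m ≠ 0 → bf (gm B L) x x = 0) :=
  and_congr (mem_ps_span hx) (imp_congr Iff.rfl sg_line)

lemma pp_red {M : Fld K} (O : Pl M) {ℓ : Submodule M (ι → M)} (h : (PP K B U m).mem (L := M) ℓ) :
    (PP K B U m).mem (L := O.res) (sred O ℓ) :=
  ⟨ps_red O h.1, fun hm => ss_red O (h.2 hm)⟩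

lemma inter_inSQ (h : U' ≤ U) (hc : CK (PP K B U' m)) : CK ((PP K B U m).inter (inS K U')) :=
  hc.congr fun L _ => ⟨fun a => ⟨⟨⟨a.1.1, a.1.2.1.trans (smap_mono _ h), a.1.2.2⟩, a.2⟩, a.1.2.1⟩,
    fun a => ⟨⟨a.1.1.1, a.2, a.1.1.2.2⟩, a.1.2⟩⟩

/-- The plane spanned by a line and a fixed rational line. -/
noncomputable def joinQ (B : Matrix ι ι k₀) (m : ℕ) (hS : finrank k₀ S = 1) (hd : U' ⊓ S = ⊥) :
    Mor (PP K B U' m) (Sp.univ (Sub K ι)) where
  f {L} ℓ := (ext L S ⊔ (show Submodule L (ι → L) from ℓ) : Submodule L (ι → L))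
  mem _ _ := trivial
  nat κ ℓ _ := ((smap_sup κ.toRingHom _ ℓ).trans (by rw [smap_ext]; rfl)).symm
  cont O _ _ h _ := (sred_join hS hd O h.1).symm

lemma cone_iffQ (hU : U' ≤ U) (hS : S ≤ U) (h : U ≤ perp (B + Bᵀ) S ∧ S ≤ perp (B + Bᵀ) U)
    (hq : Sg B S) {L : Fld K} {s y : ι → L} (hs : s ∈ ext L S) (hy : y ∈ ext L U') (h0 : y ≠ 0)
    (h1 : s + y ≠ 0) :
    (PP K B U m).mem (L := L) (span L {s + y}) ↔ (PP K B U' m).mem (L := L) (span L {y}) := by
  refine and_congr (cone_iff hU hS (Or.inr h) hs hy h0 h1) (imp_congr Iff.rfl ?_)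
  have a2 := smap_mono (rat k₀ L) h.1
  rw [smap_perp] at a2
  have b2 : bf (gm (B + Bᵀ) L) s y = 0 := a2 (smap_mono _ hU hy) s hs
  rw [sg_line, sg_line, q_add, ← gm_pol, b2, sg_ext.2 hq s hs, zero_add, add_zero]

lemma coneQ (hS : finrank k₀ S = 1) (hd : U' ⊓ S = ⊥) (hU : S ⊔ U' = U)
    (h : U ≤ perp (B + Bᵀ) S ∧ S ≤ perp (B + Bᵀ) U) (hq : Sg B S) (hc : CK (PP K B U' m)) :
    CK (PP K B U m) := by
  have hU' : U' ≤ U := hU ▸ le_sup_right
  have hS' : S ≤ U := hU ▸ le_sup_left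
  have hr : ∀ L : Fld K, finrank L (ext L S) = 1 := fun L => (finrank_smap _ _).trans hS
  refine CK.of_closed (inS_closed S _) (CK.of_const fun L _ ℓ hℓ =>
    ⟨ext (Fld.base K) S, (smap_ext _ S).trans (line_eq hℓ.2 hℓ.1.1.1 (hr L)).symm⟩) ?_
  have hb : ∀ L : Fld K, finrank L (ext L (⊥ : Submodule k₀ (ι → k₀))) = 0 := fun L =>
    (finrank_smap _ _).trans (finrank_bot _ _)
  have hp := ck_pen (cst (PP K B U' m) ⊥) (cst _ S) (joinQ B m hS hd) (fun L ℓ hℓ =>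
    ⟨smap_mono _ bot_le, le_sup_left, (hr L).trans (congrArg (· + 1) (hb L)).symm,
      (rank_sup hS hd hℓ.1).trans (congrArg (· + 2) (hb L)).symm⟩) hc
  have hm : ∀ (L : Fld K) (ℓ D : Submodule L (ι → L)),
      (Pen (cst (PP K B U' m) ⊥) (cst _ S) (joinQ B m hS hd)).mem (L := L) (ℓ, D) ↔
        (PP K B U' m).mem (L := L) ℓ ∧ D ≤ ext L S ⊔ ℓ ∧ finrank L D = 1 ∧ ¬ D ≤ ext L S :=
    fun L ℓ D => ⟨fun ⟨a, _, b, c, d⟩ =>
      have c' : finrank L D = 1 := c.trans (congrArg (· + 1) (hb L))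
      ⟨a, b, c', fun e => d (line_eq e c' (hr L))⟩,
      fun ⟨a, b, c, d⟩ => ⟨a, (smap_bot _).le.trans bot_le, b,
        c.trans (congrArg (· + 1) (hb L)).symm, fun e => d e.le⟩⟩
  refine CK.image (W := Pen (cst (PP K B U' m) ⊥) (cst _ S) (joinQ B m hS hd)) ⟨fun y => y.2,
    fun {L} y hy => ?_, fun _ _ _ => rfl, fun _ _ _ _ _ => rfl⟩
    (fun {M} O y _ hy hz => ?_) (fun L _ D hD => ?_) hp
  · obtain ⟨ℓ, D⟩ := y
    obtain ⟨h1, h2, h3, h4⟩ := (hm L ℓ D).1 hy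
    obtain ⟨x, hx, rfl⟩ := exists_gen_line h3
    obtain ⟨s, hs, y, hy', rfl⟩ := mem_sup.1 ((span_singleton_le_iff_mem _ _).1 h2)
    have h0 : y ≠ 0 := by
      rintro rfl
      exact h4 ((span_singleton_le_iff_mem _ _).2 (by rwa [add_zero]))
    obtain rfl := line_eq ((span_singleton_le_iff_mem _ _).2 hy') (finrank_span_singleton h0) h1.1.1
    exact ⟨(cone_iffQ hU' hS' h hq hs (h1.1.2.1 hy') h0 hx).2 h1, h4⟩
  · obtain ⟨ℓ, D⟩ := y
    obtain ⟨h1, h2, h3, -⟩ := (hm M ℓ D).1 hy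
    exact (hm O.res (sred O ℓ) (sred O D)).2 ⟨pp_red O h1,
      (sred_mono O h2).trans (sred_join hS hd O h1.1).le, hz.1.1.1, hz.2⟩
  · obtain ⟨x, hx, rfl⟩ := exists_gen_line hD.1.1.1
    have h2 : x ∈ ext L U := (span_singleton_le_iff_mem _ _).1 hD.1.1.2.1
    rw [← hU, ext, smap_sup] at h2
    obtain ⟨s, hs, y, hy', rfl⟩ := mem_sup.1 h2
    have h0 : y ≠ 0 := by
      rintro rfl
      exact hD.2 ((span_singleton_le_iff_mem _ _).2 (by rwa [add_zero]))
    exact ⟨(span L {y}, span L {s + y}), (hm L _ _).2 ⟨(cone_iffQ hU' hS' h hq hs hy' h0 hx).1 hD.1,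
      (span_singleton_le_iff_mem _ _).2 (add_mem_sup hs (mem_span_singleton_self y)), hD.1.1.1,
      hD.2⟩, rfl⟩

lemma aniso_ckQ (h : ∀ u ∈ U, bf B u u = 0 → u = 0) : CK (PP K B U (m + 1)) := by
  obtain ⟨r, b, s, hb⟩ := exists_nb' U
  have hr : r ≤ 2 := aniso B hb.indep fun u hu =>
    h u (span_le.2 (by rintro _ ⟨a, rfl⟩; exact hb.mem a) hu)
  refine CK.of_const fun L _ ℓ hℓ => ?_
  obtain ⟨x, hx, rfl⟩ := exists_gen_line hℓ.1.1
  obtain ⟨⟨h1, -⟩, h2⟩ := (mem_pp_span hx).1 hℓ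
  have h3 : bf (gm B L) x x = 0 := h2 m.succ_ne_zero
  have h4 := (hb.smap (rat k₀ L)).eq_sum h1
  have key : ∀ (c : L) (x₀ : ι → K), x = c • mapV (algebraMap K L) x₀ →
      ∃ y₀ : (Sub K ι).pt (Fld.base K),
        (Sub K ι).map (L := Fld.base K) (Algebra.ofId K L) y₀ = span L {x} := fun c x₀ hc =>
    ⟨span K {x₀}, (smap_single _ x₀).trans (by
      rw [hc, span_singleton_smul_eq (IsUnit.mk0 c (left_ne_zero_of_smul (hc ▸ hx)))]
      rfl)⟩
  obtain rfl | rfl | rfl : r = 0 ∨ r = 1 ∨ r = 2 := by omega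
  · exact absurd (h4.trans (by simp)) hx
  · exact key (x (s 0)) (mapV (algebraMap k₀ K) (b 0)) (h4.trans (Fin.sum_univ_one _))
  · rw [Fin.sum_univ_two] at h4
    generalize x (s 0) = u at h4
    generalize x (s 1) = v at h4
    have hA : bf B (b 0) (b 0) ≠ 0 := fun e => hb.indep.ne_zero 0 (h _ (hb.mem 0) e)
    set A : K := algebraMap k₀ K (bf B (b 0) (b 0)) with eA
    set D : K := algebraMap k₀ K (bf B (b 0) (b 1)) with eD
    set D' : K := algebraMap k₀ K (bf B (b 1) (b 0)) with eD'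
    set C : K := algebraMap k₀ K (bf B (b 1) (b 1)) with eC
    have hA' : A ≠ 0 := (map_ne_zero _).2 hA
    have hA'' : algebraMap K L A ≠ 0 := (map_ne_zero _).2 hA'
    have h5 : algebraMap K L A * u ^ 2 + (algebraMap K L D + algebraMap K L D') * u * v
        + algebraMap K L C * v ^ 2 = 0 := by
      rw [h4] at h3
      simp only [bf_add_left, bf_add_right, bf_smul_left, bf_smul_right, gm, bf_mapV] at h3
      refine Eq.trans ?_ h3
      show _ = u * (u * algebraMap K L A + v * algebraMap K L D') +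
        v * (u * algebraMap K L D + v * algebraMap K L C)
      ring
    obtain ⟨δ, hδ⟩ : ∃ δ : K, δ ^ 2 + (D + D') * δ + A * C = 0 := by
      obtain ⟨δ, hδ⟩ := IsAlgClosed.exists_root
        (Polynomial.C (1 : K) * Polynomial.X ^ 2 + Polynomial.C (D + D') * Polynomial.X +
          Polynomial.C (A * C)) (by rw [Polynomial.degree_quadratic one_ne_zero]; decide)
      exact ⟨δ, by simpa using hδ⟩
    have hδ' := congrArg (algebraMap K L) hδ
    simp only [map_add, map_mul, map_pow, map_zero] at hδ'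
    have fin : ∀ ε : K, algebraMap K L A * u = algebraMap K L ε * v →
        x = v • mapV (algebraMap K L) ((ε / A) • mapV (algebraMap k₀ K) (b 0)
          + mapV (algebraMap k₀ K) (b 1)) := fun ε hε => by
      rw [h4, mapV_add, mapV_smul, smul_add, smul_smul, map_div₀]
      congr 2
      field_simp
      linear_combination hε
    have h6 : (algebraMap K L A * u - algebraMap K L δ * v) *
        (algebraMap K L A * u - algebraMap K L (-δ - (D + D')) * v) = 0 := by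
      simp only [map_sub, map_neg, map_add]
      linear_combination algebraMap K L A * h5 - v ^ 2 * hδ'
    rcases mul_eq_zero.1 h6 with h7 | h7
    · exact key v _ (fin _ (sub_eq_zero.1 h7))
    · exact key v _ (fin _ (sub_eq_zero.1 h7))

variable (B e f) in
/-- The stereographic parametrisation of the quadric. -/
noncomputable def stQ (L : Fld K) (y : ι → L) : ι → L :=
  (-bf (gm B L) y y) • mapV (rat k₀ L) e + mapV (rat k₀ L) f + y

lemma stQ_map {L L' : Fld K} (κ : L →+* L') (hκ : ∀ c, κ (rat k₀ L c) = rat k₀ L' c) (y : ι → L) :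
    mapV κ (stQ B e f L y) = stQ B e f L' (mapV κ y) := by
  have h1 : ∀ u : ι → k₀, mapV κ (mapV (rat k₀ L) u) = mapV (rat k₀ L') u :=
    fun u => funext fun i => hκ _
  have h2 : (gm B L).map κ = gm B L' := Matrix.ext fun i j => hκ _
  rw [stQ, stQ, mapV_add, mapV_add, mapV_smul, map_neg, ← bf_mapV, h1, h1, h2]

lemma stQ_iter {L : Fld K} (y : ι → L) (i : ℕ) :
    (mapV (frH k₀ L))^[i] (stQ B e f L y) = stQ B e f L ((mapV (frH k₀ L))^[i] y) := by
  induction i with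
  | zero => rfl
  | succ i ih => rw [Function.iterate_succ_apply', Function.iterate_succ_apply', ih,
      stQ_map _ frH_rat]

lemma stQ_red {M : Fld K} (O : Pl M) {y : ι → M} (hy : IntV O y) :
    IntV O (stQ B e f M y) ∧ rdV O (stQ B e f M y) = stQ B e f O.res (rdV O y) := by
  obtain ⟨h1, h2⟩ := (gm_red B O).bf hy hy
  have h5 := IntV.smul (neg_mem h1) (int_rat O e).1
  have h6 : O.rd (-bf (gm B M) y y) = -O.rd (bf (gm B M) y y) := by
    have := O.rd_sub (zero_mem _) h1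
    rwa [zero_sub, O.rd_zero, zero_sub] at this
  refine ⟨(h5.add (int_rat O f).1).add hy, ?_⟩
  rw [stQ, stQ, rdV_add (h5.add (int_rat O f).1) hy, rdV_add h5 (int_rat O f).1,
    rdV_smul (neg_mem h1) (int_rat O e).1, h6, h2, (int_rat O e).2, (int_rat O f).2]

/-- A hyperbolic pair of singular vectors. -/
structure HypQ (B : Matrix ι ι k₀) (U : Submodule k₀ (ι → k₀)) (e f : ι → k₀) : Prop where
  hyp : Hyp (B + Bᵀ) U e f
  qe : bf B e e = 0
  qf : bf B f f = 0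

lemma HypQ.st_e (h : HypQ B U e f) {L : Fld K} {y : ι → L} (hy : y ∈ ext L (oc (B + Bᵀ) U e f)) :
    bf (gm (B + Bᵀ) L) (mapV (rat k₀ L) e) (stQ B e f L y) = 1 ∧
    stQ B e f L y - bf (gm (B + Bᵀ) L) (mapV (rat k₀ L) f) (stQ B e f L y) • mapV (rat k₀ L) e
      - mapV (rat k₀ L) f = y ∧ stQ B e f L y ≠ 0 ∧ stQ B e f L y ∈ ext L U := by
  obtain ⟨-, a1, a2, a3, a4⟩ := h.hyp.gm L
  obtain ⟨⟨b1, b2⟩, b3⟩ := mem_oc.1 hy
  have h1 : bf (gm (B + Bᵀ) L) (mapV (rat k₀ L) e) (stQ B e f L y) = 1 := by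
    rw [stQ, bf_add_right, bf_add_right, bf_smul_right, a1, a2, b2, mul_zero, zero_add, add_zero]
  refine ⟨h1, ?_, fun h0 => ?_, ?_⟩
  · rw [stQ, bf_add_right, bf_add_right, bf_smul_right, a3, a4, b3, mul_one, add_zero, add_zero]
    abel
  · rw [h0, bf_zero_right] at h1
    exact zero_ne_one h1
  · exact add_mem (add_mem (smul_mem _ _ (mapV_mem _ h.hyp.he)) (mapV_mem _ h.hyp.hf)) b1

lemma HypQ.st_bf (h : HypQ B U e f) {L : Fld K} {y z : ι → L}
    (hy : y ∈ ext L (oc (B + Bᵀ) U e f)) (hz : z ∈ ext L (oc (B + Bᵀ) U e f)) :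
    bf (gm (B + Bᵀ) L) (stQ B e f L y) (stQ B e f L z) = -bf (gm B L) (z - y) (z - y) := by
  obtain ⟨a0, a1, a2, a3, a4⟩ := h.hyp.gm L
  obtain ⟨⟨-, b2⟩, b3⟩ := mem_oc.1 hy
  obtain ⟨⟨-, c2⟩, c3⟩ := mem_oc.1 hz
  rw [q_sub, ← gm_pol]
  simp only [stQ, bf_add_left, bf_add_right, bf_smul_left, bf_smul_right,
    a1, a2, a3, a4, b2, b3, c2, c3, bf_symm a0 y (mapV (rat k₀ L) e),
    bf_symm a0 y (mapV (rat k₀ L) f), bf_symm a0 z y]
  ring

lemma HypQ.q_comb (h : HypQ B U e f) {L : Fld K} {y : ι → L}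
    (hy : y ∈ ext L (oc (B + Bᵀ) U e f)) (a : L) :
    bf (gm B L) (a • mapV (rat k₀ L) e + mapV (rat k₀ L) f + y)
      (a • mapV (rat k₀ L) e + mapV (rat k₀ L) f + y) = a + bf (gm B L) y y := by
  obtain ⟨-, -, a2, -, -⟩ := h.hyp.gm L
  obtain ⟨⟨-, b2⟩, b3⟩ := mem_oc.1 hy
  have q1 : bf (gm B L) (mapV (rat k₀ L) e) (mapV (rat k₀ L) e) = 0 := by
    rw [gm, bf_mapV, h.qe, map_zero]
  have q2 : bf (gm B L) (mapV (rat k₀ L) f) (mapV (rat k₀ L) f) = 0 := by
    rw [gm, bf_mapV, h.qf, map_zero]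
  rw [q_add, q_add, q_smul, ← gm_pol, q1, q2, bf_add_left, bf_smul_left, bf_smul_left, a2, b2, b3]
  ring

lemma HypQ.lp_iff (h : HypQ B U e f) {L : Fld K} {y : ι → L}
    (hy : y ∈ ext L (oc (B + Bᵀ) U e f)) :
    (lang k₀ y = 0 ∨ (PP K B (oc (B + Bᵀ) U e f) m).mem (L := L) (span L {lang k₀ y})) ↔
      (PP K B U (m + 1)).mem (L := L) (span L {stQ B e f L y}) := by
  obtain ⟨-, -, h1, h2⟩ := h.st_e hy
  have h4 := diff_iffQ (gm_frH B L) y m
  have h5 : bf (gm B L) (stQ B e f L y) (stQ B e f L y) = 0 := by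
    rw [stQ, h.q_comb hy, neg_add_cancel]
  rw [mem_pp_span h1, and_iff_right h2, and_iff_left fun _ => h5]
  simp only [stQ_iter, fun i => h.st_bf hy (iter_mem (frH_ext _) hy i), neg_eq_zero]
  rw [h4, ← gm_pol]
  show _ ↔ (∀ i < m, bf (gm (B + Bᵀ) L) (lang k₀ y) ((mapV (frH k₀ L))^[i] (lang k₀ y)) = 0) ∧
    (m ≠ 0 → bf (gm B L) (lang k₀ y) (lang k₀ y) = 0)
  by_cases h0 : lang k₀ y = 0
  · simp [h0]
  · rw [or_iff_right h0, mem_pp_span h0]
    exact and_congr_left' (and_iff_right (sub_mem (iter_mem (frH_ext _) hy 1) hy))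

lemma HypQ.sred_st (h : HypQ B U e f) {M : Fld K} (O : Pl M) {y : ι → M}
    (hy : y ∈ ext M (oc (B + Bᵀ) U e f)) (hi : IntV O y) :
    rdV O y ∈ ext O.res (oc (B + Bᵀ) U e f) ∧
    sred O (span M {stQ B e f M y}) = span O.res {stQ B e f O.res (rdV O y)} := by
  have h1 : rdV O y ∈ ext O.res (oc (B + Bᵀ) U e f) :=
    sred_ext O (oc (B + Bᵀ) U e f) ▸ rdV_mem hy hi
  refine ⟨h1, ?_⟩
  rw [sred_single (stQ_red O hi).1, (stQ_red O hi).2]
  rw [(stQ_red O hi).2]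
  exact (h.st_e h1).2.2.1

/-- The open stratum is the image of the preimage of a cone under the Lang map. -/
noncomputable def HypQ.mor (h : HypQ B U e f) (m : ℕ) :
    Mor (LP (oc (B + Bᵀ) U e f) (PP K B (oc (B + Bᵀ) U e f) m))
      ((PP K B U (m + 1)).diff (inS K (U ⊓ perp (B + Bᵀ) (span k₀ {e})))) where
  f {L} (y : Option (ι → L)) := span L {stQ B e f L (y.getD 0)}
  mem := by
    rintro L _ ⟨y, rfl, h1, h2⟩
    refine ⟨(h.lp_iff h1).1 h2, fun h3 => ?_⟩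
    have h4 := (mem_ext_perp.1 ((span_singleton_le_iff_mem _ _).1 h3)).2
    exact zero_ne_one (h4.symm.trans (h.st_e h1).1)
  nat := by
    rintro L L' κ _ ⟨y, rfl, -⟩
    exact ((smap_single _ _).trans (by rw [stQ_map κ.toRingHom (map_rat κ)]; rfl)).symm
  cont := by
    rintro M O _ - ⟨y, rfl, h1, -⟩ ⟨z, hz, -⟩
    have hi := int_of_red O hz
    rw [red_some O hi]
    exact (h.sred_st O h1 hi).2.symm

lemma HypQ.proper (h : HypQ B U e f) (m : ℕ) : (h.mor (K := K) m).Proper := by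
  rintro M O _ - ⟨y, rfl, h1, -⟩ ⟨h2, h3⟩
  change (PP K B U (m + 1)).mem (L := O.res) (sred O (span M {stQ B e f M y})) at h2
  change ¬ sred O (span M {stQ B e f M y}) ≤ _ at h3
  obtain ⟨a1, a2, -, -⟩ := h.st_e h1
  obtain ⟨_, ⟨_, hw, hi, rfl⟩, hz⟩ := SetLike.not_le_iff_exists.1 h3
  obtain ⟨t, rfl⟩ := mem_span_singleton.1 hw
  obtain ⟨b1, b2⟩ := (gm_red (B + Bᵀ) O).bf (int_rat O e).1 hi
  rw [(int_rat O e).2] at b2
  rw [bf_smul_right, a1, mul_one] at b1 b2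
  have b3 : O.rd t ≠ 0 := fun h0 =>
    hz (mem_ext_perp.2 ⟨h2.1.2.1 (rdV_mem hw hi), b2.symm.trans h0⟩)
  obtain ⟨b4, b5⟩ := (O.rd_ne_zero_iff b1).1 b3
  have b6 := IntV.smul b5 hi
  rw [smul_smul, inv_mul_cancel₀ b4, one_smul] at b6
  have b7 : IntV O y := a2 ▸ (b6.sub (IntV.smul ((gm_red (B + Bᵀ) O).bf (int_rat O f).1 b6).1
    (int_rat O e).1)).sub (int_rat O f).1
  obtain ⟨c1, c2⟩ := h.sred_st O h1 b7
  rw [red_some O b7]
  exact ⟨_, rfl, c1, (h.lp_iff c1).2 (c2 ▸ h2)⟩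

lemma HypQ.surj (h : HypQ B U e f) (m : ℕ) : (h.mor (K := K) m).Surj := by
  rintro L _ ℓ ⟨h1, h2⟩
  obtain ⟨x₀, hx, rfl⟩ := exists_gen_line h1.1.1
  have h3 : bf (gm (B + Bᵀ) L) (mapV (rat k₀ L) e) x₀ ≠ 0 := fun h0 =>
    h2 ((span_singleton_le_iff_mem _ _).2 (mem_ext_perp.2 ⟨((mem_ps_span hx).1 h1.1).1, h0⟩))
  obtain ⟨x, e1, e2⟩ : ∃ x, span L {x₀} = span L {x} ∧
      bf (gm (B + Bᵀ) L) (mapV (rat k₀ L) e) x = 1 :=
    ⟨_, (span_singleton_smul_eq (IsUnit.mk0 _ (inv_ne_zero h3)) x₀).symm,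
      by rw [bf_smul_right, inv_mul_cancel₀ h3]⟩
  rw [e1] at h1 ⊢
  have hx' : x ≠ 0 := fun h0 => zero_ne_one (by rwa [h0, bf_zero_right] at e2)
  obtain ⟨⟨b1, -⟩, b2⟩ := (mem_pp_span hx').1 h1
  have b3 : bf (gm B L) x x = 0 := b2 m.succ_ne_zero
  obtain ⟨a0, a1, a2, a3, a4⟩ := h.hyp.gm L
  set a := bf (gm (B + Bᵀ) L) (mapV (rat k₀ L) f) x with ha
  set y := x - a • mapV (rat k₀ L) e - mapV (rat k₀ L) f with hy
  have c1 : y ∈ ext L (oc (B + Bᵀ) U e f) := by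
    refine mem_oc.2 ⟨⟨sub_mem (sub_mem b1 (smul_mem _ _ (mapV_mem _ h.hyp.he)))
      (mapV_mem _ h.hyp.hf), ?_⟩, ?_⟩
    · rw [hy, bf_sub_right, bf_sub_right, bf_smul_right, e2, a1, a2]
      ring
    · rw [hy, bf_sub_right, bf_sub_right, bf_smul_right, a3, a4]
      ring
  have c0 : a • mapV (rat k₀ L) e + mapV (rat k₀ L) f + y = x := by
    rw [hy]
    abel
  have c2 : -bf (gm B L) y y = a := by
    have := h.q_comb c1 a
    rw [c0, b3] at this
    linear_combination this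
  have c3 : stQ B e f L y = x := by rw [stQ, c2, c0]
  exact ⟨some y, ⟨y, rfl, c1, (h.lp_iff c1).2 (c3.symm ▸ h1)⟩, congrArg (span L {·}) c3⟩

lemma exists_hypQ (he : e ∈ U) (h0 : bf B e e = 0) {u : ι → k₀}
    (hu : u ∈ U) (h1 : bf (B + Bᵀ) e u ≠ 0) : ∃ f, HypQ B U e f := by
  obtain ⟨v, hv, h2⟩ : ∃ v ∈ U, bf (B + Bᵀ) e v = 1 :=
    ⟨_, smul_mem _ _ hu, by rw [bf_smul_right, inv_mul_cancel₀ h1]⟩
  have h3 : bf (B + Bᵀ) e e = 0 := by rw [bf_pol, h0, add_zero]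
  have h4 : bf B (v - bf B v v • e) (v - bf B v v • e) = 0 := by
    rw [q_sub, q_smul, h0, bf_smul_right, bf_symm (pol_symm B) v e, h2]
    ring
  refine ⟨v - bf B v v • e, ⟨pol_symm B, he, sub_mem hv (smul_mem _ _ he), h3, ?_, ?_⟩, h0, h4⟩
  · rw [bf_sub_right, bf_smul_right, h3, h2, mul_zero, sub_zero]
  · rw [bf_pol, h4, add_zero]

theorem ck_pp (B : Matrix ι ι k₀) (U : Submodule k₀ (ι → k₀)) (m : ℕ) : CK (PP K B U m) := by
  induction h : finrank k₀ U using Nat.strong_induction_on generalizing U m with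
  | _ n ih =>
    subst h
    cases m with
    | zero => exact (ck_proj _ U).congr fun L ℓ => ⟨fun a => ⟨a, fun e => absurd rfl e⟩, fun a => a.1⟩
    | succ m =>
      by_cases ha : ∀ u ∈ U, bf B u u = 0 → u = 0
      · exact aniso_ckQ ha
      push Not at ha
      obtain ⟨e, he, h1, h0⟩ := ha
      by_cases hr : ∀ u ∈ U, bf (B + Bᵀ) e u = 0
      · obtain ⟨U', h2, h3, h4⟩ := PS.exists_compl he h0
        refine coneQ (finrank_span_singleton h0) h2 h3 ⟨fun u hu => ?_, ?_⟩ (sg_line.2 h1)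
          (ih _ h4 U' _ rfl)
        · exact mem_perp_span.2 (hr u hu)
        · exact (span_singleton_le_iff_mem _ _).2 fun u hu =>
            (bf_symm (pol_symm B) u e).trans (hr u hu)
      push Not at hr
      obtain ⟨u, hu, h2⟩ := hr
      obtain ⟨f, hf⟩ := exists_hypQ he h1 hu h2
      have h3 : finrank k₀ ↥(U ⊓ perp (B + Bᵀ) (span k₀ {e})) < finrank k₀ U :=
        finrank_lt_finrank_of_lt (lt_of_le_of_ne inf_le_left fun e' =>
          h2 (mem_perp_span.1 (e'.ge hu).2))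
      have h4 : ∀ V ≤ PS.oc (B + Bᵀ) U e f, ∀ m, CK (PP K B V m) := fun V hV m =>
        ih _ ((finrank_mono (hV.trans inf_le_left)).trans_lt h3) V m rfl
      refine CK.of_closed (PS.inS_closed _ _) (inter_inSQ inf_le_left (ih _ h3 _ _ rfl)) ?_
      exact CK.image (hf.mor m) (hf.proper m) (hf.surj m)
        (ck_lp _ _ (fun _ _ a => ⟨a.1.1, a.1.2.1⟩) (fun _ O _ _ a => pp_red O a) (h4 _ le_rfl m)
          fun V hV _ => inter_inSQ hV (h4 V hV m))

end Pool.Agent.Lib.MP_557161_ag.DL.D2
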