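import Pool.Agent.Lib.MP_557161_ag.DL.Main

/-!
Alternating forms with a quadratic refinement, singular subspaces.
-/

namespace Pool.Agent.Lib.MP_557161_ag.DL.D2

open Module Submodule Matrix

section Lin

variable {L L' : Type} [Field L] [Field L'] {ι ι₂ : Type} [Fintype ι] [Fintype ι₂]

/-- Subspaces on which the quadratic form of `B` vanishes. -/
def Sg (B : Matrix ι ι L) (E : Submodule L (ι → L)) : Prop := ∀ x ∈ E, bf B x x = 0

/-- A nondegenerate alternating form, with no quadratic form or with a quadratic form that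
polarises to it. -/
structure QF (G B : Matrix ι ι L) : Prop where
  alt : Gᵀ = -G
  self : ∀ x, bf G x x = 0
  inj : ∀ x, G *ᵥ x = 0 → x = 0
  pol : B = 0 ∨ G = B + Bᵀ

variable {G B : Matrix ι ι L} {G₂ B₂ : Matrix ι₂ ι₂ L} {E F : Submodule L (ι → L)}

lemma bf_pol (B : Matrix ι ι L) (x y : ι → L) : bf (B + Bᵀ) x y = bf B x y + bf B y x := by
  rw [GeoA.bf_transpose B y x]
  simp only [bf, add_mulVec, dotProduct_add]

lemma q_add (B : Matrix ι ι L) (x y : ι → L) :
    bf B (x + y) (x + y) = bf B x x + bf B y y + bf (B + Bᵀ) x y := by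
  rw [bf_pol]
  simp only [bf_add_left, bf_add_right]
  ring

lemma q_smul (B : Matrix ι ι L) (c : L) (x : ι → L) :
    bf B (c • x) (c • x) = c * c * bf B x x := by
  rw [bf_smul_left, bf_smul_right, mul_assoc]

lemma bf_zero_mat (x y : ι → L) : bf (0 : Matrix ι ι L) x y = 0 := by simp [bf]

lemma self_of_diag (ha : Gᵀ = -G) (hd : ∀ i, G i i = 0) (x : ι → L) : bf G x x = 0 := by
  classical
  have key : ∀ s : Finset ι, ∑ i ∈ s, ∑ j ∈ s, x i * (G i j * x j) = 0 := fun s => by
    induction s using Finset.induction_on with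
    | empty => simp
    | insert a s hs ih =>
      simp only [Finset.sum_insert hs, Finset.sum_add_distrib, ih, hd, zero_mul, mul_zero, zero_add,
        add_zero]
      rw [← Finset.sum_add_distrib]
      refine Finset.sum_eq_zero fun i _ => ?_
      have : G i a = -G a i := congrFun (congrFun ha a) i
      rw [this]
      ring
  simpa only [bf, dotProduct, mulVec, Finset.mul_sum] using key Finset.univ

lemma diag_of_self [DecidableEq ι] (h : ∀ x, bf G x x = 0) (i : ι) : G i i = 0 := by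
  simpa [bf] using h (Pi.single i 1)

lemma QF.e (h : QF G B) : EForm G := ⟨Or.inr h.alt, h.inj⟩

lemma QF.add (h : QF G B) {x y : ι → L} (hxy : bf G x y = 0) :
    bf B (x + y) (x + y) = bf B x x + bf B y y := by
  rcases h.pol with rfl | e
  · simp [bf_zero_mat]
  · rw [q_add, ← e, hxy, add_zero]

omit [Fintype ι] in
lemma pol_map (κ : L →+* L') (B : Matrix ι ι L) : (B + Bᵀ).map κ = B.map κ + (B.map κ)ᵀ := by
  rw [Matrix.map_add _ (map_add κ), transpose_map]

lemma QF.map (h : QF G B) (κ : L →+* L') : QF (G.map κ) (B.map κ) := by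
  classical
  have ha : (G.map κ)ᵀ = -G.map κ := by
    rw [← transpose_map, h.alt, Matrix.map_neg _ (map_neg _)]
  refine ⟨ha, self_of_diag ha fun i => ?_, (h.e.map κ).inj, h.pol.imp (fun e => ?_) fun e => ?_⟩
  · rw [map_apply, diag_of_self h.self, map_zero]
  · rw [e, Matrix.map_zero _ (map_zero κ)]
  · rw [e, pol_map]

lemma QF.right (h : QF (dsum G G₂) (dsum B B₂)) : QF G₂ B₂ := by
  refine ⟨Matrix.ext fun i j => ?_, fun x => ?_, h.e.right.inj,
    h.pol.imp (fun e => Matrix.ext fun i j => ?_) fun e => Matrix.ext fun i j => ?_⟩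
  · have : -G₂ j i = - -G₂ i j := congrFun (congrFun h.alt (Sum.inr i)) (Sum.inr j)
    exact neg_injective this
  · have := h.self (Sum.elim 0 x)
    rw [bf_dsum] at this
    simpa using this
  · have := congrFun (congrFun e (Sum.inr i)) (Sum.inr j)
    simpa [dsum] using this
  · have : -G₂ i j = -B₂ i j + -B₂ j i := congrFun (congrFun e (Sum.inr i)) (Sum.inr j)
    show G₂ i j = B₂ i j + B₂ j i
    linear_combination -this

lemma Sg.mono (h : Sg B F) (h' : E ≤ F) : Sg B E := fun x hx => h x (h' hx)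

lemma sg_bot : Sg B ⊥ := fun x hx => by rw [(mem_bot L).1 hx, bf_zero_left]

lemma sg_zero : Sg (0 : Matrix ι ι L) E := fun _ _ => bf_zero_mat _ _

lemma Sg.iso (h : Sg B E) : Iso (B + Bᵀ) E := fun y hy x hx => by
  have := q_add B x y
  rwa [h _ (add_mem hx hy), h x hx, h y hy, zero_add, zero_add, eq_comm] at this

lemma sg_span' {S : Set (ι → L)} (hI : Iso (B + Bᵀ) (span L S)) (h : ∀ x ∈ S, bf B x x = 0) :
    Sg B (span L S) := fun x hx => by
  induction hx using span_induction with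
  | mem x hx => exact h x hx
  | zero => exact bf_zero_left _ _
  | add x y hx hy ix iy => rw [q_add, ix, iy, hI hy x hx, zero_add, zero_add]
  | smul c x _ ix => rw [q_smul, ix, mul_zero]

lemma QF.span (hQ : QF G B) {S : Set (ι → L)} (hI : Iso G (span L S))
    (h : ∀ x ∈ S, bf B x x = 0) : Sg B (span L S) := by
  rcases hQ.pol with rfl | e
  · exact sg_zero
  · exact sg_span' (e ▸ hI) h

lemma QF.sup (hQ : QF G B) (h : F ≤ perp G E) (hE : Sg B E) (hF : Sg B F) : Sg B (E ⊔ F) :=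
  fun z hz => by
    obtain ⟨x, hx, y, hy, rfl⟩ := mem_sup.1 hz
    rw [hQ.add (h hy x hx), hE x hx, hF y hy, add_zero]

lemma QF.sup' (hQ : QF G B) {D : Submodule L (ι → L)} (h : Iso G D) (e : D = E ⊔ F) (hE : Sg B E)
    (hF : Sg B F) : Sg B D := by
  subst e
  exact hQ.sup (le_sup_right.trans (h.trans (perp_anti G le_sup_left))) hE hF

lemma sg_line {x : ι → L} : Sg B (span L {x}) ↔ bf B x x = 0 :=
  ⟨fun h => h x (mem_span_singleton_self x), fun h y hy => by
    obtain ⟨c, rfl⟩ := mem_span_singleton.1 hy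
    rw [q_smul, h, mul_zero]⟩

lemma sg_smap (κ : L →+* L') : Sg (B.map κ) (smap κ E) ↔ Sg B E := by
  refine ⟨fun h x hx => κ.injective ?_, fun h => sg_span' ?_ ?_⟩
  · rw [← bf_mapV, map_zero]
    exact h _ (mapV_mem κ hx)
  · rw [← pol_map]
    exact (iso_smap κ).2 h.iso
  · rintro _ ⟨x, hx, rfl⟩
    rw [bf_mapV, h x hx, map_zero]

lemma QF.iso_alt (h : QF G B) {P D : Submodule L (ι → L)} (hP : Iso G P) (h1 : P ≤ D)
    (h2 : D ≤ perp G P) (h3 : finrank L D = finrank L P + 1) : Iso G D := by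
  obtain ⟨v, hv, hv'⟩ := PenA.exists_not_mem (P := P) (S := D) (by omega)
  rw [PenA.eq_sup h1 h3 hv hv']
  exact PenA.iso_sup_line h.e hP (h2 hv) (h.self v)

lemma QF.card_alt (h : QF G B) {P : Submodule L (ι → L)} (hP : Iso G P)
    (hc : Fintype.card ι = 2 * finrank L P + 1) : False := by
  have h1 := h.e.finrank_perp P
  have h2 := h.e.iso_finrank (h.iso_alt hP hP le_rfl (by omega))
  omega

lemma sg_trf {Λ : Submodule L (ι ⊕ ι₂ → L)} (h : Sg (dsum B B₂) Λ) {E₂ : Submodule L (ι₂ → L)}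
    (hE : Sg B₂ E₂) : Sg B (trf Λ E₂) := fun v hv => by
  obtain ⟨z, hz, e⟩ := mem_trf.1 hv
  have := h _ e
  rw [bf_dsum] at this
  have h2 := hE z hz
  simpa [h2] using this

lemma sg_of_trf (hG : EForm (dsum G G₂)) {b : ℕ} {Λ : Submodule L (ι ⊕ ι₂ → L)}
    (hΛ : GoodL G G₂ b Λ) (h : Sg (dsum B B₂) Λ) {E₂ : Submodule L (ι₂ → L)}
    (hE : Sg B (trf Λ E₂)) : Sg B₂ E₂ := fun z hz => by
  obtain ⟨v, hv⟩ := hΛ.exists_lift hG z
  have := h _ hv
  rw [bf_dsum] at this
  have h2 := hE v (mem_trf.2 ⟨z, hz, hv⟩)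
  simpa [h2] using this

lemma sg_asp (hQ : QF G B) {φ : L →+* L} (hφ : B.map φ = B) {ℓ : Submodule L (ι → L)}
    (hℓ : Sg B ℓ) (m : ℕ) (hI : Iso G (Asp φ ℓ m)) : Sg B (Asp φ ℓ m) := by
  have h1 : ∀ t, Sg B ((smap φ)^[t] ℓ) := fun t => by
    induction t with
    | zero => exact hℓ
    | succ t ih =>
      rw [Function.iterate_succ_apply']
      have := (sg_smap φ).2 ih
      rwa [hφ] at this
  induction m with
  | zero => exact sg_bot
  | succ m ih => exact hQ.sup' hI (asp_succ' m) (ih (hI.mono (asp_mono m.le_succ))) (h1 m)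

end Lin

section Red

variable {K : Type} [Field K] {M : Fld K} {O : Pl M} {ι : Type} [Fintype ι]

lemma sg_red {B : Matrix ι ι M} {B' : Matrix ι ι O.res} (h : MRed O B B') {E : Submodule M (ι → M)}
    (hE : Sg B E) : Sg B' (sred O E) := by
  rintro _ ⟨x, hx, ix, rfl⟩
  rw [← (h.bf ix ix).2, hE x hx, O.rd_zero]

variable {A C : Amb K} {W : Sp A} {Y : Sp C}

/-- The restriction of a map. -/
def res (f : Mor W Y) (W' : Sp A) (Y' : Sp C)
    (h : ∀ (L : Fld K) (y : A.pt L), W.mem y → W'.mem y → Y'.mem (f.f y)) :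
    Mor (W.inter W') (Y.inter Y') where
  f y := f.f y
  mem y hy := ⟨f.mem y hy.1, h _ y hy.1 hy.2⟩
  nat κ y hy := f.nat κ y hy.1
  cont O y hO hy hy' := f.cont O y hO hy.1 hy'.1

end Red

section Spc

variable {k₀ : Type} [Field k₀] [Fintype k₀] {K : Type} [Field K] [Algebra k₀ K]
  {ι : Type} [Fintype ι] {G B : Matrix ι ι k₀}

omit [Fintype k₀] in
lemma QF.gm (h : QF G B) (L : Fld K) : QF (gm G L) (gm B L) := h.map _

omit [Fintype k₀] in
lemma sg_map {L L' : Fld K} (κ : L →ₐ[K] L') {E : Submodule L (ι → L)} :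
    Sg (gm B L') (smap κ.toRingHom E) ↔ Sg (gm B L) E := by
  rw [← gm_map B κ, sg_smap]

lemma sg_frH {L : Fld K} {E : Submodule L (ι → L)} :
    Sg (gm B L) (smap (frH k₀ L) E) ↔ Sg (gm B L) E := by
  have := sg_smap (B := gm B L) (E := E) (frH k₀ L)
  rwa [gm_frH] at this

omit [Fintype k₀] in
lemma sg_ext {L : Fld K} {U : Submodule k₀ (ι → k₀)} : Sg (gm B L) (ext L U) ↔ Sg B U :=
  sg_smap _

variable (K) in
/-- Singular subspaces. -/
def SS (B : Matrix ι ι k₀) : Sp (Sub K ι) :=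
  Sp.sub (fun L E => Sg (gm B L) E) fun κ _ => sg_map κ

variable (K) in
/-- Singular flags. -/
def SF (B : Matrix ι ι k₀) (n : ℕ) : Sp (Fl K ι) where
  mem {L} D := Sg (gm B L) ((show Flg L ι from D) n)
  map_iff κ _ := sg_map κ

/-- Lists of points of a space. -/
def lst {A : Amb K} (Y : Sp A) : Sp A.list where
  mem {L} y := ∀ a ∈ (show List (A.pt L) from y), Y.mem a
  map_iff κ y := by
    refine List.forall_mem_map.trans (forall₂_congr fun a _ => Y.map_iff κ a)

omit [Fintype k₀] in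
lemma ss_red {M : Fld K} (O : Pl M) {E : Submodule M (ι → M)} (h : Sg (gm B M) E) :
    Sg (gm B O.res) (sred O E) := sg_red (gm_red B O) h

omit [Fintype k₀] in
lemma lst_red {n : ℕ} {M : Fld K} (O : Pl M) {Es : List (Flg M ι)}
    (h : (lst (SF K B n)).mem (L := M) Es) :
    (lst (SF K B n)).mem (L := O.res) (Es.map (fred O)) :=
  List.forall_mem_map.2 fun a ha => ss_red O (h a ha)

variable (K) in
/-- The singular points of the variety of a word. -/
noncomputable def XQ (G B : Matrix ι ι k₀) (n : ℕ) (u : List ℕ) : Sp ((Fl K ι).prod (Fl K ι).list) :=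
  (XC K G n u).inter ((SF K B n).prod (lst (SF K B n)))

variable (K) in
/-- The condition on triples. -/
noncomputable def S3 (B : Matrix ι ι k₀) (n : ℕ) : Sp ((Fl K ι).prod ((Fl K ι).prod (Fl K ι).list)) :=
  (SF K B n).prod ((SF K B n).prod (lst (SF K B n)))

variable (K) in
/-- The singular points of the variety of a word preceded by a coset representative. -/
noncomputable def YQ (G B : Matrix ι ι k₀) (n : ℕ) (τ : Bool) (b : ℕ) (u : List ℕ) :
    Sp ((Fl K ι).prod ((Fl K ι).prod (Fl K ι).list)) :=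
  (YS K G n τ b u).inter (S3 K B n)

omit [Fintype k₀] in
lemma s3_red {n : ℕ} {M : Fld K} (O : Pl M) {y : ((Fl K ι).prod ((Fl K ι).prod (Fl K ι).list)).pt M}
    (h : (S3 K B n).mem y) : (S3 K B n).mem (((Fl K ι).prod ((Fl K ι).prod (Fl K ι).list)).red O y) :=
  ⟨ss_red O h.1, ss_red O h.2.1, lst_red O h.2.2⟩

end Spc

end Pool.Agent.Lib.MP_557161_ag.DL.D2
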